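import Pool.Agent.U531.SR.Graph

/-!
# The sum over all graphs
-/

set_option autoImplicit false

namespace Pool.Agent.U531.SR

open Finset

/-- `G(n, p)` has the property `P` with this probability -/
noncomputable def probG {n : ℕ} (p : ℝ) (P : SimpleGraph (Fin n) → Prop) : ℝ := by
  classical exact ∑ G : SimpleGraph (Fin n), if P G then
    (∏ e : {e : Sym2 (Fin n) // ¬ e.IsDiag}, if e.1 ∈ G.edgeSet then p else 1 - p) else 0

theorem mem_gr {n : ℕ} (χ : Pairs n → Bool) (e : Pairs n) : e.1 ∈ (gr χ).edgeSet ↔ χ e = true := by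
  obtain ⟨e, he⟩ := e
  induction e using Sym2.ind with
  | _ u v => exact gr_adj χ u v he

/-- configurations and graphs -/
noncomputable def grEquiv (n : ℕ) : (Pairs n → Bool) ≃ SimpleGraph (Fin n) where
  toFun := gr
  invFun G := by classical exact fun e => decide (e.1 ∈ G.edgeSet)
  left_inv χ := by
    classical
    funext e
    rw [Bool.eq_iff_iff, decide_eq_true_iff]
    exact mem_gr χ e
  right_inv G := by
    classical
    ext u v
    constructor
    · rintro ⟨_, h⟩
      exact (decide_eq_true_iff.1 h : s(u, v) ∈ G.edgeSet)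
    · intro h
      have hd : ¬ (s(u, v) : Sym2 (Fin n)).IsDiag := by
        rw [Sym2.mk_isDiag_iff]
        exact h.ne
      exact ⟨hd, decide_eq_true_iff.2 (show s(u, v) ∈ G.edgeSet from h)⟩

theorem probG_eq {n : ℕ} (p : ℝ) (P : SimpleGraph (Fin n) → Prop) :
    probG p P = PR p (fun χ : Pairs n → Bool => P (gr χ)) := by
  classical
  rw [PR_eq]
  unfold probG
  symm
  refine Fintype.sum_equiv (grEquiv n) _ _ (fun χ => ?_)
  show (if P (gr χ) then wt p χ else 0) = _
  have e1 : grEquiv n χ = gr χ := rfl
  rw [e1]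
  by_cases h : P (gr χ)
  · rw [if_pos h, if_pos h]
    unfold wt w1
    refine Finset.prod_congr rfl fun e _ => ?_
    by_cases he : χ e = true
    · rw [if_pos he, if_pos ((mem_gr χ e).2 he)]
    · rw [if_neg he, if_neg (fun h' => he ((mem_gr χ e).1 h'))]
  · rw [if_neg h, if_neg h]

end Pool.Agent.U531.SR
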