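import Pool.Agent.U531.SR.Graph

/-!
# Very sparse random graphs are forests
-/

set_option autoImplicit false

namespace Pool.Agent.U531.SR

open Finset

/-- a cycle of length `k + 3` -/
def Cyc {n : ℕ} (k : ℕ) (f : Fin (k + 3) → Fin n) (G : SimpleGraph (Fin n)) : Prop :=
  ∀ i, G.Adj (f i) (f (i + 1))

theorem exists_cyc {n : ℕ} (G : SimpleGraph (Fin n)) (h : ¬ G.IsAcyclic) :
    ∃ k ∈ range n, ∃ f ∈ (univ : Finset (Fin (k + 3) → Fin n)), Function.Injective f ∧
      Cyc k f G := by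
  unfold SimpleGraph.IsAcyclic at h
  push Not at h
  obtain ⟨v, w, hw⟩ := h
  have hlen := hw.three_le_length
  obtain ⟨k, hk⟩ : ∃ k, w.length = k + 3 := ⟨w.length - 3, by omega⟩
  have hinj : Function.Injective (fun i : Fin (k + 3) => w.getVert i) := by
    intro i j hij
    have := hw.getVert_injOn' (by rw [Set.mem_ofPred_eq]; have := i.2; omega)
      (by rw [Set.mem_ofPred_eq]; have := j.2; omega) hij
    exact Fin.ext this
  refine ⟨k, ?_, fun i => w.getVert i, Finset.mem_univ _, hinj, ?_⟩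
  · rw [Finset.mem_range]
    have := Fintype.card_le_of_injective _ hinj
    rw [Fintype.card_fin, Fintype.card_fin] at this
    omega
  · intro i
    show G.Adj (w.getVert i.1) (w.getVert (i + 1 : Fin (k + 3)).1)
    have h1 := w.adj_getVert_succ (i := i.1) (by have := i.2; omega)
    by_cases hi : i.1 + 1 < k + 3
    · have e : ((i + 1 : Fin (k + 3)) : ℕ) = i.1 + 1 := by
        rw [Fin.val_add_one_of_lt']
        exact hi
      rw [e]
      exact h1
    · have hi' : i.1 + 1 = k + 3 := by have := i.2; omega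
      have e : (i + 1 : Fin (k + 3)) = 0 := by
        apply Fin.ext
        rw [Fin.val_add]
        simp [hi']
      rw [e]
      have e2 : w.getVert (i.1 + 1) = w.getVert 0 := by
        rw [hi', ← hk, SimpleGraph.Walk.getVert_length, SimpleGraph.Walk.getVert_zero]
      rw [e2] at h1
      exact h1

theorem succ_ne {k : ℕ} (i : Fin (k + 3)) : i ≠ i + 1 := by
  intro h
  have h2 : ((i + 1 : Fin (k + 3)) : ℕ) = i.1 := by rw [← h]
  rw [Fin.val_add] at h2
  have h3 := i.2
  have h4 : ((1 : Fin (k + 3)) : ℕ) = 1 := rfl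
  rw [h4] at h2
  rcases Nat.lt_or_ge (i.1 + 1) (k + 3) with h5 | h5
  · rw [Nat.mod_eq_of_lt h5] at h2
    omega
  · have : i.1 + 1 = k + 3 := by omega
    rw [this, Nat.mod_self] at h2
    omega

theorem succ_succ_ne {k : ℕ} (i : Fin (k + 3)) : i + 1 + 1 ≠ i := by
  intro h
  have h2 : ((i + 1 + 1 : Fin (k + 3)) : ℕ) = i.1 := by rw [h]
  rw [Fin.val_add, Fin.val_add] at h2
  have h3 := i.2
  have h4 : ((1 : Fin (k + 3)) : ℕ) = 1 := rfl
  rw [h4, Nat.mod_add_mod] at h2
  rcases Nat.lt_or_ge (i.1 + 1 + 1) (k + 3) with h5 | h5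
  · rw [Nat.mod_eq_of_lt h5] at h2
    omega
  · rw [Nat.mod_eq_sub_mod h5, Nat.mod_eq_of_lt (by omega)] at h2
    omega

theorem PR_cyc {n k : ℕ} (f : Fin (k + 3) → Fin n) (hf : Function.Injective f) {p : ℝ}
    (h0 : 0 ≤ p) (h1 : p ≤ 1) :
    PR p (fun χ : Pairs n → Bool => Cyc k f (gr χ)) ≤ p ^ (k + 3) := by
  classical
  have hd : ∀ i : Fin (k + 3), ¬ (s(f i, f (i + 1)) : Sym2 (Fin n)).IsDiag := by
    intro i h
    rw [Sym2.mk_isDiag_iff] at h
    exact succ_ne i (hf h)
  let j : Fin (k + 3) → Pairs n := fun i => ⟨s(f i, f (i + 1)), hd i⟩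
  have hj : Function.Injective j := by
    intro i i' h
    have h' := congrArg Subtype.val h
    simp only [j] at h'
    rw [Sym2.eq_iff] at h'
    rcases h' with ⟨e1, _⟩ | ⟨e1, e2⟩
    · exact hf e1
    · exfalso
      have a1 := hf e1
      have a2 := hf e2
      rw [a1] at a2
      exact succ_succ_ne i' a2
  set P : (Fin (k + 3) → Bool) → Prop := fun ψ => ∀ i, ψ i = true with hP
  have step : PR p (fun χ : Pairs n → Bool => Cyc k f (gr χ)) ≤ PR p P := by
    rw [← PR_comp p j hj P]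
    exact PR_mono h0 h1 (fun χ h i => (gr_adj χ _ _ (hd i)).1 (h i))
  refine step.trans ?_
  have h := PR_le_prod h0 h1 P (fun _ b => if b then 1 else 0)
    (fun _ b => by split_ifs <;> norm_num) 1 one_pos (fun ψ hψ => by
      rw [Finset.prod_eq_one]
      intro e _
      simp [hψ e])
  refine h.trans (le_of_eq ?_)
  simp

theorem PR_acyclic {n : ℕ} {p : ℝ} (h0 : 0 ≤ p) (h1 : p ≤ 1) (hc : (n : ℝ) * p ≤ 1 / 2) :
    PR p (fun χ : Pairs n → Bool => ¬ (gr χ).IsAcyclic) ≤ n * p := by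
  classical
  refine (PR_mono h0 h1 (fun χ h => exists_cyc (gr χ) h)).trans ?_
  refine (PR_exists_le h0 h1 _ _).trans ?_
  have hc0 : 0 ≤ (n : ℝ) * p := by positivity
  have hk : ∀ k ∈ range n, PR p (fun χ : Pairs n → Bool =>
      ∃ f ∈ (univ : Finset (Fin (k + 3) → Fin n)), Function.Injective f ∧ Cyc k f (gr χ)) ≤
        ((n : ℝ) * p) ^ (k + 3) := by
    intro k _
    refine (PR_exists_le h0 h1 _ _).trans ?_
    have hf : ∀ f ∈ (univ : Finset (Fin (k + 3) → Fin n)),
        PR p (fun χ : Pairs n → Bool => Function.Injective f ∧ Cyc k f (gr χ)) ≤ p ^ (k + 3) := by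
      intro f _
      by_cases h : Function.Injective f
      · exact (PR_mono h0 h1 (fun χ h' => h'.2)).trans (PR_cyc f h h0 h1)
      · refine (PR_mono h0 h1 (Q := fun _ => False) (fun χ h' => h h'.1)).trans ?_
        rw [PR_eq]
        simp only [if_false, Finset.sum_const_zero]
        positivity
    refine (Finset.sum_le_sum hf).trans ?_
    rw [Finset.sum_const, Finset.card_univ, Fintype.card_fun, Fintype.card_fin, Fintype.card_fin,
      nsmul_eq_mul, mul_pow]
    push_cast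
    exact le_refl _
  refine (Finset.sum_le_sum hk).trans ?_
  have hg : ∀ k ∈ range n, ((n : ℝ) * p) ^ (k + 3) ≤ n * p * (1 / 2) ^ (k + 2) := by
    intro k _
    rw [show k + 3 = (k + 2) + 1 by ring, pow_succ, mul_comm]
    exact mul_le_mul_of_nonneg_left (pow_le_pow_left₀ hc0 hc _) hc0
  refine (Finset.sum_le_sum hg).trans ?_
  rw [← Finset.mul_sum]
  have hs : ∑ k ∈ range n, (1 / 2 : ℝ) ^ (k + 2) ≤ 1 := by
    have h2 : ∀ m : ℕ, ∑ k ∈ range m, (1 / 2 : ℝ) ^ (k + 2) = 1 / 2 - (1 / 2) ^ (m + 1) := by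
      intro m
      induction m with
      | zero => norm_num
      | succ m ih =>
        rw [Finset.sum_range_succ, ih]
        ring
    rw [h2]
    have : (0 : ℝ) < (1 / 2) ^ (n + 1) := by positivity
    linarith
  calc (n : ℝ) * p * ∑ k ∈ range n, (1 / 2 : ℝ) ^ (k + 2) ≤ n * p * 1 :=
        mul_le_mul_of_nonneg_left hs hc0
    _ = n * p := mul_one _

end Pool.Agent.U531.SR
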