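import Pool.Agent.U531.SR.Bounds

/-!
# The choice of the thresholds
-/

set_option autoImplicit false

namespace Pool.Agent.U531.SR

open Finset Filter Topology

theorem Ph_scale {c t : ℝ} (hc : 0 < c) : Ph c (c * t) = c * Ph 1 t := by
  unfold Ph
  rw [div_one, mul_div_cancel_left₀ _ hc.ne']
  ring

theorem Ph_mono {c t t' : ℝ} (hc : 0 < c) (h : c ≤ t) (h' : t ≤ t') : Ph c t ≤ Ph c t' := by
  unfold Ph
  have ht : 0 < t := lt_of_lt_of_le hc h
  have ht' : 0 < t' := lt_of_lt_of_le ht h'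
  have h1 : 0 ≤ Real.log (t / c) := Real.log_nonneg (by rw [le_div_iff₀ hc]; linarith)
  have h2 := Real.one_sub_inv_le_log_of_pos (x := t' / t) (by positivity)
  have h3 : Real.log (t' / c) = Real.log (t' / t) + Real.log (t / c) := by
    rw [← Real.log_mul (by positivity) (by positivity)]
    congr 1
    field_simp
  have h4 : t' - t ≤ t' * Real.log (t' / t) := by
    calc t' - t = t' * (1 - (t' / t)⁻¹) := by
          field_simp
      _ ≤ _ := mul_le_mul_of_nonneg_left h2 ht'.le
  have h5 : t * Real.log (t / c) ≤ t' * Real.log (t / c) := mul_le_mul_of_nonneg_right h' h1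
  rw [h3]
  nlinarith

theorem Ph_one_pos {x : ℝ} (hx : 1 < x) : 0 < Ph 1 x := by
  unfold Ph
  rw [div_one]
  have h := Real.one_sub_inv_le_log_of_pos (x := x) (by linarith)
  have h2 : 1 - x⁻¹ < Real.log x := by
    rcases h.lt_or_eq with h | h
    · exact h
    · exfalso
      have h3 := Real.add_one_lt_exp (x := Real.log x⁻¹) (by
        rw [Real.log_inv]
        have := Real.log_pos hx
        linarith)
      rw [Real.exp_log (by positivity), Real.log_inv] at h3
      linarith
  have hx0 : 0 < x := by linarith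
  have h3 : x * (1 - x⁻¹) < x * Real.log x := mul_lt_mul_of_pos_left h2 hx0
  have h4 : x * (1 - x⁻¹) = x - 1 := by
    field_simp
  linarith

theorem ev_pow' (K δ M : ℝ) (hδ : 0 < δ) (k : ℕ) :
    ∀ᶠ s : ℝ in atTop, K * s ^ k + M ≤ Real.exp (δ * s) := by
  have h1 : Tendsto (fun x : ℝ => x ^ k * Real.exp (-x)) atTop (𝓝 0) :=
    Real.tendsto_pow_mul_exp_neg_atTop_nhds_zero k
  have h0 : Tendsto (fun x : ℝ => x ^ 0 * Real.exp (-x)) atTop (𝓝 0) :=
    Real.tendsto_pow_mul_exp_neg_atTop_nhds_zero 0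
  have hd : Tendsto (fun s : ℝ => δ * s) atTop atTop := tendsto_id.const_mul_atTop hδ
  have h2 := (h1.comp hd).const_mul (K / δ ^ k)
  have h3 := (h0.comp hd).const_mul M
  have h4 := h2.add h3
  rw [mul_zero, mul_zero, add_zero] at h4
  have h5 := h4.eventually (gt_mem_nhds (zero_lt_one (α := ℝ)))
  filter_upwards [h5] with s hs
  simp only [Function.comp, pow_zero, one_mul] at hs
  have hE := Real.exp_pos (δ * s)
  have e1 : K / δ ^ k * ((δ * s) ^ k * Real.exp (-(δ * s))) + M * Real.exp (-(δ * s)) =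
      (K * s ^ k + M) * Real.exp (-(δ * s)) := by
    rw [mul_pow]
    field_simp
  rw [e1, Real.exp_neg, ← div_eq_mul_inv, div_lt_one hE] at hs
  exact hs.le

theorem ev_loglog (K : ℝ) : ∀ᶠ s : ℝ in atTop, K * Real.log s ≤ s := by
  have h := Real.tendsto_log_atTop.eventually (ev_pow' K 1 0 one_pos 1)
  filter_upwards [h, eventually_gt_atTop 0] with s hs h0
  rw [one_mul, Real.exp_log h0, pow_one, add_zero] at hs
  exact hs

theorem regime (lam κ : ℝ) (hl : 0 < lam) (hl1 : lam < 1) (hκ : 0 < κ)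
    (hφ : κ * Ph 1 (1 / lam) < 1) :
    ∃ C δ β : ℝ, 0 < C ∧ 0 < δ ∧ 0 < β ∧ ∀ C0 D0 : ℕ, ∀ᶠ s : ℝ in atTop, ∀ c : ℝ,
      1 / s ≤ c → c ≤ κ * s → ∃ T j : ℕ, D0 ≤ T ∧ 1 ≤ T ∧ (T : ℝ) ≤ C * s ∧
        Ph c T ≤ (1 - δ) * s ∧ c ≤ j ∧ β * s ≤ Ph c j ∧ (j : ℝ) + C0 ≤ lam * T := by
  -- θ
  obtain ⟨θ, hθ0, hθ1, hθ⟩ : ∃ θ : ℝ, 0 < θ ∧ θ ≤ 1 ∧ κ * Ph 1 ((1 + 2 * θ) / lam) < 1 := by
    have hcont : ContinuousAt (fun θ : ℝ => κ * Ph 1 ((1 + 2 * θ) / lam)) 0 := by
      unfold Ph
      simp only [div_one]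
      have h1 : ContinuousAt (fun θ : ℝ => (1 + 2 * θ) / lam) 0 := by fun_prop
      have h2 : ContinuousAt (fun θ : ℝ => Real.log ((1 + 2 * θ) / lam)) 0 := by
        apply ContinuousAt.log h1
        simp only [mul_zero, add_zero]
        positivity
      exact continuousAt_const.mul (((h1.mul h2).sub h1).add continuousAt_const)
    have h0 : κ * Ph 1 ((1 + 2 * 0) / lam) < 1 := by simpa using hφ
    have h1 := hcont.eventually (gt_mem_nhds h0)
    rw [Metric.eventually_nhds_iff] at h1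
    obtain ⟨r, hr, h1⟩ := h1
    refine ⟨min 1 (r / 2), by positivity, min_le_left _ _, ?_⟩
    apply h1
    rw [Real.dist_eq, sub_zero, abs_of_pos (by positivity)]
    have := min_le_right 1 (r / 2)
    linarith
  -- Y0
  obtain ⟨Y0, hY2, hY⟩ : ∃ Y0 : ℝ, 2 ≤ Y0 ∧ ∀ y, Y0 ≤ y →
      4 * Real.exp 1 / lam * y ≤ Real.exp (1 / 2 * y) := by
    have h := ev_pow' (4 * Real.exp 1 / lam) (1 / 2) 0 (by norm_num) 1
    rw [eventually_atTop] at h
    obtain ⟨Y, hY⟩ := h
    refine ⟨max 2 Y, le_max_left _ _, fun y hy => ?_⟩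
    have := hY y ((le_max_right _ _).trans hy)
    rwa [pow_one, add_zero] at this
  set ε0 : ℝ := Real.exp (-Y0) with hε0
  have hε0p : 0 < ε0 := Real.exp_pos _
  have hε04 : ε0 ≤ 1 / 4 := by
    have h1 : Real.exp (-Y0) ≤ Real.exp (-2) := Real.exp_le_exp.2 (by linarith)
    have h2 : Real.exp (-2) ≤ 1 / 4 := by
      rw [Real.exp_neg, inv_eq_one_div]
      apply one_div_le_one_div_of_le (by norm_num)
      have := Real.add_one_le_exp (1 : ℝ)
      have h3 : Real.exp 2 = Real.exp 1 * Real.exp 1 := by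
        rw [← Real.exp_add]
        norm_num
      rw [h3]
      nlinarith
    exact h1.trans h2
  set δ1 : ℝ := 1 - κ * Ph 1 ((1 + 2 * θ) / lam) with hδ1
  have hδ1p : 0 < δ1 := by linarith
  have hφ2 : 0 < Ph 1 (1 + θ / 2) := Ph_one_pos (by linarith)
  have hlamθ : 1 < (1 + 2 * θ) / lam := by
    rw [lt_div_iff₀ hl]
    linarith
  have hφ3 : 0 < Ph 1 ((1 + 2 * θ) / lam) := Ph_one_pos hlamθ
  refine ⟨1 + 3 * κ / lam, min δ1 (1 / 4), min (ε0 * Ph 1 (1 + θ / 2)) (lam / 8),
    by positivity, by positivity, by positivity, fun C0 D0 => ?_⟩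
  have A1 := eventually_ge_atTop (max 1 ((D0 + 1) / ε0))
  have A2 := eventually_ge_atTop (2 * (C0 + 1) / (θ * ε0))
  have A3 := ev_loglog (4 * (D0 + 2))
  have A4 := ev_loglog (8 * (lam + C0 + 1) / lam)
  filter_upwards [A1, A2, A3, A4, eventually_gt_atTop 1] with s a1 a2 a3 a4 s1
  intro c hc1 hc2
  have hs0 : 0 < s := by linarith
  have hc0 : 0 < c := lt_of_lt_of_le (by positivity) hc1
  have hδs : (1 - δ1) * s ≤ (1 - min δ1 (1 / 4)) * s := by
    apply mul_le_mul_of_nonneg_right _ hs0.le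
    have := min_le_left δ1 (1 / 4)
    linarith
  have hδs2 : (1 - 1 / 4) * s ≤ (1 - min δ1 (1 / 4)) * s := by
    apply mul_le_mul_of_nonneg_right _ hs0.le
    have := min_le_right δ1 (1 / 4)
    linarith
  have hβ1 : min (ε0 * Ph 1 (1 + θ / 2)) (lam / 8) * s ≤ ε0 * Ph 1 (1 + θ / 2) * s :=
    mul_le_mul_of_nonneg_right (min_le_left _ _) hs0.le
  have hβ2 : min (ε0 * Ph 1 (1 + θ / 2)) (lam / 8) * s ≤ lam / 8 * s :=
    mul_le_mul_of_nonneg_right (min_le_right _ _) hs0.le
  rcases le_or_gt (ε0 * s) c with hcase | hcase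
  · -- R1
    have b1 : (D0 : ℝ) + 1 ≤ ε0 * s := by
      have := (le_max_right _ _).trans a1
      rw [div_le_iff₀ hε0p] at this
      linarith
    have b2 : (C0 : ℝ) + 1 ≤ θ / 2 * c := by
      rw [div_le_iff₀ (by positivity)] at a2
      have : θ / 2 * (ε0 * s) ≤ θ / 2 * c := mul_le_mul_of_nonneg_left hcase (by positivity)
      nlinarith
    have b3 : (1 : ℝ) ≤ θ * c / lam := by
      rw [le_div_iff₀ hl]
      have : (0 : ℝ) ≤ C0 := Nat.cast_nonneg _
      nlinarith
    set T : ℕ := ⌈(1 + θ) * c / lam⌉₊ with hT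
    have hT1 : (1 + θ) * c / lam ≤ T := Nat.le_ceil _
    have hT2 : (T : ℝ) < (1 + θ) * c / lam + 1 := Nat.ceil_lt_add_one (by positivity)
    have hT3 : (T : ℝ) ≤ c * ((1 + 2 * θ) / lam) := by
      have e : c * ((1 + 2 * θ) / lam) = (1 + θ) * c / lam + θ * c / lam := by ring
      rw [e]
      linarith
    have hTlam : (1 + θ) * c ≤ lam * T := by
      rw [div_le_iff₀ hl] at hT1
      linarith
    have hTc : c ≤ T := by
      have h1 : lam * (T : ℝ) ≤ 1 * T := mul_le_mul_of_nonneg_right hl1.le (Nat.cast_nonneg _)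
      nlinarith [mul_pos hθ0 hc0]
    have hTD : (D0 : ℝ) + 1 ≤ T := b1.trans (hcase.trans hTc)
    set j : ℕ := ⌊lam * T - C0⌋₊ with hj
    have hjpos : 0 ≤ lam * T - C0 := by
      nlinarith [mul_pos hθ0 hc0]
    have hj1 : (j : ℝ) ≤ lam * T - C0 := Nat.floor_le hjpos
    have hj2 : lam * T - C0 < j + 1 := Nat.lt_floor_add_one _
    have hj3 : c * (1 + θ / 2) ≤ j := by nlinarith
    have hcj : c ≤ c * (1 + θ / 2) := by nlinarith [mul_pos hθ0 hc0]
    refine ⟨T, j, ?_, ?_, ?_, ?_, hcj.trans hj3, ?_, by linarith⟩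
    · have : (D0 : ℝ) ≤ T := by linarith
      exact_mod_cast this
    · have : (1 : ℝ) ≤ T := by
        have : (0 : ℝ) ≤ D0 := Nat.cast_nonneg _
        linarith
      exact_mod_cast this
    · refine hT3.trans ?_
      have e1 : (1 + 2 * θ) / lam ≤ 3 / lam := div_le_div_of_nonneg_right (by linarith) hl.le
      calc c * ((1 + 2 * θ) / lam) ≤ (κ * s) * (3 / lam) :=
            mul_le_mul hc2 e1 (by positivity) (by positivity)
        _ = 3 * κ / lam * s := by ring
        _ ≤ (1 + 3 * κ / lam) * s := by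
            apply mul_le_mul_of_nonneg_right _ hs0.le
            linarith
    · calc Ph c T ≤ Ph c (c * ((1 + 2 * θ) / lam)) := Ph_mono hc0 hTc hT3
        _ = c * Ph 1 ((1 + 2 * θ) / lam) := Ph_scale hc0
        _ ≤ (κ * s) * Ph 1 ((1 + 2 * θ) / lam) := mul_le_mul_of_nonneg_right hc2 hφ3.le
        _ = (1 - δ1) * s := by rw [hδ1]; ring
        _ ≤ _ := hδs
    · calc _ ≤ ε0 * Ph 1 (1 + θ / 2) * s := hβ1
        _ = (ε0 * s) * Ph 1 (1 + θ / 2) := by ring
        _ ≤ c * Ph 1 (1 + θ / 2) := mul_le_mul_of_nonneg_right hcase hφ2.le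
        _ = Ph c (c * (1 + θ / 2)) := (Ph_scale hc0).symm
        _ ≤ Ph c j := Ph_mono hc0 hcj hj3
  · -- R2
    set y : ℝ := Real.log (s / c) with hy
    have hx0 : 0 < s / c := by positivity
    have hxy : Real.exp y = s / c := Real.exp_log hx0
    have hyY : Y0 ≤ y := by
      rw [hy, Real.le_log_iff_exp_le hx0, le_div_iff₀ hc0]
      have h1 : Real.exp Y0 * c ≤ Real.exp Y0 * (ε0 * s) :=
        mul_le_mul_of_nonneg_left hcase.le (Real.exp_pos _).le
      have h2 : Real.exp Y0 * (ε0 * s) = s := by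
        rw [hε0, ← mul_assoc, ← Real.exp_add]
        simp
      linarith
    have hy0 : 0 < y := by linarith
    have hys : y ≤ 2 * Real.log s := by
      have h1 : s / c ≤ s ^ 2 := by
        rw [div_le_iff₀ hc0]
        rw [div_le_iff₀ hs0] at hc1
        nlinarith
      calc y ≤ Real.log (s ^ 2) := Real.log_le_log hx0 h1
        _ = 2 * Real.log s := by rw [Real.log_pow]; norm_num
    have hls : 0 < Real.log s := Real.log_pos s1
    set T : ℕ := ⌊s / (2 * y)⌋₊ with hT
    have hT1 : (T : ℝ) ≤ s / (2 * y) := Nat.floor_le (by positivity)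
    have hT2 : s / (2 * y) < T + 1 := Nat.lt_floor_add_one _
    have hsy : s / (4 * Real.log s) ≤ s / (2 * y) :=
      div_le_div_of_nonneg_left hs0.le (by positivity) (by linarith)
    have b1 : (D0 : ℝ) + 2 ≤ s / (4 * Real.log s) := by
      rw [le_div_iff₀ (by positivity)]
      linarith
    have b2 : 2 * (lam + C0 + 1) / lam ≤ s / (4 * Real.log s) := by
      rw [le_div_iff₀ (by positivity)]
      refine le_trans (le_of_eq ?_) a4
      ring
    have hTD : (D0 : ℝ) + 1 ≤ T := by linarith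
    have hT1' : (1 : ℝ) ≤ T := by
      have : (0 : ℝ) ≤ D0 := Nat.cast_nonneg _
      linarith
    have hTs : (T : ℝ) ≤ s := by
      refine hT1.trans ?_
      rw [div_le_iff₀ (by positivity)]
      nlinarith
    have hlamT : lam * s / (4 * y) ≤ lam * T - C0 - 1 := by
      have h1 : lam * (s / (2 * y) - 1) ≤ lam * T := mul_le_mul_of_nonneg_left (by linarith) hl.le
      have h2 : lam + C0 + 1 ≤ lam * s / (4 * y) := by
        have h3 : 2 * (lam + C0 + 1) / lam ≤ s / (2 * y) := b2.trans hsy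
        rw [div_le_iff₀ hl] at h3
        have h4 : s / (2 * y) * lam = 2 * (lam * s / (4 * y)) := by
          field_simp
          ring
        linarith
      have h5 : lam * (s / (2 * y)) = 2 * (lam * s / (4 * y)) := by
        field_simp
        ring
      nlinarith
    have hpos1 : 0 < lam * s / (4 * y) := by positivity
    set j : ℕ := ⌊lam * T - C0⌋₊ with hj
    have hj1 : (j : ℝ) ≤ lam * T - C0 := Nat.floor_le (by linarith)
    have hj2 : lam * T - C0 < j + 1 := Nat.lt_floor_add_one _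
    have hj3 : lam * s / (4 * y) ≤ j := by linarith
    have hj0 : (0 : ℝ) < j := lt_of_lt_of_le hpos1 hj3
    have hjc : Real.exp (1 + y / 2) ≤ j / c := by
      have h1 : lam * s / (4 * y) / c ≤ j / c := div_le_div_of_nonneg_right hj3 hc0.le
      refine le_trans ?_ h1
      have h2 : lam * s / (4 * y) / c = Real.exp (1 / 2 * y) * (lam * Real.exp (1 / 2 * y) / (4 * y)) := by
        have h3 : Real.exp (1 / 2 * y) * Real.exp (1 / 2 * y) = s / c := by
          rw [← Real.exp_add, ← hxy]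
          congr 1
          ring
        calc lam * s / (4 * y) / c = lam / (4 * y) * (s / c) := by ring
          _ = _ := by rw [← h3]; ring
      rw [h2, show 1 + y / 2 = 1 / 2 * y + 1 by ring, Real.exp_add]
      apply mul_le_mul_of_nonneg_left _ (Real.exp_pos _).le
      rw [le_div_iff₀ (by positivity)]
      have h4 := hY y hyY
      rw [div_mul_eq_mul_div, div_le_iff₀ hl] at h4
      linarith
    have hlog : 1 + y / 2 ≤ Real.log (j / c) := by
      rw [Real.le_log_iff_exp_le (by positivity)]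
      exact hjc
    refine ⟨T, j, ?_, ?_, ?_, ?_, ?_, ?_, by linarith⟩
    · have : (D0 : ℝ) ≤ T := by linarith
      exact_mod_cast this
    · exact_mod_cast hT1'
    · refine hTs.trans ?_
      have : 0 ≤ 3 * κ / lam := by positivity
      nlinarith
    · refine le_trans ?_ hδs2
      unfold Ph
      have h1 : Real.log (T / c) ≤ y := by
        rw [hy]
        exact Real.log_le_log (by positivity) (div_le_div_of_nonneg_right hTs hc0.le)
      have h2 : (T : ℝ) * Real.log (T / c) ≤ s / 2 := by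
        calc (T : ℝ) * Real.log (T / c) ≤ T * y := mul_le_mul_of_nonneg_left h1 (by positivity)
          _ ≤ s / (2 * y) * y := mul_le_mul_of_nonneg_right hT1 hy0.le
          _ = s / 2 := by field_simp
      have h3 : c ≤ 1 / 4 * s := hcase.le.trans (mul_le_mul_of_nonneg_right hε04 hs0.le)
      linarith
    · have h1 : 1 ≤ Real.exp (1 + y / 2) := Real.one_le_exp (by linarith)
      have h2 := h1.trans hjc
      rw [le_div_iff₀ hc0] at h2
      linarith
    · refine hβ2.trans ?_
      unfold Ph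
      have h1 : (j : ℝ) * (1 + y / 2) ≤ j * Real.log (j / c) := mul_le_mul_of_nonneg_left hlog hj0.le
      have h2 : lam / 8 * s ≤ j * (y / 2) := by
        calc lam / 8 * s = lam * s / (4 * y) * (y / 2) := by
              field_simp
              ring
          _ ≤ _ := mul_le_mul_of_nonneg_right hj3 (by positivity)
      linarith

end Pool.Agent.U531.SR
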