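import Pool.Agent.U531.SR.Core
import Pool.Agent.U531.SR.Regime

/-!
# Few neighbours of degree close to the maximum degree
-/

set_option autoImplicit false

namespace Pool.Agent.U531.SR

open Finset Filter Topology

/-- `D` is the maximum degree -/
def IsMax {n : ℕ} (G : SimpleGraph (Fin n)) (D : ℕ) : Prop := (∀ v, dg G v ≤ D) ∧ ∃ v, dg G v = D

theorem exists_isMax {n : ℕ} (hn : 0 < n) (G : SimpleGraph (Fin n)) : ∃ D, IsMax G D := by
  have : Nonempty (Fin n) := ⟨⟨0, hn⟩⟩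
  obtain ⟨v, hv⟩ := Finite.exists_max (fun v => dg G v)
  exact ⟨dg G v, hv, v, rfl⟩

/-- the maximum degree is at least `D₀`, and every vertex has at most `b` neighbours of degree more
than `lam Δ - C₀` -/
def Str {n : ℕ} (lam : ℝ) (b C0 D0 : ℕ) (G : SimpleGraph (Fin n)) : Prop :=
  ∀ D, IsMax G D → D0 ≤ D ∧ ∀ v, {w | G.Adj v w ∧ lam * D < dg G w + C0}.ncard ≤ b

theorem structure_thm (lam κ : ℝ) (hl : 0 < lam) (hl1 : lam < 1) (hκ : 0 < κ)
    (hφ : κ * Ph 1 (1 / lam) < 1) : ∃ b : ℕ, ∀ C0 D0 : ℕ, ∀ ε : ℝ, 0 < ε →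
    ∀ᶠ n : ℕ in atTop, ∀ p : ℝ, 1 / Real.log n ≤ n * p → (n : ℝ) * p ≤ κ * Real.log n →
      1 - ε ≤ PR p (fun χ : Pairs n → Bool => Str lam b C0 D0 (gr χ)) := by
  obtain ⟨C, δ, β, hC, hδ, hβ, hreg⟩ := regime lam κ hl hl1 hκ hφ
  obtain ⟨b, hb⟩ := exists_nat_ge (2 / β)
  have hb2 : 2 ≤ ((b : ℝ) + 1) * β := by
    rw [div_le_iff₀ hβ] at hb
    nlinarith
  refine ⟨b, fun C0 D0 ε hε => ?_⟩
  have h1 := ev_log (hreg (C0 + b + 1) D0)
  have h2 := core κ C δ β hκ hC hδ b hb2 ε hε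
  have h3 : ∀ᶠ n : ℕ in atTop, (1 + 2 * κ) ≤ Real.log n := ev_log (eventually_ge_atTop (1 + 2 * κ))
  filter_upwards [h1, h2, h3, eventually_ge_atTop 1] with n a1 a2 a3 hn1
  intro p hp1 hp2
  have hn : (0 : ℝ) < n := by exact_mod_cast hn1
  have hs : 0 < Real.log n := by linarith
  have hc : 0 < (n : ℝ) * p := lt_of_lt_of_le (by positivity) hp1
  have hp : 0 < p := by
    by_contra h
    push Not at h
    nlinarith
  obtain ⟨T, j, t1, t2, t3, t4, t5, t6, t7⟩ := a1 ((n : ℝ) * p) hp1 hp2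
  have hple : p ≤ 1 := by
    have e1 : (n : ℝ) * p ≤ n * 1 := by
      rw [mul_one]
      have e3 : (Real.log n) ^ 2 / 2 + Real.log n + 1 ≤ Real.exp (Real.log n) := by
        have := Real.quadratic_le_exp_of_nonneg hs.le
        linarith
      rw [Real.exp_log hn] at e3
      have e4 : κ * Real.log n ≤ Real.log n / 2 * Real.log n :=
        mul_le_mul_of_nonneg_right (by linarith) hs.le
      nlinarith
    exact le_of_mul_le_mul_left e1 hn
  refine (a2 p T j hp hp2 t2 t3 t4 t5 t6).trans (PR_mono hp.le hple (fun χ h => ?_))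
  intro D hD
  obtain ⟨⟨v, hv⟩, hfew⟩ := h
  have hTD : T ≤ D := hv.trans (hD.1 v)
  refine ⟨t1.trans hTD, fun v => ?_⟩
  refine le_trans (Set.ncard_le_ncard ?_ (Set.toFinite _)) (hfew v)
  rintro w ⟨hw1, hw2⟩
  refine ⟨hw1, ?_⟩
  have e1 : lam * (T : ℝ) ≤ lam * D := mul_le_mul_of_nonneg_left (by exact_mod_cast hTD) hl.le
  push_cast at t7
  have e2 : ((j + b + 1 : ℕ) : ℝ) ≤ dg (gr χ) w := by
    push_cast
    linarith
  exact_mod_cast e2

end Pool.Agent.U531.SR
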