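import Pool.Agent.U531.SR.Graph

/-!
# Tails of the binomial distribution with small mean
-/

set_option autoImplicit false

namespace Pool.Agent.U531.SR

open Finset

/-- `t log (t / c) - t + c` -/
noncomputable def Ph (c t : ℝ) : ℝ := t * Real.log (t / c) - t + c

theorem upper_term {n j : ℕ} {p : ℝ} (hp : 0 < p) (hn : 0 < n) (hj : (n : ℝ) * p ≤ j) :
    n * p * ((1 + p * ((j : ℝ) / (n * p) - 1)) ^ n / ((j : ℝ) / (n * p)) ^ j) ≤
      n * p * Real.exp (-Ph (n * p) j) := by
  have hn' : (0 : ℝ) < n := by exact_mod_cast hn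
  have hc : 0 < (n : ℝ) * p := by positivity
  have hj0 : (0 : ℝ) < j := lt_of_lt_of_le hc hj
  set z : ℝ := (j : ℝ) / (n * p) with hz
  have hz1 : 1 ≤ z := by
    rw [hz, le_div_iff₀ hc]
    linarith
  have hz0 : 0 < z := by linarith
  apply mul_le_mul_of_nonneg_left _ hc.le
  have h1 : (1 + p * (z - 1)) ^ n ≤ Real.exp (n * (p * (z - 1))) := by
    rw [Real.exp_nat_mul]
    apply pow_le_pow_left₀
    · nlinarith
    · have := Real.add_one_le_exp (p * (z - 1))
      linarith
  have h2 : z ^ j = Real.exp (j * Real.log z) := by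
    rw [Real.exp_nat_mul, Real.exp_log hz0]
  rw [h2, div_le_iff₀ (Real.exp_pos _), ← Real.exp_add]
  refine h1.trans (le_of_eq ?_)
  congr 1
  have h3 : (n : ℝ) * (p * (z - 1)) = j - n * p := by
    have : (n : ℝ) * p * z = j := by
      rw [hz]
      field_simp
    linarith
  rw [h3]
  unfold Ph
  ring

theorem fact_le (T : ℕ) (hT : 1 ≤ T) :
    (T.factorial : ℝ) ≤ T * (T : ℝ) ^ T * Real.exp (1 - T) := by
  induction T, hT using Nat.le_induction with
  | base => simp
  | succ k hk ih =>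
    rw [Nat.factorial_succ]
    push_cast
    have hk0 : (0 : ℝ) < k := by exact_mod_cast hk
    have h1 : (k : ℝ) * (k : ℝ) ^ k * Real.exp 1 ≤ ((k : ℝ) + 1) ^ (k + 1) := by
      have h2 : Real.exp 1 ≤ (((k : ℝ) + 1) / k) ^ (k + 1) := by
        have h3 : (((k : ℝ) + 1) / k) ^ (k + 1) =
            Real.exp ((k + 1 : ℕ) * Real.log (((k : ℝ) + 1) / k)) := by
          rw [Real.exp_nat_mul, Real.exp_log (by positivity)]
        rw [h3]
        apply Real.exp_le_exp.2
        have h4 := Real.one_sub_inv_le_log_of_pos (x := ((k : ℝ) + 1) / k) (by positivity)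
        have h5 : 1 - (((k : ℝ) + 1) / k)⁻¹ = 1 / (k + 1) := by
          field_simp
          ring
        rw [h5] at h4
        push_cast
        calc (1 : ℝ) = (k + 1) * (1 / (k + 1)) := by field_simp
          _ ≤ _ := mul_le_mul_of_nonneg_left h4 (by positivity)
      have h6 : (k : ℝ) * (k : ℝ) ^ k = (k : ℝ) ^ (k + 1) := by ring
      rw [h6]
      calc (k : ℝ) ^ (k + 1) * Real.exp 1 ≤ (k : ℝ) ^ (k + 1) * (((k : ℝ) + 1) / k) ^ (k + 1) :=
            mul_le_mul_of_nonneg_left h2 (by positivity)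
        _ = ((k : ℝ) + 1) ^ (k + 1) := by
            rw [← mul_pow]
            congr 1
            field_simp
    calc ((k : ℝ) + 1) * (k.factorial : ℝ) ≤
          (k + 1) * (k * (k : ℝ) ^ k * Real.exp (1 - k)) :=
          mul_le_mul_of_nonneg_left ih (by positivity)
      _ = (k + 1) * ((k * (k : ℝ) ^ k * Real.exp 1) * Real.exp (-k)) := by
          rw [show (1 : ℝ) - k = 1 + -k by ring, Real.exp_add]
          ring
      _ ≤ (k + 1) * (((k : ℝ) + 1) ^ (k + 1) * Real.exp (-k)) := by
          apply mul_le_mul_of_nonneg_left _ (by positivity)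
          exact mul_le_mul_of_nonneg_right h1 (Real.exp_pos _).le
      _ = _ := by
          rw [show (1 : ℝ) - (k + 1) = -k by ring]
          ring

theorem lower_term {n N T : ℕ} {p s C : ℝ} (hp : 0 < p) (hp2 : p ≤ 1 / 2) (hn : 0 < n)
    (hNn : N ≤ n) (hT : 1 ≤ T) (hTN : T ≤ N) (hs : 4 ≤ s) (hTs : (T : ℝ) ≤ C * s)
    (hN : (n : ℝ) * (1 - 2 / s) ≤ N - T) (hc : 2 * ((n : ℝ) * p) ^ 2 ≤ n) :
    Real.exp (-Ph (n * p) T) * (Real.exp (-(4 * C + 2)) / T) ≤
      (N.choose T : ℝ) * (p ^ T * (1 - p) ^ (N - T)) := by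
  have hn' : (0 : ℝ) < n := by exact_mod_cast hn
  have hT0 : (0 : ℝ) < T := by exact_mod_cast hT
  set c : ℝ := (n : ℝ) * p with hcd
  have hc0 : 0 < c := by positivity
  have hs0 : 0 < s := by linarith
  -- choose
  have h1 : ((N : ℝ) - T) ^ T ≤ (N.choose T : ℝ) * (T.factorial : ℝ) := by
    have e1 : (N + 1 - T) ^ T ≤ N.descFactorial T := Nat.pow_sub_le_descFactorial N T
    have e2 : N.descFactorial T = T.factorial * N.choose T := Nat.descFactorial_eq_factorial_mul_choose N T
    have e3 : (((N - T : ℕ) : ℝ)) ^ T ≤ ((N + 1 - T : ℕ) : ℝ) ^ T := by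
      apply pow_le_pow_left₀ (Nat.cast_nonneg _)
      exact_mod_cast (by omega : N - T ≤ N + 1 - T)
    have e4 : ((N - T : ℕ) : ℝ) = (N : ℝ) - T := by
      rw [Nat.cast_sub hTN]
    rw [e4] at e3
    refine e3.trans ?_
    rw [mul_comm]
    rw [e2] at e1
    exact_mod_cast e1
  -- power of p
  have h2 : c ^ T * Real.exp (-(4 * C)) ≤ (((N : ℝ) - T) * p) ^ T := by
    have e1 : c * (1 - 2 / s) ≤ ((N : ℝ) - T) * p := by
      rw [hcd]
      calc (n : ℝ) * p * (1 - 2 / s) = (n : ℝ) * (1 - 2 / s) * p := by ring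
        _ ≤ _ := mul_le_mul_of_nonneg_right hN hp.le
    have e2 : Real.exp (-(4 / s)) ≤ 1 - 2 / s := by
      have hx : 2 / s ≤ 1 / 2 := by
        rw [div_le_iff₀ hs0]
        linarith
      have hx0 : 0 < 2 / s := by positivity
      have e3 := Real.one_sub_inv_le_log_of_pos (x := 1 - 2 / s) (by linarith)
      have e4 : -(4 / s) ≤ 1 - (1 - 2 / s)⁻¹ := by
        have h5 : 0 < 1 - 2 / s := by linarith
        have h6 : (1 - 2 / s)⁻¹ ≤ 1 + 4 / s := by
          rw [inv_le_iff_one_le_mul₀ h5]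
          have h7 : 4 / s = 2 * (2 / s) := by ring
          rw [h7]
          nlinarith
        linarith
      calc Real.exp (-(4 / s)) ≤ Real.exp (Real.log (1 - 2 / s)) :=
            Real.exp_le_exp.2 (e4.trans e3)
        _ = 1 - 2 / s := Real.exp_log (by linarith)
    have e5 : Real.exp (-(4 * C)) ≤ Real.exp (-(4 / s)) ^ T := by
      rw [← Real.exp_nat_mul]
      apply Real.exp_le_exp.2
      have : (T : ℝ) * (4 / s) ≤ 4 * C := by
        rw [mul_div_assoc', div_le_iff₀ hs0]
        nlinarith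
      linarith
    calc c ^ T * Real.exp (-(4 * C)) ≤ c ^ T * (1 - 2 / s) ^ T := by
          apply mul_le_mul_of_nonneg_left _ (by positivity)
          exact e5.trans (pow_le_pow_left₀ (Real.exp_pos _).le e2 T)
      _ = (c * (1 - 2 / s)) ^ T := (mul_pow _ _ _).symm
      _ ≤ _ := by
          apply pow_le_pow_left₀ _ e1
          have hx : 2 / s ≤ 1 / 2 := by
            rw [div_le_iff₀ hs0]
            linarith
          exact mul_nonneg hc0.le (by linarith)
  -- power of 1 - p
  have h3 : Real.exp (-c - 1) ≤ (1 - p) ^ (N - T) := by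
    have e1 : (1 - p) ^ n ≤ (1 - p) ^ (N - T) :=
      pow_le_pow_of_le_one (by linarith) (by linarith) (by omega)
    refine le_trans ?_ e1
    have e2 : Real.exp (-p - 2 * p ^ 2) ≤ 1 - p := by
      have e3 := Real.one_sub_inv_le_log_of_pos (x := 1 - p) (by linarith)
      have e4 : -p - 2 * p ^ 2 ≤ 1 - (1 - p)⁻¹ := by
        have h5 : 0 < 1 - p := by linarith
        have h6 : (1 - p)⁻¹ ≤ 1 + p + 2 * p ^ 2 := by
          rw [inv_le_iff_one_le_mul₀ h5]
          nlinarith [mul_nonneg (sq_nonneg p) (by linarith : (0 : ℝ) ≤ 1 - 2 * p)]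
        linarith
      calc Real.exp (-p - 2 * p ^ 2) ≤ Real.exp (Real.log (1 - p)) :=
            Real.exp_le_exp.2 (e4.trans e3)
        _ = 1 - p := Real.exp_log (by linarith)
    calc Real.exp (-c - 1) ≤ Real.exp (n * (-p - 2 * p ^ 2)) := by
          apply Real.exp_le_exp.2
          have e5 : (n : ℝ) * (2 * p ^ 2) ≤ 1 := by
            have : (n : ℝ) * ((n : ℝ) * (2 * p ^ 2)) ≤ n * 1 := by
              rw [mul_one]
              refine le_trans (le_of_eq ?_) hc
              rw [hcd]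
              ring
            exact le_of_mul_le_mul_left this hn'
          rw [hcd]
          nlinarith
      _ = Real.exp (-p - 2 * p ^ 2) ^ n := by rw [Real.exp_nat_mul]
      _ ≤ (1 - p) ^ n := pow_le_pow_left₀ (Real.exp_pos _).le e2 n
  -- factorial
  have h4 := fact_le T hT
  have hfac : (0 : ℝ) < T.factorial := by exact_mod_cast Nat.factorial_pos T
  -- assemble
  have h5 : c ^ T * Real.exp (-(4 * C)) / T.factorial * Real.exp (-c - 1) ≤
      (N.choose T : ℝ) * (p ^ T * (1 - p) ^ (N - T)) := by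
    have e1 : c ^ T * Real.exp (-(4 * C)) / T.factorial ≤ (N.choose T : ℝ) * p ^ T := by
      rw [div_le_iff₀ hfac]
      calc c ^ T * Real.exp (-(4 * C)) ≤ (((N : ℝ) - T) * p) ^ T := h2
        _ = ((N : ℝ) - T) ^ T * p ^ T := by rw [mul_pow]
        _ ≤ ((N.choose T : ℝ) * (T.factorial : ℝ)) * p ^ T :=
            mul_le_mul_of_nonneg_right h1 (by positivity)
        _ = _ := by ring
    calc c ^ T * Real.exp (-(4 * C)) / T.factorial * Real.exp (-c - 1) ≤
          ((N.choose T : ℝ) * p ^ T) * (1 - p) ^ (N - T) :=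
          mul_le_mul e1 h3 (Real.exp_pos _).le (by positivity)
      _ = _ := by ring
  refine le_trans ?_ h5
  have h6 : Real.exp (-Ph c T) * (Real.exp (-(4 * C + 2)) / T) =
      c ^ T * Real.exp (-(4 * C)) / (T * (T : ℝ) ^ T * Real.exp (1 - T)) * Real.exp (-c - 1) := by
    have e1 : Real.exp (-Ph c T) = c ^ T / (T : ℝ) ^ T * Real.exp (T - c) := by
      unfold Ph
      rw [show -((T : ℝ) * Real.log (T / c) - T + c) = T * Real.log (c / T) + (T - c) by
        rw [Real.log_div hT0.ne' hc0.ne', Real.log_div hc0.ne' hT0.ne']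
        ring, Real.exp_add, Real.exp_nat_mul, Real.exp_log (by positivity), div_pow]
    rw [e1]
    have e2 : Real.exp (T - c) * Real.exp (-(4 * C + 2)) * Real.exp (1 - T) =
        Real.exp (-(4 * C)) * Real.exp (-c - 1) := by
      rw [← Real.exp_add, ← Real.exp_add, ← Real.exp_add]
      congr 1
      ring
    have hE := Real.exp_pos (1 - (T : ℝ))
    have hTT : (0 : ℝ) < (T : ℝ) ^ T := by positivity
    rw [div_mul_eq_mul_div, div_mul_div_comm, div_mul_eq_mul_div, div_eq_div_iff
      (by positivity) (by positivity)]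
    linear_combination (c ^ T * ((T : ℝ) * (T : ℝ) ^ T)) * e2
  rw [h6]
  apply mul_le_mul_of_nonneg_right _ (Real.exp_pos _).le
  exact div_le_div_of_nonneg_left (by positivity) hfac h4

end Pool.Agent.U531.SR
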