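import Pool.Agent.U531.SR.Graph

/-!
# Cliques in random graphs
-/

set_option autoImplicit false

namespace Pool.Agent.U531.SR

open Finset

theorem PR_emb {n k : ℕ} (f : Fin k → Fin n) (hf : Function.Injective f) {p : ℝ}
    (h0 : 0 ≤ p) (h1 : p ≤ 1) :
    PR p (fun χ : Pairs n → Bool => ∀ i j, i ≠ j → (gr χ).Adj (f i) (f j)) ≤
      p ^ (k.choose 2) := by
  classical
  have hd : ∀ e : Pairs k, ¬ (Sym2.map f e.1).IsDiag := by
    rintro ⟨e, he⟩
    induction e using Sym2.ind with
    | _ u v =>
      intro h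
      rw [Sym2.map_mk, Sym2.mk_isDiag_iff] at h
      exact he (Sym2.mk_isDiag_iff.2 (hf h))
  let j : Pairs k → Pairs n := fun e => ⟨Sym2.map f e.1, hd e⟩
  have hj : Function.Injective j := by
    intro e e' h
    have h' := congrArg Subtype.val h
    exact Subtype.ext (Sym2.map.injective hf h')
  set P : (Pairs k → Bool) → Prop := fun ψ => ∀ i, ψ i = true with hP
  have step : PR p (fun χ : Pairs n → Bool => ∀ i j, i ≠ j → (gr χ).Adj (f i) (f j)) ≤
      PR p P := by
    rw [← PR_comp p j hj P]
    refine PR_mono h0 h1 (fun χ h => ?_)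
    rintro ⟨e, he⟩
    induction e using Sym2.ind with
    | _ u v =>
      have huv : u ≠ v := fun h' => he (Sym2.mk_isDiag_iff.2 h')
      exact (gr_adj χ _ _ (hd ⟨s(u, v), he⟩)).1 (h u v huv)
  refine step.trans ?_
  have h := PR_le_prod h0 h1 P (fun _ b => if b then 1 else 0)
    (fun _ b => by split_ifs <;> norm_num) 1 one_pos (fun ψ hψ => by
      rw [Finset.prod_eq_one]
      intro e _
      simp [hψ e])
  refine h.trans (le_of_eq ?_)
  have hc : Fintype.card (Pairs k) = k.choose 2 := by
    have := Sym2.card_subtype_not_diag (α := Fin k)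
    rw [Fintype.card_fin] at this
    exact this
  simp [hc]

theorem PR_clique {n k : ℕ} {p : ℝ} (h0 : 0 ≤ p) (h1 : p ≤ 1) :
    PR p (fun χ : Pairs n → Bool => ¬ (gr χ).CliqueFree k) ≤ (n : ℝ) ^ k * p ^ (k.choose 2) := by
  classical
  refine (PR_mono h0 h1 (Q := fun χ => ∃ f ∈ (univ : Finset (Fin k → Fin n)),
    Function.Injective f ∧ ∀ i j, i ≠ j → (gr χ).Adj (f i) (f j)) (fun χ h => ?_)).trans ?_
  · rw [SimpleGraph.not_cliqueFree_iff_top_isContained] at h
    obtain ⟨f⟩ := h
    exact ⟨f, mem_univ _, f.injective, fun i j hij => f.toHom.map_adj hij⟩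
  · refine (PR_exists_le h0 h1 _ _).trans ?_
    have hf : ∀ f ∈ (univ : Finset (Fin k → Fin n)),
        PR p (fun χ : Pairs n → Bool => Function.Injective f ∧
          ∀ i j, i ≠ j → (gr χ).Adj (f i) (f j)) ≤ p ^ (k.choose 2) := by
      intro f _
      by_cases h : Function.Injective f
      · exact (PR_mono h0 h1 (fun χ h' => h'.2)).trans (PR_emb f h h0 h1)
      · refine (PR_mono h0 h1 (Q := fun _ => False) (fun χ h' => h h'.1)).trans ?_
        rw [PR_eq]
        simp only [if_false, Finset.sum_const_zero]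
        positivity
    refine (Finset.sum_le_sum hf).trans ?_
    rw [Finset.sum_const, Finset.card_univ, Fintype.card_fun, Fintype.card_fin, Fintype.card_fin,
      nsmul_eq_mul]
    push_cast
    exact le_refl _

end Pool.Agent.U531.SR
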