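import Pool.Agent.U531.SR.Bounds

/-!
# Probability estimate for one choice of the thresholds
-/

set_option autoImplicit false

namespace Pool.Agent.U531.SR

open Finset Filter Topology

/-- some vertex has degree at least `T`, and no vertex has more than `b` neighbours of degree at
least `j + b + 1` -/
def Good {n : ℕ} (T j b : ℕ) (G : SimpleGraph (Fin n)) : Prop :=
  (∃ v, T ≤ dg G v) ∧ ∀ v, {w | G.Adj v w ∧ j + b + 1 ≤ dg G w}.ncard ≤ b

theorem good_le {n T j b : ℕ} {p : ℝ} (h0 : 0 ≤ p) (h1 : p ≤ 1) (A B : ℝ)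
    (hA : PR p (fun χ : Pairs n → Bool => ∀ v, dg (gr χ) v < T) ≤ A)
    (hB : PR p (fun χ : Pairs n → Bool =>
      ∃ v, b < {w | (gr χ).Adj v w ∧ j + b + 1 ≤ dg (gr χ) w}.ncard) ≤ B) :
    1 - (A + B) ≤ PR p (fun χ : Pairs n → Bool => Good T j b (gr χ)) := by
  have e := PR_compl p (fun χ : Pairs n → Bool => ¬ Good T j b (gr χ))
  have e2 : PR p (fun χ : Pairs n → Bool => Good T j b (gr χ)) =
      1 - PR p (fun χ : Pairs n → Bool => ¬ Good T j b (gr χ)) := by
    rw [← e]
    exact PR_congr fun χ => not_not.symm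
  rw [e2]
  have e3 : PR p (fun χ : Pairs n → Bool => ¬ Good T j b (gr χ)) ≤ A + B := by
    refine le_trans (le_trans (PR_mono h0 h1 (fun χ hχ => ?_)) (PR_or_le h0 h1 _ _))
      (add_le_add hA hB)
    unfold Good at hχ
    by_cases h : ∃ v, T ≤ dg (gr χ) v
    · right
      by_contra h'
      push Not at h'
      exact hχ ⟨h, h'⟩
    · left
      push Not at h
      exact h
  linarith

theorem ev_pow (K δ M : ℝ) (hδ : 0 < δ) (k : ℕ) :
    ∀ᶠ s : ℝ in atTop, K * s ^ k + M ≤ Real.exp (δ * s) := by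
  have h1 : Tendsto (fun x : ℝ => x ^ k * Real.exp (-x)) atTop (𝓝 0) :=
    Real.tendsto_pow_mul_exp_neg_atTop_nhds_zero k
  have h0 : Tendsto (fun x : ℝ => x ^ 0 * Real.exp (-x)) atTop (𝓝 0) :=
    Real.tendsto_pow_mul_exp_neg_atTop_nhds_zero 0
  have hd : Tendsto (fun s : ℝ => δ * s) atTop atTop := tendsto_id.const_mul_atTop hδ
  have h2 := (h1.comp hd).const_mul (K / δ ^ k)
  have h3 := (h0.comp hd).const_mul M
  have h4 := h2.add h3
  rw [mul_zero, mul_zero, add_zero] at h4
  have h5 := h4.eventually (gt_mem_nhds (zero_lt_one (α := ℝ)))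
  filter_upwards [h5] with s hs
  simp only [Function.comp, pow_zero, one_mul] at hs
  have hE := Real.exp_pos (δ * s)
  have e1 : K / δ ^ k * ((δ * s) ^ k * Real.exp (-(δ * s))) + M * Real.exp (-(δ * s)) =
      (K * s ^ k + M) * Real.exp (-(δ * s)) := by
    rw [mul_pow]
    field_simp
  rw [e1, Real.exp_neg, ← div_eq_mul_inv, div_lt_one hE] at hs
  exact hs.le

theorem ev_log {P : ℝ → Prop} (h : ∀ᶠ s : ℝ in atTop, P s) :
    ∀ᶠ n : ℕ in atTop, P (Real.log n) :=
  (Real.tendsto_log_atTop.comp tendsto_natCast_atTop_atTop).eventually h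

/-- the estimate, uniformly in the edge probability and the thresholds -/
theorem core (κ C δ β : ℝ) (hκ : 0 < κ) (hC : 0 < C) (hδ : 0 < δ) (b : ℕ)
    (hb : 2 ≤ (b + 1) * β) (ε : ℝ) (hε : 0 < ε) :
    ∀ᶠ n : ℕ in atTop, ∀ (p : ℝ) (T j : ℕ), 0 < p → (n : ℝ) * p ≤ κ * Real.log n →
      1 ≤ T → (T : ℝ) ≤ C * Real.log n → Ph (n * p) T ≤ (1 - δ) * Real.log n →
      (n : ℝ) * p ≤ j → β * Real.log n ≤ Ph (n * p) j →
      1 - ε ≤ PR p (fun χ : Pairs n → Bool => Good T j b (gr χ)) := by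
  have hb0 : (0 : ℝ) < b + 1 := by positivity
  have hβ : 0 < β := by
    by_contra h
    push Not at h
    nlinarith
  have L1 : ∀ᶠ n : ℕ in atTop, (4 : ℝ) ≤ Real.log n :=
    ev_log (eventually_ge_atTop 4)
  -- n = exp (log n) is large compared with powers of log n
  have L2 := ev_log (ev_pow (C + κ * 4 + 2 * κ ^ 2 + 4) 1 4 one_pos 2)
  set M : ℝ := Real.exp (4 * C + 2) * (2 * C) * |Real.log (2 / ε)| with hM
  have L3 := ev_log (ev_pow M δ 0 hδ 2)
  have L4 := ev_log (ev_pow ((κ ^ (b + 1)) * (2 / ε)) 1 0 one_pos (b + 1))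
  filter_upwards [L1, L2, L3, L4, eventually_ge_atTop 1] with n l1 l2 l3 l4 hn1
  intro p T j hp hpk hT hTC hPT hj hPj
  have hn : (0 : ℝ) < n := by exact_mod_cast hn1
  set s : ℝ := Real.log n with hs
  have hs0 : 0 < s := by linarith
  have hexp : Real.exp s = n := Real.exp_log hn
  rw [one_mul, hexp] at l2 l4
  set c : ℝ := (n : ℝ) * p with hc
  have hc0 : 0 < c := by positivity
  have hss : s ≤ s ^ 2 := by nlinarith
  have t1 : 0 ≤ C * s ^ 2 := mul_nonneg hC.le (sq_nonneg s)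
  have t2 : 0 ≤ κ ^ 2 * s ^ 2 := mul_nonneg (sq_nonneg κ) (sq_nonneg s)
  have t3 : κ * s ≤ κ * s ^ 2 := mul_le_mul_of_nonneg_left hss hκ.le
  have t4 : 0 ≤ κ * s ^ 2 := mul_nonneg hκ.le (sq_nonneg s)
  have t5 : 0 ≤ s ^ 2 := sq_nonneg s
  have hnbig : C * s ^ 2 + 4 * (κ * s ^ 2) + 2 * (κ ^ 2 * s ^ 2) + 4 * s ^ 2 + 4 ≤ n := by
    have : (C + κ * 4 + 2 * κ ^ 2 + 4) * s ^ 2 + 4 =
      C * s ^ 2 + 4 * (κ * s ^ 2) + 2 * (κ ^ 2 * s ^ 2) + 4 * s ^ 2 + 4 := by ring
    linarith
  -- p is small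
  have hp2 : p ≤ 1 / 2 := by
    have h1 : (n : ℝ) * p ≤ n * (1 / 2) := by
      linarith
    exact le_of_mul_le_mul_left h1 hn
  have hp1 : p ≤ 1 := by linarith
  -- the first vertices
  set a : ℕ := ⌊(n : ℝ) / s⌋₊ with ha
  have ha1 : (a : ℝ) ≤ n / s := Nat.floor_le (by positivity)
  have ha2 : (n : ℝ) / s < a + 1 := Nat.lt_floor_add_one _
  have hans : (n : ℝ) / s ≤ n := by
    rw [div_le_iff₀ hs0]
    nlinarith
  have han : a ≤ n := by exact_mod_cast ha1.trans hans
  obtain ⟨N, hN⟩ : ∃ N, a + N = n := ⟨n - a, by omega⟩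
  have hNr : (N : ℝ) = n - a := by
    have : ((a + N : ℕ) : ℝ) = n := by rw [hN]
    push_cast at this
    linarith
  have hTn : (T : ℝ) ≤ n / s := by
    rw [le_div_iff₀ hs0]
    have h1 := mul_le_mul_of_nonneg_right hTC hs0.le
    have h2 : C * s * s = C * s ^ 2 := by ring
    linarith
  have h2s : (n : ℝ) * (1 - 2 / s) = n - 2 * (n / s) := by ring
  have hn4 : (n : ℝ) / s ≤ n / 4 := div_le_div_of_nonneg_left hn.le (by norm_num) l1
  have hTN : T ≤ N := by
    have : (T : ℝ) ≤ N := by rw [hNr]; linarith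
    exact_mod_cast this
  have hcn : 2 * c ^ 2 ≤ n := by
    have h1 : c ^ 2 ≤ (κ * s) ^ 2 := pow_le_pow_left₀ hc0.le hpk 2
    rw [mul_pow] at h1
    linarith
  have hlow := lower_term (n := n) (N := N) (T := T) (p := p) (s := s) (C := C) hp hp2 hn1
    (by omega) hT hTN l1 hTC (by rw [h2s, hNr]; linarith) hcn
  have hmax := PR_max hN hp.le hp1 T
  have hT0 : (0 : ℝ) < T := by exact_mod_cast hT
  -- first error
  have hA : Real.exp (-(a * ((N.choose T : ℝ) * (p ^ T * (1 - p) ^ (N - T))))) ≤ ε / 2 := by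
    have h1 : Real.log (2 / ε) ≤ a * ((N.choose T : ℝ) * (p ^ T * (1 - p) ^ (N - T))) := by
      have h2 : (n : ℝ) / (2 * s) ≤ a := by
        have : (2 : ℝ) ≤ n / s := by
          rw [le_div_iff₀ hs0]
          linarith
        have e : (n : ℝ) / (2 * s) = (n / s) / 2 := by ring
        rw [e]
        linarith
      have h3 : Real.exp (-((1 - δ) * s)) * (Real.exp (-(4 * C + 2)) / (C * s)) ≤
          (N.choose T : ℝ) * (p ^ T * (1 - p) ^ (N - T)) := by
        refine le_trans ?_ hlow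
        apply mul_le_mul (Real.exp_le_exp.2 (by linarith)) _ (by positivity) (Real.exp_pos _).le
        exact div_le_div_of_nonneg_left (Real.exp_pos _).le hT0 hTC
      calc Real.log (2 / ε) ≤ |Real.log (2 / ε)| := le_abs_self _
        _ ≤ (n : ℝ) / (2 * s) *
            (Real.exp (-((1 - δ) * s)) * (Real.exp (-(4 * C + 2)) / (C * s))) := by
            have e1 : (n : ℝ) * Real.exp (-((1 - δ) * s)) = Real.exp (δ * s) := by
              rw [← hexp, ← Real.exp_add]
              congr 1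
              ring
            have e2 : (n : ℝ) / (2 * s) *
                (Real.exp (-((1 - δ) * s)) * (Real.exp (-(4 * C + 2)) / (C * s))) =
                Real.exp (δ * s) * (Real.exp (-(4 * C + 2)) / (2 * C * s ^ 2)) := by
              rw [← e1]
              field_simp
            rw [e2, Real.exp_neg (4 * C + 2)]
            have hX := Real.exp_pos (4 * C + 2)
            rw [inv_eq_one_div, div_div, mul_one_div, le_div_iff₀ (by positivity)]
            rw [add_zero] at l3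
            refine le_trans (le_of_eq ?_) l3
            rw [hM]
            ring
        _ ≤ _ := mul_le_mul h2 h3 (by positivity) (Nat.cast_nonneg _)
    calc Real.exp (-(a * ((N.choose T : ℝ) * (p ^ T * (1 - p) ^ (N - T))))) ≤
          Real.exp (-Real.log (2 / ε)) := Real.exp_le_exp.2 (by linarith)
      _ = ε / 2 := by
          rw [Real.exp_neg, Real.exp_log (by positivity), inv_div]
  -- second error
  have hj0 : (0 : ℝ) < j := lt_of_lt_of_le hc0 hj
  have hmany := PR_many (n := n) hp.le hp1 j b ((j : ℝ) / (n * p))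
    (by rw [le_div_iff₀ hc0]; linarith)
  have hup := upper_term (n := n) (j := j) hp hn1 hj
  have hB : (n : ℝ) * (n * p * ((1 + p * ((j : ℝ) / (n * p) - 1)) ^ n /
      ((j : ℝ) / (n * p)) ^ j)) ^ (b + 1) ≤ ε / 2 := by
    have hz1 : 1 ≤ (j : ℝ) / (n * p) := by rw [le_div_iff₀ hc0]; linarith
    have hnn : 0 ≤ n * p * ((1 + p * ((j : ℝ) / (n * p) - 1)) ^ n / ((j : ℝ) / (n * p)) ^ j) := by
      have h0 : 0 ≤ 1 + p * ((j : ℝ) / (n * p) - 1) :=
        add_nonneg zero_le_one (mul_nonneg hp.le (sub_nonneg.2 hz1))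
      exact mul_nonneg hc0.le (div_nonneg (pow_nonneg h0 _) (pow_nonneg (by linarith) _))
    have h1 : n * p * ((1 + p * ((j : ℝ) / (n * p) - 1)) ^ n / ((j : ℝ) / (n * p)) ^ j) ≤
        κ * s * Real.exp (-(β * s)) := by
      refine hup.trans ?_
      apply mul_le_mul hpk (Real.exp_le_exp.2 (by linarith)) (Real.exp_pos _).le (by positivity)
    calc (n : ℝ) * (n * p * ((1 + p * ((j : ℝ) / (n * p) - 1)) ^ n /
          ((j : ℝ) / (n * p)) ^ j)) ^ (b + 1) ≤ n * (κ * s * Real.exp (-(β * s))) ^ (b + 1) :=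
          mul_le_mul_of_nonneg_left (pow_le_pow_left₀ hnn h1 _) hn.le
      _ = (κ * s) ^ (b + 1) * (n * Real.exp (-(β * s)) ^ (b + 1)) := by
          rw [mul_pow (κ * s)]
          ring
      _ ≤ (κ * s) ^ (b + 1) * Real.exp (-s) := by
          apply mul_le_mul_of_nonneg_left _ (by positivity)
          rw [← Real.exp_nat_mul, ← hexp, ← Real.exp_add]
          apply Real.exp_le_exp.2
          push_cast
          nlinarith
      _ ≤ ε / 2 := by
          rw [Real.exp_neg, hexp, ← div_eq_mul_inv, div_le_iff₀ hn]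
          rw [add_zero] at l4
          have e : κ ^ (b + 1) * (2 / ε) * s ^ (b + 1) = (κ * s) ^ (b + 1) * (2 / ε) := by
            rw [mul_pow]
            ring
          rw [e] at l4
          calc (κ * s) ^ (b + 1) = ε / 2 * ((κ * s) ^ (b + 1) * (2 / ε)) := by
                field_simp
            _ ≤ ε / 2 * n := mul_le_mul_of_nonneg_left l4 (by positivity)
  have := good_le hp.le hp1 (ε / 2) (ε / 2) (hmax.trans hA) (hmany.trans hB)
  linarith

end Pool.Agent.U531.SR
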