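import Pool.Agent.U531.SR.Window
import Pool.Agent.U531.SR.Struct

/-!
# Few neighbours of degree close to the maximum degree: random graphs that are not sparse
-/

set_option autoImplicit false

namespace Pool.Agent.U531.SR

open Finset Filter Topology

/-- for some `b`, every vertex has at most `b` neighbours of degree more than
`D - M (b + 2) (1 + log n)`, where `D` is the maximum degree -/
def Win {n : ℕ} (M : ℝ) (G : SimpleGraph (Fin n)) : Prop :=
  ∀ D, IsMax G D → ∃ b : ℕ, M * (b + 2) * (1 + Real.log n) ≤ D ∧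
    ∀ v, {w | G.Adj v w ∧ (D : ℝ) < dg G w + M * (b + 2) * (1 + Real.log n)}.ncard ≤ b

variable {n : ℕ} {p c K μ R : ℝ}

theorem Dat.win (h : Dat n p c K μ (Real.log n) R) (M : ℝ) (hM : 1 ≤ M)
    (hKM : 640 * (10 * M + 5) ≤ K)
    (hB : (3 * M * (1 + Real.log n) + 2) * (640 / c) ≤ Real.exp (Real.log n / 10)) :
    PR p (fun χ : Pairs n → Bool => ¬ Win M (gr χ)) ≤
      (Real.exp (-(Real.log n / 20)) + (32 / K + Real.exp (-Real.log n)) ^ 2) +
        (16 * Real.exp (-(3 / 5 * Real.log n)) + 2 * Real.exp (-(Real.log n / 20))) := by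
  classical
  have h' := h
  obtain ⟨hc, hc1, hp, hp1, hK, hμ, hn, hL, hR, hRR, hKR, hcn⟩ := h'
  set L : ℝ := Real.log n with hLdef
  have hp10 : p ≤ 1 := by linarith
  have hR0 : 0 < R := by linarith
  have hL0 : 0 < L := by linarith
  have hμ0 : 0 < μ := by
    by_contra hcon
    push Not at hcon
    nlinarith
  obtain ⟨t, ht1, ht2, ht3⟩ := h.exists_t
  -- the general step
  have hgen : ∀ (b s' sn : ℕ) (A : ℝ), 1 ≤ s' → sn ≤ s' → (s' : ℝ) ≤ c / 640 * R →
      M * ((b : ℝ) + 2) * (1 + L) ≤ sn →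
      PR p (fun χ : Pairs n → Bool => ∃ v, b < {w | (gr χ).Adj v w ∧ t - sn ≤ dg (gr χ) w}.ncard) ≤
        A →
      PR p (fun χ : Pairs n → Bool => ¬ Win M (gr χ)) ≤
      (Real.exp (-(L / 20)) + (32 / K + Real.exp (-L)) ^ 2) + A := by
    intro b s' sn A hs1 hsn hs hx hA
    obtain ⟨hst, -⟩ := ht2 s' hs
    have hmax := h.max t (by omega) (ht3 (by omega))
    refine le_trans (le_trans (PR_mono hp.le hp10 (fun χ hχ => ?_)) (PR_or_le hp.le hp10 _ _))
      (add_le_add hmax hA)
    by_contra hcon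
    rw [not_or] at hcon
    obtain ⟨hc1', hc2'⟩ := hcon
    push Not at hc1' hc2'
    apply hχ
    intro D hD
    obtain ⟨v₀, hv₀⟩ := hc1'
    have hDt : t - 1 ≤ D := hv₀.trans (hD.1 v₀)
    have hsD : sn ≤ D := by omega
    refine ⟨b, hx.trans (by exact_mod_cast hsD), fun v => ?_⟩
    refine le_trans (Set.ncard_le_ncard ?_ (Set.toFinite _)) (hc2' v)
    rintro w ⟨hw1, hw2⟩
    refine ⟨hw1, ?_⟩
    have e1 : (D : ℝ) < ((dg (gr χ) w + sn : ℕ) : ℝ) := by
      push_cast
      linarith
    have e2 : D < dg (gr χ) w + sn := by exact_mod_cast e1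
    omega
  rcases le_or_gt μ (Real.exp (L / 2)) with hcase | hcase
  · -- bounded number
    set x : ℝ := M * (((3 : ℕ) : ℝ) + 2) * (1 + L) with hx
    have hx0 : 0 ≤ x := by
      rw [hx]
      positivity
    set sn : ℕ := ⌈x⌉₊ with hsn
    have h1 : x ≤ sn := Nat.le_ceil _
    have h2 : (sn : ℝ) < x + 1 := Nat.ceil_lt_add_one hx0
    have hs : ((sn + 4 : ℕ) : ℝ) ≤ c / 640 * R := by
      have e1 : K * L ≤ c * R := by
        have : R * (K * L) ≤ R * (c * R) := by
          calc R * (K * L) = K * R * L := by ring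
            _ ≤ c * μ * L := mul_le_mul_of_nonneg_right hKR hL0.le
            _ = c * (μ * L) := by ring
            _ = R * (c * R) := by
                rw [← hRR]
                ring
        exact le_of_mul_le_mul_left this hR0
      have e2 : 640 * (10 * M + 5) * L ≤ K * L := mul_le_mul_of_nonneg_right hKM hL0.le
      have e3 : ((sn + 4 : ℕ) : ℝ) ≤ (10 * M + 5) * L := by
        push_cast
        have e4 : x = 5 * M + 5 * M * L := by
          rw [hx]
          push_cast
          ring
        have e5 : M ≤ M * L := by nlinarith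
        nlinarith
      nlinarith
    refine (hgen 3 (sn + 4) sn (16 * Real.exp (-(3 / 5 * L))) (by omega) (by omega) hs h1 ?_).trans
      ?_
    · obtain ⟨hst, hBT⟩ := ht2 (sn + 4) hs
      have hmany := PR_many' (n := n) hp.le hp10 (t - (sn + 4)) 3
      refine le_trans (PR_mono hp.le hp10 (fun χ hχ => ?_)) (hmany.trans ?_)
      · obtain ⟨v, hv⟩ := hχ
        refine ⟨v, lt_of_lt_of_le hv (Set.ncard_le_ncard ?_ (Set.toFinite _))⟩
        rintro w ⟨hw1, hw2⟩
        exact ⟨hw1, by omega⟩
      · have hB0 := BT_nonneg hp.le hp10 (n - 2) (t - (sn + 4))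
        have e1 : (n : ℝ) * p * BT (n - 2) (t - (sn + 4)) p ≤
            Real.exp (L / 2) * (2 * Real.exp (-(9 / 10 * L))) := by
          rw [← hμ]
          exact mul_le_mul hcase hBT hB0 (Real.exp_pos _).le
        have e2 : Real.exp (L / 2) * (2 * Real.exp (-(9 / 10 * L))) =
            2 * Real.exp (-(2 / 5 * L)) := by
          rw [mul_left_comm, ← Real.exp_add]
          congr 2
          ring
        rw [e2] at e1
        calc (n : ℝ) * (n * p * BT (n - 2) (t - (sn + 4)) p) ^ (3 + 1)
            ≤ Real.exp L * (2 * Real.exp (-(2 / 5 * L))) ^ (3 + 1) := by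
              rw [hn]
              refine mul_le_mul_of_nonneg_left ?_ (by positivity)
              exact pow_le_pow_left₀ (by positivity) e1 _
          _ = 16 * (Real.exp L * Real.exp (-(2 / 5 * L)) ^ 4) := by ring
          _ = 16 * Real.exp (-(3 / 5 * L)) := by
              rw [← Real.exp_nat_mul, ← Real.exp_add]
              congr 2
              push_cast
              ring
    · have := Real.exp_pos (-(L / 20))
      linarith
  · -- few vertices of large degree
    set E : ℝ := Real.exp (3 / 20 * L) with hE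
    have hE1 : 1 ≤ E := Real.one_le_exp (by positivity)
    set b : ℕ := ⌊E⌋₊ with hb
    have hbE : (b : ℝ) ≤ E := Nat.floor_le (by linarith)
    have hEb : E ≤ (b : ℝ) + 1 := (Nat.lt_floor_add_one E).le
    set x : ℝ := M * ((b : ℝ) + 2) * (1 + L) with hx
    have hx0 : 0 ≤ x := by
      rw [hx]
      positivity
    set sn : ℕ := ⌈x⌉₊ with hsn
    have h1 : x ≤ sn := Nat.le_ceil _
    have h2 : (sn : ℝ) < x + 1 := Nat.ceil_lt_add_one hx0
    have hRE : Real.exp (L / 4) ≤ R := by
      have e1 : Real.exp (L / 4) ^ 2 ≤ R ^ 2 := by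
        rw [hRR, ← Real.exp_nat_mul]
        have : ((2 : ℕ) : ℝ) * (L / 4) = L / 2 := by
          push_cast
          ring
        rw [this]
        nlinarith [Real.exp_pos (L / 2)]
      exact le_of_sq_le_sq e1 hR0.le
    have hs : ((sn + 1 : ℕ) : ℝ) ≤ c / 640 * R := by
      have e1 : x ≤ 3 * M * (1 + L) * E := by
        have e2 : (b : ℝ) + 2 ≤ 3 * E := by linarith
        calc x = M * (1 + L) * ((b : ℝ) + 2) := by
              rw [hx]
              ring
          _ ≤ M * (1 + L) * (3 * E) := mul_le_mul_of_nonneg_left e2 (by positivity)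
          _ = 3 * M * (1 + L) * E := by ring
      have e3 : ((sn + 1 : ℕ) : ℝ) ≤ (3 * M * (1 + L) + 2) * E := by
        push_cast
        nlinarith
      refine e3.trans ?_
      have e4 : (3 * M * (1 + L) + 2) ≤ c / 640 * Real.exp (L / 10) := by
        have e5 := mul_le_mul_of_nonneg_left hB (by positivity : (0 : ℝ) ≤ c / 640)
        refine le_trans (le_of_eq ?_) e5
        field_simp
      calc (3 * M * (1 + L) + 2) * E ≤ c / 640 * Real.exp (L / 10) * E :=
            mul_le_mul_of_nonneg_right e4 (by linarith)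
        _ = c / 640 * Real.exp (L / 4) := by
            rw [mul_assoc, hE, ← Real.exp_add]
            congr 2
            ring
        _ ≤ c / 640 * R := mul_le_mul_of_nonneg_left hRE (by positivity)
    refine (hgen b (sn + 1) sn (2 * Real.exp (-(L / 20))) (by omega) (by omega) hs h1 ?_).trans
      ?_
    · obtain ⟨hst, hBT⟩ := ht2 (sn + 1) hs
      have hn4 : (4 : ℝ) ≤ n := by
        have h0 : (0 : ℝ) ≤ n := Nat.cast_nonneg _
        nlinarith
      have hother : ∀ v : Fin n, ∃ u : Fin n, u ≠ v := by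
        have hn2 : 4 ≤ n := by exact_mod_cast hn4
        intro v
        by_contra hcon
        push Not at hcon
        have h1 := hcon ⟨0, by omega⟩
        have h2 := hcon ⟨1, by omega⟩
        rw [← h2] at h1
        simp at h1
      have hmk := markov hp.le hp10
        (fun (v : Fin n) (χ : Pairs n → Bool) => (t - (sn + 1)) + 1 ≤ dg (gr χ) v) b
      have hsum : ∑ v : Fin n, PR p (fun χ : Pairs n → Bool =>
          (t - (sn + 1)) + 1 ≤ dg (gr χ) v) ≤ 2 * Real.exp (L / 10) := by
        calc ∑ v : Fin n, PR p (fun χ : Pairs n → Bool => (t - (sn + 1)) + 1 ≤ dg (gr χ) v)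
            ≤ ∑ _v : Fin n, 2 * Real.exp (-(9 / 10 * L)) := by
              refine Finset.sum_le_sum fun v _ => ?_
              obtain ⟨u, hu⟩ := hother v
              exact (PR_dg_le u v hu hp.le hp10 _).trans hBT
          _ = 2 * Real.exp (L / 10) := by
              rw [Finset.sum_const, Finset.card_univ, Fintype.card_fin, nsmul_eq_mul, ← hn,
                mul_left_comm, ← Real.exp_add]
              congr 2
              ring
      have hb1 : (0 : ℝ) < (b : ℝ) + 1 := by positivity
      have e1 : PR p (fun χ : Pairs n → Bool =>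
          b < {v | (t - (sn + 1)) + 1 ≤ dg (gr χ) v}.ncard) ≤ 2 * Real.exp (-(L / 20)) := by
        have e2 := hmk.trans hsum
        have e3 : 2 * Real.exp (L / 10) ≤ 2 * Real.exp (-(L / 20)) * ((b : ℝ) + 1) := by
          calc 2 * Real.exp (L / 10) = 2 * Real.exp (-(L / 20)) * E := by
                rw [hE, mul_assoc, ← Real.exp_add]
                congr 2
                ring
            _ ≤ _ := mul_le_mul_of_nonneg_left hEb (by positivity)
        exact le_of_mul_le_mul_right (e2.trans e3) hb1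
      refine le_trans (PR_mono hp.le hp10 (fun χ hχ => ?_)) e1
      obtain ⟨v, hv⟩ := hχ
      refine lt_of_lt_of_le hv (Set.ncard_le_ncard ?_ (Set.toFinite _))
      rintro w ⟨hw1, hw2⟩
      show (t - (sn + 1)) + 1 ≤ dg (gr χ) w
      omega
    · have := Real.exp_pos (-(3 / 5 * L))
      linarith

theorem win_thm (c M ε : ℝ) (hc : 0 < c) (hc1 : c ≤ 1) (hM : 1 ≤ M) (hε : 0 < ε) :
    ∃ κ : ℝ, 0 < κ ∧ ∀ᶠ n : ℕ in atTop, ∀ p : ℝ, κ * Real.log n ≤ n * p → p ≤ 1 - c →
      1 - ε ≤ PR p (fun χ : Pairs n → Bool => Win M (gr χ)) := by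
  obtain ⟨e, he⟩ : ∃ e : ℝ, e = min 1 ε := ⟨_, rfl⟩
  have he0 : 0 < e := by rw [he]; exact lt_min one_pos hε
  have he1 : e ≤ 1 := by rw [he]; exact min_le_left _ _
  have heε : e ≤ ε := by rw [he]; exact min_le_right _ _
  obtain ⟨K, hKdef⟩ : ∃ K : ℝ, K = max 64 (max (640 * (10 * M + 5)) (256 / e)) := ⟨_, rfl⟩
  have hK1 : 64 ≤ K := by rw [hKdef]; exact le_max_left _ _
  have hK2 : 640 * (10 * M + 5) ≤ K := by
    rw [hKdef]
    exact (le_max_left _ _).trans (le_max_right _ _)
  have hK3 : 256 / e ≤ K := by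
    rw [hKdef]
    exact (le_max_right _ _).trans (le_max_right _ _)
  have hK0 : 0 < K := by linarith
  have hκ1 : 1 ≤ K ^ 2 / c ^ 2 := by
    rw [le_div_iff₀ (by positivity)]
    nlinarith
  refine ⟨K ^ 2 / c ^ 2, by positivity, ?_⟩
  -- largeness
  have L1 : ∀ᶠ n : ℕ in atTop, (1 : ℝ) ≤ Real.log n := ev_log (eventually_ge_atTop 1)
  have L2 := ev_log (ev_pow (3 * M * (640 / c)) (1 / 10) ((3 * M + 2) * (640 / c))
    (by norm_num) 1)
  have L3 := ev_log (ev_pow 0 (1 / 20) (64 / e) (by norm_num) 0)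
  have L4 : ∀ᶠ n : ℕ in atTop, (4 / c : ℝ) ≤ n :=
    tendsto_natCast_atTop_atTop.eventually (eventually_ge_atTop (4 / c))
  filter_upwards [L1, L2, L3, L4, eventually_ge_atTop 1] with n l1 l2 l3 l4 hn1
  intro p hp1 hp2
  have hn : (0 : ℝ) < n := by exact_mod_cast hn1
  set L : ℝ := Real.log n with hL
  have hL0 : 0 < L := by linarith
  set μ : ℝ := n * p with hμ
  have hμ1 : L ≤ μ := by
    refine le_trans ?_ hp1
    have := mul_le_mul_of_nonneg_right hκ1 hL0.le
    linarith
  have hμ0 : 0 < μ := by linarith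
  have hp : 0 < p := by
    by_contra hcon
    push Not at hcon
    have : (n : ℝ) * p ≤ 0 := mul_nonpos_of_nonneg_of_nonpos hn.le hcon
    linarith
  have hRR : Real.sqrt (μ * L) ^ 2 = μ * L := Real.sq_sqrt (by positivity)
  have hD : Dat n p c K μ L (Real.sqrt (μ * L)) := by
    refine ⟨hc, hc1, hp, hp2, hK1, hμ, Real.exp_log hn, l1, ?_, hRR, ?_, ?_⟩
    · rw [Real.one_le_sqrt]
      nlinarith
    · refine le_of_sq_le_sq ?_ (by positivity)
      rw [mul_pow, hRR]
      have e1 : K ^ 2 * L ≤ c ^ 2 * μ := by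
        rw [div_mul_eq_mul_div, div_le_iff₀ (by positivity)] at hp1
        linarith
      nlinarith
    · rw [div_le_iff₀ hc] at l4
      linarith
  have hw := hD.win M hM hK2 (by
    have e1 : (3 * M * (1 + L) + 2) * (640 / c) =
      3 * M * (640 / c) * L ^ 1 + (3 * M + 2) * (640 / c) := by ring
    rw [e1]
    refine l2.trans (Real.exp_le_exp.2 ?_)
    linarith)
  have hcomp := PR_compl p (fun χ : Pairs n → Bool => Win M (gr χ))
  -- numbers
  have h20 : Real.exp (-(L / 20)) ≤ e / 64 := by
    rw [Real.exp_neg, inv_le_comm₀ (Real.exp_pos _) (by positivity), inv_div]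
    have e1 : (0 : ℝ) * L ^ 0 + 64 / e = 64 / e := by ring
    rw [e1] at l3
    refine l3.trans (Real.exp_le_exp.2 ?_)
    linarith
  have h35 : Real.exp (-(3 / 5 * L)) ≤ e / 64 :=
    (Real.exp_le_exp.2 (by linarith)).trans h20
  have hL' : Real.exp (-L) ≤ e / 64 := (Real.exp_le_exp.2 (by linarith)).trans h20
  have hK32 : 32 / K ≤ e / 8 := by
    rw [div_le_iff₀ hK0]
    rw [div_le_iff₀ he0] at hK3
    linarith
  have hsq : (32 / K + Real.exp (-L)) ^ 2 ≤ e / 4 := by
    have e1 : 0 ≤ 32 / K + Real.exp (-L) := by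
      have := Real.exp_pos (-L)
      positivity
    have e2 : 32 / K + Real.exp (-L) ≤ e / 4 := by linarith
    calc (32 / K + Real.exp (-L)) ^ 2 ≤ (e / 4) ^ 2 := pow_le_pow_left₀ e1 e2 2
      _ ≤ e / 4 := by nlinarith
  linarith

end Pool.Agent.U531.SR
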