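import Pool.Agent.N577.DT.P

set_option autoImplicit false

/-!
# Deterministic conditions for (p,1)-total labelings

The two theorems are those of the starting result `MP_b8729f_co.FewLargeDegrees`, with the same proofs.
-/

namespace Pool.Agent.U531.SR

open Finset Pool.Agent.H162R2.Sparse Pool.Agent.N577.DT

/-- `(p,1)`-total labelings of span `l` -/
def TL {V : Type} (G : SimpleGraph V) (p l : ℕ) : Prop :=
  ∃ (fV : V → ℕ) (fE : Sym2 V → ℕ),
    (∀ v, fV v ≤ l) ∧ (∀ e ∈ G.edgeSet, fE e ≤ l) ∧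
    (∀ u v, G.Adj u v → fV u ≠ fV v) ∧
    (∀ u v w, G.Adj u v → G.Adj u w → v ≠ w → fE s(u, v) ≠ fE s(u, w)) ∧
    (∀ u v, G.Adj u v → (p : ℤ) ≤ |(fV u : ℤ) - (fE s(u, v) : ℤ)|)

theorem main_part (p : ℕ) (hp : 1 ≤ p) (V : Type) [Fintype V] (G : SimpleGraph V) (D : ℕ)
    (T : Finset V) (a : ℝ) (b : ℕ) (ha : 34 * a * (1 + Real.log D) ≤ D) (hap : 4 * p * a ≤ D)
    (hdeg : ∀ v, (G.neighborSet v).ncard ≤ D)
    (hdens : ∀ X : Finset V,
      ({e : V × V | e.1 ∈ X ∧ e.2 ∈ X ∧ G.Adj e.1 e.2 ∧ (e.1 ∈ T ∨ e.2 ∈ T)}.ncard : ℝ) ≤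
        a * X.card)
    (hfew : ∀ v ∉ T, {w : V | w ∈ T ∧ G.Adj v w}.ncard ≤ b)
    (hgap : ∀ v ∉ T, ({w : V | w ∉ T ∧ G.Adj v w}.ncard : ℝ) ≤
      D - 3300 * (b + 2) * (p + Real.log D)) :
    TL G p (D + 2 * p - 2) := by
  classical
  obtain ⟨f, g, e1, e2, e3, e4, e5, e6⟩ := mainPW p hp G T D a b ha hap
    (fun v => by rw [dg_eq_ncard]; exact hdeg v)
    (by
      intro X
      refine le_trans (le_of_eq ?_) (hdens X)
      rw [← Set.ncard_coe_finset]
      congr 2
      ext e
      simp only [Set.mem_ofPred_eq, Finset.coe_filter, mem_pr,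
        Pool.Agent.H162R2.AG.A_meetX_adj]
      tauto)
    (by
      intro v hv
      refine le_trans (le_of_eq ?_) (hfew v hv)
      rw [← Set.ncard_coe_finset]
      congr 2
      ext w
      simp [mem_nb, and_comm])
    (by
      intro v hv
      refine le_trans (le_of_eq ?_) (hgap v hv)
      rw [← Set.ncard_coe_finset]
      congr 2
      ext w
      simp [mem_nb, and_comm])
  have hsymf : ∀ x y : V, (if G.Adj x y then f x y else 0) = (if G.Adj y x then f y x else 0) := by
    intro x y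
    by_cases h : G.Adj x y
    · rw [if_pos h, if_pos h.symm, e1 x y h]
    · rw [if_neg h, if_neg (fun h' => h h'.symm)]
  refine ⟨g, Sym2.lift ⟨fun x y => if G.Adj x y then f x y else 0, hsymf⟩, ?_, ?_, e5, ?_, ?_⟩
  · intro v
    have := Finset.mem_range.1 (e4 v)
    omega
  · intro e he
    induction e using Sym2.ind with
    | _ x y =>
      have hxy : G.Adj x y := he
      simp only [Sym2.lift_mk]
      rw [if_pos hxy]
      have := Finset.mem_range.1 (e2 x y hxy)
      omega
  · intro u v w huv huw hvw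
    simp only [Sym2.lift_mk]
    rw [if_pos huv, if_pos huw]
    exact e3 u v w huv huw hvw
  · intro u v huv
    simp only [Sym2.lift_mk]
    rw [if_pos huv]
    have := e6 u v huv
    unfold Far at this
    rw [le_abs]
    rcases this with h | h
    · right
      omega
    · left
      omega

theorem degree_part (δ : ℝ) (hδ : 0 < δ) : ∃ c : ℝ, 0 < c ∧ ∃ D₀ : ℕ,
    ∀ (p : ℕ), 1 ≤ p → ∀ (V : Type) [Fintype V] (G : SimpleGraph V) (D : ℕ), D₀ ≤ D →
    (p : ℝ) ≤ c * D → (∀ v, (G.neighborSet v).ncard ≤ D) →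
    (∀ v, ({w : V | G.Adj v w ∧ (1 - δ) * D < (G.neighborSet w).ncard}.ncard : ℝ) ≤
      c * D / (p + Real.log D)) →
    TL G p (D + 2 * p - 2) := by
  classical
  set c : ℝ := min (1 / 136) (δ / 16500) with hc
  have hc0 : 0 < c := lt_min (by norm_num) (by positivity)
  have hc1 : 136 * c ≤ 1 := by
    have := min_le_left (1 / 136 : ℝ) (δ / 16500)
    rw [← hc] at this
    linarith
  have hc2 : 16500 * c ≤ δ := by
    have := min_le_right (1 / 136 : ℝ) (δ / 16500)
    rw [← hc] at this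
    linarith
  have h1 := Real.isLittleO_log_id_atTop
  have h2 := h1.bound (c := c) hc0
  have h3 := tendsto_natCast_atTop_atTop (R := ℝ).eventually h2
  obtain ⟨n₁, hn₁⟩ := Filter.eventually_atTop.1 h3
  refine ⟨c, hc0, max n₁ 3, ?_⟩
  intro p hp V _ G D hD0 hpD hdeg hfew
  have hD1 : n₁ ≤ D := le_trans (le_max_left _ _) hD0
  have hD3 : 3 ≤ D := le_trans (le_max_right _ _) hD0
  have hD3r : (3 : ℝ) ≤ D := by exact_mod_cast hD3
  have hpr : (1 : ℝ) ≤ p := by exact_mod_cast hp
  have hlog1 : 1 ≤ Real.log D := by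
    rw [Real.le_log_iff_exp_le (by linarith)]
    linarith [Real.exp_one_lt_d9]
  have hlogD : Real.log D ≤ c * D := by
    have h4 := hn₁ D hD1
    rw [Real.norm_eq_abs, Real.norm_eq_abs, abs_of_nonneg (by linarith)] at h4
    simp only [id_eq] at h4
    rw [abs_of_nonneg (by linarith)] at h4
    exact h4
  set t : ℝ := c * D / (p + Real.log D) with ht
  have hpl : 0 < (p : ℝ) + Real.log D := by linarith
  have ht0 : 0 ≤ t := by positivity
  have htlog : t * (p + Real.log D) = c * D := by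
    rw [ht]
    field_simp
  set T : Finset V := univ.filter (fun w => (1 - δ) * D < (G.neighborSet w).ncard) with hT
  set b : ℕ := ⌊t⌋₊ with hb
  have hbt : (b : ℝ) ≤ t := Nat.floor_le ht0
  have hNT : ∀ v, (((nb G v).filter (fun w => w ∈ T)).card : ℝ) ≤ t := by
    intro v
    refine le_trans (le_of_eq ?_) (hfew v)
    rw [← Set.ncard_coe_finset]
    congr 2
    ext w
    simp [mem_nb, hT]
  have hcD : 0 < c * D := by positivity
  refine main_part p hp V G D T (2 * t) b ?_ ?_ hdeg ?_ ?_ ?_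
  · have h5 : 34 * (2 * t) * (1 + Real.log D) ≤ 68 * (t * (p + Real.log D)) := by nlinarith
    refine h5.trans ?_
    rw [htlog]
    nlinarith
  · have h5 : 4 * p * (2 * t) ≤ 8 * (t * (p + Real.log D)) := by nlinarith
    refine h5.trans ?_
    rw [htlog]
    nlinarith
  · intro X
    refine le_trans (le_of_eq ?_) (Pool.Agent.H162R2.AG.A_dens G T t hNT X)
    rw [← Set.ncard_coe_finset]
    congr 2
    ext e
    simp only [Set.mem_ofPred_eq, Finset.coe_filter, mem_pr,
      Pool.Agent.H162R2.AG.A_meetX_adj]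
    tauto
  · intro v _
    rw [hb, Nat.le_floor_iff ht0]
    refine le_trans (le_of_eq ?_) (hNT v)
    rw [← Set.ncard_coe_finset]
    congr 2
    ext w
    simp [mem_nb, and_comm]
  · intro v hv
    have h5 : ((G.neighborSet v).ncard : ℝ) ≤ (1 - δ) * D := by
      by_contra hcon
      exact hv (by rw [hT, mem_filter]; exact ⟨mem_univ _, not_le.1 hcon⟩)
    have h6 : ({w : V | w ∉ T ∧ G.Adj v w}.ncard : ℝ) ≤ (G.neighborSet v).ncard := by
      have : {w : V | w ∉ T ∧ G.Adj v w}.ncard ≤ (G.neighborSet v).ncard :=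
        Set.ncard_le_ncard (fun w hw => hw.2) (Set.toFinite _)
      exact_mod_cast this
    refine h6.trans (h5.trans ?_)
    have h7 : 3300 * ((b : ℝ) + 2) * (p + Real.log D) ≤ 16500 * (c * D) := by
      have h9 : (b : ℝ) * (p + Real.log D) ≤ c * D := by
        rw [← htlog]
        exact mul_le_mul_of_nonneg_right hbt hpl.le
      nlinarith
    nlinarith


end Pool.Agent.U531.SR
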