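import Pool.Agent.U531.SR.Dense
import Pool.Agent.U122.DR.Sparse

/-!
# Extending total colourings of distance-3 matchings: random graphs of all densities
-/

set_option autoImplicit false

namespace Pool.Agent.U531.SR

open Finset Filter Topology Pool.Agent.H162R2.Sparse
open Pool.Agent.Results.MP_db9399_co.SparseLargeDegrees
  (IsTotalColoring IsDistThreeMatching Extends plain_part)
open Pool.Agent.U122.DR (PE PE_mono sparse_prob)

theorem pe_win {n : ℕ} (G : SimpleGraph (Fin n)) (hL : 0 ≤ Real.log n) (hW : Win 2502 G) (D : ℕ)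
    (hD : IsMax G D) : PE 1 G := by
  classical
  obtain ⟨b, hb1, hb2⟩ := hW D hD
  intro H hH k hk
  have hDk : D + 1 ≤ k := by
    obtain ⟨v, hv⟩ := hD.2
    have := hk v
    have hv' : (G.neighborSet v).ncard = D := hv
    omega
  set L : ℝ := Real.log n with hLdef
  set s : ℝ := 2502 * (b + 2) * (1 + L) with hs
  have hb0 : (0 : ℝ) ≤ b := Nat.cast_nonneg _
  have hDpos : (0 : ℝ) < D := by
    refine lt_of_lt_of_le ?_ hb1
    rw [hs]
    positivity
  have hDn : (D : ℝ) ≤ n := by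
    obtain ⟨v, hv⟩ := hD.2
    have h1 : Pool.Agent.U531.SR.dg G v ≤ n := by
      unfold Pool.Agent.U531.SR.dg
      refine (Set.ncard_le_card _).trans (le_of_eq ?_)
      rw [Nat.card_eq_fintype_card, Fintype.card_fin]
    rw [hv] at h1
    exact_mod_cast h1
  have hlogD : Real.log D ≤ L := Real.log_le_log hDpos hDn
  have hD1 : (1 : ℝ) ≤ D := by
    have : 0 < D := by exact_mod_cast hDpos
    exact_mod_cast this
  have hlogD0 : 0 ≤ Real.log D := Real.log_nonneg hD1
  have hkey : ((b : ℝ) + 2) * (1 + Real.log D) ≤ (b + 2) * (1 + L) :=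
    mul_le_mul_of_nonneg_left (by linarith) (by positivity)
  have hbL : (b : ℝ) + 2 ≤ (b + 2) * (1 + L) := by nlinarith
  set T : Finset (Fin n) :=
    univ.filter (fun w => (D : ℝ) < Pool.Agent.U531.SR.dg G w + s) with hT
  have hNT : ∀ v, (((nb G v).filter (fun w => w ∈ T)).card : ℝ) ≤ (b : ℝ) := by
    intro v
    have e1 : ((nb G v).filter (fun w => w ∈ T)).card =
        {w | G.Adj v w ∧ (D : ℝ) < Pool.Agent.U531.SR.dg G w + s}.ncard := by
      rw [← Set.ncard_coe_finset]
      congr 1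
      ext w
      simp [mem_nb, hT]
    rw [e1]
    exact_mod_cast hb2 v
  refine plain_part (Fin n) G H D T (2 * b) b hH ⟨hD.1, ?_, ?_, ?_, ?_⟩ k hDk
  · refine le_trans ?_ hb1
    have e2 : (b : ℝ) * (1 + Real.log D) ≤ (b + 2) * (1 + Real.log D) :=
      mul_le_mul_of_nonneg_right (by linarith) (by positivity)
    rw [hs]
    have e3 : 0 ≤ ((b : ℝ) + 2) * (1 + L) := by positivity
    nlinarith
  · intro X
    refine le_trans (le_of_eq ?_) (Pool.Agent.H162R2.AG.A_dens G T b hNT X)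
    rw [← Set.ncard_coe_finset]
    congr 2
    ext e
    simp only [Set.mem_ofPred_eq, Finset.coe_filter, mem_pr,
      Pool.Agent.H162R2.AG.A_meetX_adj]
    tauto
  · intro v _
    have h3 : ((nb G v).filter (fun w => w ∈ T)).card ≤ b := by exact_mod_cast hNT v
    refine le_trans (le_of_eq ?_) h3
    rw [← Set.ncard_coe_finset]
    congr 1
    ext w
    simp [mem_nb, and_comm]
  · intro v hv
    have h5 : (Pool.Agent.U531.SR.dg G v : ℝ) ≤ D - s := by
      by_contra hcon
      exact hv (by rw [hT, mem_filter]; exact ⟨mem_univ _, by linarith [not_le.1 hcon]⟩)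
    have h6 : ({w : Fin n | w ∉ T ∧ G.Adj v w}.ncard : ℝ) ≤ Pool.Agent.U531.SR.dg G v := by
      have : {w : Fin n | w ∉ T ∧ G.Adj v w}.ncard ≤ (G.neighborSet v).ncard :=
        Set.ncard_le_ncard (fun w hw => hw.2) (Set.toFinite _)
      exact_mod_cast this
    refine h6.trans (h5.trans ?_)
    rw [hs]
    nlinarith

theorem ext_prob_all (c ε : ℝ) (hc : 0 < c) (hε : 0 < ε) :
    ∀ᶠ n : ℕ in atTop, ∀ q : ℝ, 0 ≤ q → q ≤ 1 - c →
      1 - ε ≤ PR q (fun χ : Pairs n → Bool =>
        PE 2 (gr χ) ∧ (1 / Real.log n ≤ n * q → PE 1 (gr χ))) := by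
  obtain ⟨κ, hκ, h1⟩ := win_thm (min c 1) 2502 ε (lt_min hc one_pos)
    (min_le_right _ _) (by norm_num) hε
  have h3 := sparse_prob κ hκ ε hε
  have h4 : ∀ᶠ n : ℕ in atTop, (0 : ℝ) ≤ Real.log n := ev_log (eventually_ge_atTop _)
  filter_upwards [h1, h3, h4, eventually_gt_atTop 0] with n a1 a2 a3 hn0
  intro q hq0 hq1
  have hq11 : q ≤ 1 := by linarith
  rcases le_or_gt (n * q) (κ * Real.log n) with h | h
  · exact a2 q hq0 hq11 h
  · refine (a1 q h.le (hq1.trans (by linarith [min_le_left c 1]))).trans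
      (PR_mono hq0 hq11 (fun χ hχ => ?_))
    obtain ⟨D, hD⟩ := exists_isMax hn0 (gr χ)
    have h5 := pe_win (gr χ) a3 hχ D hD
    exact ⟨PE_mono (by norm_num) _ h5, fun _ => h5⟩

end Pool.Agent.U531.SR
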