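import Pool.Agent.U531.SR.Pr

/-!
# The binomial random graph: few neighbours of large degree
-/

set_option autoImplicit false

namespace Pool.Agent.U531.SR

open Finset

/-- pairs of distinct vertices -/
abbrev Pairs (n : ℕ) : Type := {e : Sym2 (Fin n) // ¬ e.IsDiag}

/-- the graph of a configuration -/
def gr {n : ℕ} (χ : Pairs n → Bool) : SimpleGraph (Fin n) where
  Adj u v := ∃ h : ¬ (s(u, v) : Sym2 (Fin n)).IsDiag, χ ⟨s(u, v), h⟩ = true
  symm := ⟨fun u v ⟨h, h'⟩ => by
    have e : (s(v, u) : Sym2 (Fin n)) = s(u, v) := Sym2.eq_swap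
    refine ⟨by rw [e]; exact h, ?_⟩
    rw [← h']
    congr 1
    exact Subtype.ext e⟩
  loopless := ⟨fun u ⟨h, _⟩ => h rfl⟩

/-- degree -/
noncomputable def dg {V : Type} (G : SimpleGraph V) (v : V) : ℕ := (G.neighborSet v).ncard

theorem gr_adj {n : ℕ} (χ : Pairs n → Bool) (u v : Fin n) (h : ¬ (s(u, v) : Sym2 (Fin n)).IsDiag) :
    (gr χ).Adj u v ↔ χ ⟨s(u, v), h⟩ = true :=
  ⟨fun ⟨_, h'⟩ => h', fun h' => ⟨h, h'⟩⟩

section upper
variable {n : ℕ} (v : Fin n) (S : Finset (Fin n))

/-- index set of the edges between `S` and the outside, and between `v` and `S` -/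
abbrev Jx : Type := ({w // w ∈ S} × {u // u ∉ insert v S}) ⊕ {w // w ∈ S}

/-- the edges -/
def jx (hv : v ∉ S) : Jx v S → Pairs n
  | Sum.inl (w, u) => ⟨s(w.1, u.1), by
      rw [Sym2.mk_isDiag_iff]
      rintro h
      exact u.2 (Finset.mem_insert_of_mem (h ▸ w.2))⟩
  | Sum.inr w => ⟨s(v, w.1), by
      rw [Sym2.mk_isDiag_iff]
      rintro h
      exact hv (h ▸ w.2)⟩

theorem jx_inj (hv : v ∉ S) : Function.Injective (jx v S hv) := by
  rintro (⟨w, u⟩ | w) (⟨w', u'⟩ | w') h
  · have h' := congrArg Subtype.val h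
    simp only [jx] at h'
    rw [Sym2.eq_iff] at h'
    rcases h' with ⟨h1, h2⟩ | ⟨h1, h2⟩
    · rw [Sum.inl.injEq, Prod.mk.injEq]
      exact ⟨Subtype.ext h1, Subtype.ext h2⟩
    · exact absurd (Finset.mem_insert_of_mem (h1 ▸ w.2)) u'.2
  · have h' := congrArg Subtype.val h
    simp only [jx] at h'
    rw [Sym2.eq_iff] at h'
    rcases h' with ⟨h1, h2⟩ | ⟨h1, h2⟩
    · exact absurd (h1 ▸ w.2) hv
    · exact absurd (by rw [h2]; exact Finset.mem_insert_self v S) u.2
  · have h' := congrArg Subtype.val h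
    simp only [jx] at h'
    rw [Sym2.eq_iff] at h'
    rcases h' with ⟨h1, h2⟩ | ⟨h1, h2⟩
    · exact absurd (h1 ▸ w'.2) hv
    · exact absurd (h1 ▸ Finset.mem_insert_self v S) u'.2
  · have h' := congrArg Subtype.val h
    simp only [jx] at h'
    rw [Sym2.eq_iff] at h'
    rcases h' with ⟨h1, h2⟩ | ⟨h1, h2⟩
    · rw [Sum.inr.injEq]
      exact Subtype.ext h2
    · exact absurd (h1 ▸ w'.2) hv

/-- all vertices of `S` are neighbours of `v` and have `j` neighbours outside -/
def Ev (G : SimpleGraph (Fin n)) (j : ℕ) : Prop :=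
  ∀ w ∈ S, G.Adj v w ∧ j ≤ {u | u ∉ insert v S ∧ G.Adj w u}.ncard

theorem PR_Ev (hv : v ∉ S) {p : ℝ} (h0 : 0 ≤ p) (h1 : p ≤ 1) (j : ℕ) (z : ℝ) (hz : 1 ≤ z) :
    PR p (fun χ : Pairs n → Bool => Ev v S (gr χ) j) ≤
      (p * ((1 + p * (z - 1)) ^ n / z ^ j)) ^ S.card := by
  classical
  have hz0 : 0 < z := by linarith
  set P : (Jx v S → Bool) → Prop := fun ψ => (∀ w, ψ (Sum.inr w) = true) ∧
    ∀ w, j ≤ (univ.filter (fun u => ψ (Sum.inl (w, u)) = true)).card with hP
  have step1 : PR p (fun χ : Pairs n → Bool => Ev v S (gr χ) j) ≤ PR p P := by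
    rw [← PR_comp p (jx v S hv) (jx_inj v S hv) P]
    refine PR_mono h0 h1 (fun χ h => ?_)
    refine ⟨fun w => ?_, fun w => ?_⟩
    · exact (gr_adj χ v w.1 _).1 (h w.1 w.2).1
    · refine (h w.1 w.2).2.trans (le_of_eq ?_)
      rw [← Set.ncard_coe_finset]
      refine Set.ncard_congr (fun u hu => ⟨u, hu.1⟩) ?_ ?_ ?_
      · intro u hu
        simp only [Finset.coe_filter, Finset.mem_univ, true_and, Set.mem_ofPred_eq]
        exact (gr_adj χ w.1 u _).1 hu.2
      · intro u u' _ _ h
        exact congrArg Subtype.val h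
      · intro u hu
        simp only [Finset.coe_filter, Finset.mem_univ, true_and, Set.mem_ofPred_eq] at hu
        exact ⟨u.1, ⟨u.2, (gr_adj χ w.1 u.1 _).2 hu⟩, rfl⟩
  refine step1.trans ?_
  set g : Jx v S → Bool → ℝ := fun e b => Sum.elim (fun _ => if b then z else 1)
    (fun _ => if b then 1 else 0) e with hg
  have hgn : ∀ e b, 0 ≤ g e b := by
    rintro (e | e) b
    · simp only [hg, Sum.elim_inl]
      split_ifs <;> linarith
    · simp only [hg, Sum.elim_inr]
      split_ifs <;> norm_num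
  have hkey : ∀ ψ, P ψ → (z ^ j) ^ S.card ≤ ∏ e, g e (ψ e) := by
    intro ψ hψ
    rw [Fintype.prod_sum_type]
    have e2 : ∏ x, g (Sum.inr x) (ψ (Sum.inr x)) = 1 := by
      apply Finset.prod_eq_one
      intro x _
      simp only [hg, Sum.elim_inr, hψ.1 x, if_true]
    rw [e2, mul_one, Fintype.prod_prod_type]
    have e3 : ∀ w : {w // w ∈ S}, z ^ j ≤
        ∏ u : {u // u ∉ insert v S}, g (Sum.inl (w, u)) (ψ (Sum.inl (w, u))) := by
      intro w
      simp only [hg, Sum.elim_inl]
      rw [Finset.prod_ite, Finset.prod_const, Finset.prod_const_one, mul_one]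
      exact pow_le_pow_right₀ hz (hψ.2 w)
    calc (z ^ j) ^ S.card = ∏ _w : {w // w ∈ S}, z ^ j := by
          rw [Finset.prod_const, Finset.card_univ, Fintype.card_coe]
      _ ≤ _ := Finset.prod_le_prod (fun _ _ => by positivity) (fun w _ => e3 w)
  have h := PR_le_prod h0 h1 P g hgn ((z ^ j) ^ S.card) (by positivity) hkey
  refine h.trans ?_
  rw [Fintype.prod_sum_type]
  have e1 : ∏ e : {w // w ∈ S} × {u // u ∉ insert v S},
      (p * g (Sum.inl e) true + (1 - p) * g (Sum.inl e) false) ≤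
        ((1 + p * (z - 1)) ^ n) ^ S.card := by
    have : ∀ e : {w // w ∈ S} × {u // u ∉ insert v S},
        p * g (Sum.inl e) true + (1 - p) * g (Sum.inl e) false = 1 + p * (z - 1) := by
      intro e
      simp only [hg, Sum.elim_inl, if_true, Bool.false_eq_true, if_false]
      ring
    rw [Finset.prod_congr rfl fun e _ => this e, Finset.prod_const, Finset.card_univ,
      Fintype.card_prod, Fintype.card_coe, ← pow_mul]
    have hb : 1 ≤ 1 + p * (z - 1) := by nlinarith
    apply pow_le_pow_right₀ hb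
    rw [mul_comm n]
    apply Nat.mul_le_mul_left
    have := Fintype.card_subtype_le (fun u : Fin n => u ∉ insert v S)
    simpa using this
  have e2 : ∏ e : {w // w ∈ S}, (p * g (Sum.inr e) true + (1 - p) * g (Sum.inr e) false) =
      p ^ S.card := by
    have : ∀ e : {w // w ∈ S},
        p * g (Sum.inr e) true + (1 - p) * g (Sum.inr e) false = p := by
      intro e
      simp only [hg, Sum.elim_inr, if_true, Bool.false_eq_true, if_false]
      ring
    rw [Finset.prod_congr rfl fun e _ => this e, Finset.prod_const, Finset.card_univ,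
      Fintype.card_coe]
  rw [e2, mul_pow, div_pow]
  rw [show p ^ S.card * (((1 + p * (z - 1)) ^ n) ^ S.card / (z ^ j) ^ S.card) =
    ((1 + p * (z - 1)) ^ n) ^ S.card * p ^ S.card / (z ^ j) ^ S.card by ring]
  exact div_le_div_of_nonneg_right (mul_le_mul_of_nonneg_right e1 (by positivity))
    (by positivity)

end upper

/-- no vertex has more than `b` neighbours of degree at least `j + b + 1` -/
theorem PR_many {n : ℕ} {p : ℝ} (h0 : 0 ≤ p) (h1 : p ≤ 1) (j b : ℕ) (z : ℝ) (hz : 1 ≤ z) :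
    PR p (fun χ : Pairs n → Bool =>
      ∃ v, b < {w | (gr χ).Adj v w ∧ j + b + 1 ≤ dg (gr χ) w}.ncard) ≤
      n * (n * p * ((1 + p * (z - 1)) ^ n / z ^ j)) ^ (b + 1) := by
  classical
  have hx : 0 ≤ (1 + p * (z - 1)) ^ n / z ^ j := by
    have : 0 ≤ 1 + p * (z - 1) := by nlinarith
    have hz0 : 0 < z := by linarith
    positivity
  -- inclusion
  have hinc : ∀ χ : Pairs n → Bool,
      (∃ v, b < {w | (gr χ).Adj v w ∧ j + b + 1 ≤ dg (gr χ) w}.ncard) →
      ∃ v ∈ (univ : Finset (Fin n)), ∃ S ∈ (univ.erase v).powersetCard (b + 1),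
        Ev v S (gr χ) j := by
    rintro χ ⟨v, hv⟩
    refine ⟨v, Finset.mem_univ _, ?_⟩
    set W : Set (Fin n) := {w | (gr χ).Adj v w ∧ j + b + 1 ≤ dg (gr χ) w} with hW
    have hcard : b + 1 ≤ (Set.toFinite W).toFinset.card := by
      rw [← Set.ncard_eq_toFinset_card W]
      exact hv
    obtain ⟨S, hS, hSc⟩ := Finset.exists_subset_card_eq hcard
    have hSW : ∀ w ∈ S, w ∈ W := fun w hw => (Set.Finite.mem_toFinset _).1 (hS hw)
    have hvS : v ∉ S := fun h => (gr χ).loopless.irrefl v (hSW v h).1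
    refine ⟨S, ?_, ?_⟩
    · rw [Finset.mem_powersetCard]
      refine ⟨fun w hw => Finset.mem_erase.2 ⟨?_, Finset.mem_univ _⟩, hSc⟩
      rintro rfl
      exact hvS hw
    · intro w hw
      refine ⟨(hSW w hw).1, ?_⟩
      have hd := (hSW w hw).2
      have hsplit : dg (gr χ) w ≤ {u | u ∉ insert v S ∧ (gr χ).Adj w u}.ncard +
          ((insert v S).erase w).card := by
        unfold dg
        rw [← Set.ncard_coe_finset ((insert v S).erase w)]
        refine le_trans (Set.ncard_le_ncard ?_ (Set.toFinite _)) (Set.ncard_union_le _ _)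
        intro u hu
        have hu' : (gr χ).Adj w u := hu
        by_cases h : u ∈ insert v S
        · right
          rw [Finset.mem_coe, Finset.mem_erase]
          refine ⟨?_, h⟩
          rintro rfl
          exact (gr χ).loopless.irrefl _ hu'
        · left
          exact ⟨h, hu'⟩
      have hc : ((insert v S).erase w).card = b + 1 := by
        rw [Finset.card_erase_of_mem (Finset.mem_insert_of_mem hw),
          Finset.card_insert_of_notMem hvS, hSc]
        rfl
      omega
  refine (PR_mono h0 h1 hinc).trans ?_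
  refine (PR_exists_le h0 h1 _ _).trans ?_
  have hv : ∀ v : Fin n, PR p (fun χ : Pairs n → Bool =>
      ∃ S ∈ (univ.erase v).powersetCard (b + 1), Ev v S (gr χ) j) ≤
        (n * p * ((1 + p * (z - 1)) ^ n / z ^ j)) ^ (b + 1) := by
    intro v
    refine (PR_exists_le h0 h1 _ _).trans ?_
    have hS : ∀ S ∈ (univ.erase v).powersetCard (b + 1),
        PR p (fun χ : Pairs n → Bool => Ev v S (gr χ) j) ≤
          (p * ((1 + p * (z - 1)) ^ n / z ^ j)) ^ (b + 1) := by
      intro S hS
      rw [Finset.mem_powersetCard] at hS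
      have hvS : v ∉ S := fun h => (Finset.mem_erase.1 (hS.1 h)).1 rfl
      have := PR_Ev v S hvS h0 h1 j z hz
      rwa [hS.2] at this
    refine (Finset.sum_le_sum hS).trans ?_
    rw [Finset.sum_const, nsmul_eq_mul, Finset.card_powersetCard,
      Finset.card_erase_of_mem (Finset.mem_univ _), Finset.card_univ, Fintype.card_fin]
    rw [show (n : ℝ) * p * ((1 + p * (z - 1)) ^ n / z ^ j) =
      n * (p * ((1 + p * (z - 1)) ^ n / z ^ j)) by ring, mul_pow (n : ℝ)]
    refine mul_le_mul_of_nonneg_right ?_ (by positivity)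
    have h1 : ((n - 1).choose (b + 1)) ≤ (n - 1) ^ (b + 1) := Nat.choose_le_pow _ _
    have h2 : (n - 1) ^ (b + 1) ≤ n ^ (b + 1) := Nat.pow_le_pow_left (Nat.sub_le _ _) _
    exact_mod_cast h1.trans h2
  refine (Finset.sum_le_sum fun v _ => hv v).trans ?_
  rw [Finset.sum_const, nsmul_eq_mul, Finset.card_univ, Fintype.card_fin]

/-- the edges between the first `a` and the last `N` vertices -/
def jy {n a N : ℕ} (h : a + N = n) (e : Fin a × Fin N) : Pairs n :=
  ⟨s(⟨e.1.1, by have := e.1.2; omega⟩, ⟨a + e.2.1, by have := e.2.2; omega⟩), by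
    rw [Sym2.mk_isDiag_iff, Fin.mk.injEq]
    have := e.1.2
    omega⟩

theorem jy_inj {n a N : ℕ} (h : a + N = n) : Function.Injective (jy (a := a) (N := N) h) := by
  rintro ⟨i, k⟩ ⟨i', k'⟩ he
  have h' := congrArg Subtype.val he
  simp only [jy] at h'
  rw [Sym2.eq_iff] at h'
  have h1 := i.2
  have h2 := i'.2
  rcases h' with ⟨e1, e2⟩ | ⟨e1, e2⟩
  · rw [Fin.mk.injEq] at e1 e2
    rw [Prod.mk.injEq]
    exact ⟨Fin.ext e1, Fin.ext (by omega)⟩
  · rw [Fin.mk.injEq] at e1 e2
    omega

/-- large degrees exist -/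
theorem PR_max {n a N : ℕ} (h : a + N = n) {p : ℝ} (h0 : 0 ≤ p) (h1 : p ≤ 1) (T : ℕ) :
    PR p (fun χ : Pairs n → Bool => ∀ v, dg (gr χ) v < T) ≤
      Real.exp (-(a * ((N.choose T : ℝ) * (p ^ T * (1 - p) ^ (N - T))))) := by
  classical
  set q : ℝ := (N.choose T : ℝ) * (p ^ T * (1 - p) ^ (N - T)) with hq
  set R : (Fin N → Bool) → Prop := fun x => (univ.filter (fun b => x b = true)).card < T with hR
  have step1 : PR p (fun χ : Pairs n → Bool => ∀ v, dg (gr χ) v < T) ≤
      PR p (fun ψ : Fin a × Fin N → Bool => ∀ i, R (fun k => ψ (i, k))) := by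
    rw [← PR_comp p (jy h) (jy_inj h) (fun ψ : Fin a × Fin N → Bool => ∀ i, R (fun k => ψ (i, k)))]
    refine PR_mono h0 h1 (fun χ hχ i => ?_)
    refine lt_of_le_of_lt ?_ (hχ ⟨i.1, by have := i.2; omega⟩)
    unfold dg
    rw [← Set.ncard_coe_finset]
    refine Set.ncard_le_ncard_of_injOn (fun k => (⟨a + k.1, by have := k.2; omega⟩ : Fin n)) ?_ ?_
      (Set.toFinite _)
    · intro k hk
      simp only [Finset.coe_filter, Finset.mem_univ, true_and, Set.mem_ofPred_eq] at hk
      exact ⟨_, hk⟩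
    · intro k _ k' _ he
      have := congrArg Fin.val he
      exact Fin.ext (by simpa using this)
  refine step1.trans ?_
  rw [PR_blocks, Fintype.card_fin]
  have hRq : PR p R ≤ 1 - q := by
    have e1 : PR p R = 1 - PR p (fun x => ¬ R x) := by
      rw [PR_compl]
      ring
    rw [e1]
    have e2 : q ≤ PR p (fun x => ¬ R x) := by
      have e3 := PR_card (B := Fin N) p T
      rw [Fintype.card_fin] at e3
      rw [hq, ← e3]
      refine PR_mono h0 h1 (fun x hx => ?_)
      simp only [hR]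
      omega
    linarith
  have hq1 : 0 ≤ 1 - q := (PR_nonneg h0 h1 R).trans hRq
  calc PR p R ^ a ≤ (1 - q) ^ a := pow_le_pow_left₀ (PR_nonneg h0 h1 R) hRq a
    _ ≤ (Real.exp (-q)) ^ a := by
        apply pow_le_pow_left₀ hq1
        have := Real.add_one_le_exp (-q)
        linarith
    _ = Real.exp (-(a * q)) := by
        rw [← Real.exp_nat_mul]
        congr 1
        ring

end Pool.Agent.U531.SR
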