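import Pool.Agent.U531.SR.HetPr
import Pool.Agent.U531.SR.Struct
import Pool.Agent.N410.LD.Tame

/-!
# List edge colourings of random graphs with unequal edge probabilities
-/

set_option autoImplicit false

namespace Pool.Agent.U531.SR

open Finset
open Pool.Agent.TH559.LE (Choosable)

/-- the deterministic criterion -/
theorem parts_choosable {n : ℕ} (G : SimpleGraph (Fin n)) (W : Finset (Fin n)) (D b0 b1 k : ℕ)
    (hD : ∀ v, dg G v ≤ D) (h1 : ∀ v, v ∉ W → dg G v ≤ k)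
    (h2 : ∀ v, v ∉ W → {w | G.Adj v w ∧ w ∈ W}.ncard ≤ b0)
    (h3 : ∀ v, v ∈ W → {w | G.Adj v w ∧ w ∈ W}.ncard ≤ b1)
    (hk : 3 * k + 4 * b0 ≤ 2 * D + 1) (h2b : 2 * b0 ≤ D) (hb : b0 + b1 ≤ D)
    (hb1 : 3 * b1 ≤ 2 * D + 1) : Choosable G D := by
  classical
  let F : SimpleGraph (Fin n) :=
    { Adj := fun u v => G.Adj u v ∧ u ∈ (W : Set (Fin n)) ∧ v ∈ (W : Set (Fin n))
      symm := ⟨fun u v h => ⟨h.1.symm, h.2.2, h.2.1⟩⟩
      loopless := ⟨fun u h => G.loopless.irrefl u h.1⟩ }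
  let H : SimpleGraph (Fin n) :=
    { Adj := fun u v => G.Adj u v ∧ u ∉ (W : Set (Fin n)) ∧ v ∉ (W : Set (Fin n)) ∧
        D + 2 ≤ dg G u + dg G v
      symm := ⟨fun u v h => ⟨h.1.symm, h.2.2.1, h.2.1, by rw [add_comm (dg G v)]; exact h.2.2.2⟩⟩
      loopless := ⟨fun u h => G.loopless.irrefl u h.1⟩ }
  have e0 : ∀ v, (G.neighborSet v ∩ (W : Set (Fin n))) = {w | G.Adj v w ∧ w ∈ W} := by
    intro v
    ext w
    simp
  refine Pool.Agent.N410.LD.of_parts G F H (W : Set (Fin n)) D (D - 2 * b0) hD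
    (fun u v => Iff.rfl) (fun u v => Iff.rfl) ?_ ?_ ?_ ?_
  · intro u w _ hu hw
    rw [e0, e0]
    have a1 := h2 u (fun h => hu h)
    have a2 := h3 w hw
    omega
  · intro u v huv
    rw [e0, e0]
    have a1 := h2 u (fun h => huv.2.1 h)
    have a2 := h2 v (fun h => huv.2.2.1 h)
    omega
  · apply Pool.Agent.N410.LD.ch_three F b1 D _ hb1
    intro v
    by_cases hv : v ∈ W
    · refine le_trans (Set.ncard_le_ncard ?_ (Set.toFinite _)) (h3 v hv)
      intro w hw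
      have hw' : F.Adj v w := hw
      exact ⟨hw'.1, hw'.2.2⟩
    · have : F.neighborSet v = ∅ := by
        ext w
        simp only [SimpleGraph.mem_neighborSet, Set.mem_empty_iff_false, iff_false]
        intro h
        have h' : F.Adj v w := h
        exact hv h'.2.1
      show (F.neighborSet v).ncard ≤ b1
      rw [this, Set.ncard_empty]
      exact Nat.zero_le _
  · apply Pool.Agent.N410.LD.ch_three H k (D - 2 * b0)
    · intro v
      by_cases hv : v ∈ W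
      · have : H.neighborSet v = ∅ := by
          ext w
          simp only [SimpleGraph.mem_neighborSet, Set.mem_empty_iff_false, iff_false]
          intro h
          have h' : H.Adj v w := h
          exact h'.2.1 hv
        show (H.neighborSet v).ncard ≤ k
        rw [this, Set.ncard_empty]
        exact Nat.zero_le _
      · refine le_trans (Set.ncard_le_ncard ?_ (Set.toFinite _)) (h1 v hv)
        intro w hw
        have hw' : H.Adj v w := hw
        exact hw'.1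
    · omega

theorem PQ_and_const {E : Type} [Fintype E] [DecidableEq E] {q : E → ℝ}
    (hq : ∀ e, 0 ≤ q e ∧ q e ≤ 1) (R : Prop) (P : (E → Bool) → Prop) (x : ℝ) (hx : 0 ≤ x)
    (h : R → PQ q P ≤ x) : PQ q (fun χ => R ∧ P χ) ≤ x := by
  classical
  by_cases hR : R
  · exact (PQ_mono hq fun χ h' => h'.2).trans (h hR)
  · refine le_trans (le_of_eq ?_) hx
    unfold PQ
    apply Finset.sum_eq_zero
    intro χ _
    rw [if_neg (fun h' => hR h'.1)]

theorem het_lecc (η : ℝ) (hη : 0 < η) (hη1 : η ≤ 1 / 3) (n : ℕ) (hn : 2 ≤ n)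
    (q : Sym2 (Fin n) → ℝ) (hq : ∀ e, 0 ≤ q e ∧ q e ≤ 1) (M β : ℝ) (W : Finset (Fin n))
    (hM : 144 / η ^ 2 * Real.log n ≤ M) (hβ0 : 0 ≤ β) (hβ : β ≤ 1 / 3)
    (hmax : ∃ v, M ≤ ∑ w ∈ univ.erase v, q s(v, w))
    (hout : ∀ v, v ∉ W → ∑ w ∈ univ.erase v, q s(v, w) ≤ ((2 - 4 * β) / 3 - η) * M ∧
      ∑ w ∈ W.erase v, q s(v, w) ≤ β * M)
    (hin : ∀ v, v ∈ W → ∑ w ∈ W.erase v, q s(v, w) ≤ (2 / 3 - η) * M) :
    1 - 1 / n ≤ probQ q (fun G : SimpleGraph (Fin n) => ∀ D, IsMax G D → Choosable G D) := by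
  classical
  have hnr : (2 : ℝ) ≤ n := by exact_mod_cast hn
  have hlog : 0 < Real.log n := Real.log_pos (by linarith)
  have hM0 : 0 < M := lt_of_lt_of_le (by positivity) hM
  set h : ℝ := η / 3 with hh
  have hh0 : 0 < h := by positivity
  have hh1 : h ≤ 1 := by rw [hh]; linarith
  set p1 : ℝ := Real.exp (-(h ^ 2 * M / 4)) with hp1
  have hp1n : p1 ≤ 1 / (n : ℝ) ^ 4 := by
    have e1 : 4 * Real.log n ≤ h ^ 2 * M / 4 := by
      have e2 : 144 / η ^ 2 * Real.log n * η ^ 2 ≤ M * η ^ 2 :=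
        mul_le_mul_of_nonneg_right hM (by positivity)
      have e3 : 144 / η ^ 2 * Real.log n * η ^ 2 = 144 * Real.log n := by
        field_simp
      rw [hh]
      nlinarith
    calc p1 ≤ Real.exp (-(4 * Real.log n)) := Real.exp_le_exp.2 (by linarith)
      _ = 1 / (n : ℝ) ^ 4 := by
          rw [Real.exp_neg, one_div]
          congr 1
          rw [show (4 : ℝ) * Real.log n = ((4 : ℕ) : ℝ) * Real.log n by norm_num,
            ← Real.log_pow, Real.exp_log (by positivity)]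
  have hp10 : 0 ≤ p1 := (Real.exp_pos _).le
  set q' : Pairs n → ℝ := fun e => q e.1 with hq'
  have hqq : ∀ e, 0 ≤ q' e ∧ q' e ≤ 1 := fun e => hq e.1
  obtain ⟨v0, hv0⟩ := hmax
  -- the bad events
  set T1 : ℝ := ((2 - 4 * β) / 3 - η) * M + h * M with hT1
  set T2 : ℝ := β * M + h * M with hT2
  set T3 : ℝ := (2 / 3 - η) * M + h * M with hT3
  set Bad : Fin n → (Pairs n → Bool) → Prop := fun v χ =>
    ((v ∉ W ∧ T1 ≤ cS (Sv v univ) χ) ∨ (v ∉ W ∧ T2 ≤ cS (Sv v W) χ)) ∨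
      (v ∈ W ∧ T3 ≤ cS (Sv v W) χ) with hBad
  have hb1 : ∀ v : Fin n, PQ q' (Bad v) ≤ 3 * p1 := by
    intro v
    have a1 : PQ q' (fun χ => v ∉ W ∧ T1 ≤ cS (Sv v univ) χ) ≤ p1 := by
      refine PQ_and_const hqq _ _ _ hp10 (fun hv => ?_)
      refine upper_q hqq (Sv v univ) M _ h T1 hh0 hh1 ?_ ?_ (le_of_eq rfl)
      · rw [sum_Sv]
        exact (hout v hv).1
      · nlinarith
    have a2 : PQ q' (fun χ => v ∉ W ∧ T2 ≤ cS (Sv v W) χ) ≤ p1 := by
      refine PQ_and_const hqq _ _ _ hp10 (fun hv => ?_)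
      refine upper_q hqq (Sv v W) M _ h T2 hh0 hh1 ?_ ?_ (le_of_eq rfl)
      · rw [sum_Sv]
        exact (hout v hv).2
      · nlinarith
    have a3 : PQ q' (fun χ => v ∈ W ∧ T3 ≤ cS (Sv v W) χ) ≤ p1 := by
      refine PQ_and_const hqq _ _ _ hp10 (fun hv => ?_)
      refine upper_q hqq (Sv v W) M _ h T3 hh0 hh1 ?_ ?_ (le_of_eq rfl)
      · rw [sum_Sv]
        exact hin v hv
      · nlinarith
    have b1 := PQ_or_le hqq (fun χ => (v ∉ W ∧ T1 ≤ cS (Sv v univ) χ) ∨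
      (v ∉ W ∧ T2 ≤ cS (Sv v W) χ)) (fun χ => v ∈ W ∧ T3 ≤ cS (Sv v W) χ)
    have b2 := PQ_or_le hqq (fun χ => v ∉ W ∧ T1 ≤ cS (Sv v univ) χ)
      (fun χ => v ∉ W ∧ T2 ≤ cS (Sv v W) χ)
    have b3 : PQ q' (Bad v) ≤ (p1 + p1) + p1 :=
      b1.trans (add_le_add (b2.trans (add_le_add a1 a2)) a3)
    linarith
  have hb2 : PQ q' (fun χ => ∃ v ∈ (univ : Finset (Fin n)), Bad v χ) ≤ n * (3 * p1) := by
    refine (PQ_exists_le hqq _ _).trans ((Finset.sum_le_sum fun v _ => hb1 v).trans ?_)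
    rw [Finset.sum_const, Finset.card_univ, Fintype.card_fin, nsmul_eq_mul]
  have hb3 : PQ q' (fun χ => (cS (Sv v0 univ) χ : ℝ) ≤ (1 - h) * M) ≤ p1 := by
    refine lower_q hqq (Sv v0 univ) M h _ hh0 hh1 ?_ (le_refl _)
    rw [sum_Sv]
    exact hv0
  have hsum : PQ q' (fun χ => (∃ v ∈ (univ : Finset (Fin n)), Bad v χ) ∨
      (cS (Sv v0 univ) χ : ℝ) ≤ (1 - h) * M) ≤ 1 / n := by
    refine (PQ_or_le hqq _ _).trans ((add_le_add hb2 hb3).trans ?_)
    have e1 : (n : ℝ) * (3 * p1) + p1 = (3 * n + 1) * p1 := by ring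
    rw [e1]
    refine (mul_le_mul_of_nonneg_left hp1n (by positivity)).trans ?_
    rw [mul_one_div, div_le_div_iff₀ (by positivity) (by linarith)]
    have e2 : (3 * (n : ℝ) + 1) ≤ n ^ 3 := by
      have : (n : ℝ) ^ 3 = n * n * n := by ring
      nlinarith [mul_nonneg (sub_nonneg.2 hnr) (sub_nonneg.2 hnr)]
    nlinarith
  rw [probQ_eq, PQ_compl]
  have hfin : PQ q' (fun χ => ¬ ∀ D, IsMax (gr χ) D → Choosable (gr χ) D) ≤ 1 / n := by
    refine (PQ_mono hqq fun χ hχ => ?_).trans hsum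
    by_contra hcon
    rw [not_or] at hcon
    obtain ⟨c1, c2⟩ := hcon
    push Not at c1 c2
    apply hχ
    intro D hD
    have hdeg : ∀ v, cS (Sv v univ) χ = dg (gr χ) v := by
      intro v
      rw [cS_Sv]
      unfold dg
      congr 1
      ext w
      simp
    have hDM : (1 - h) * M < D := by
      rw [hdeg] at c2
      have : (dg (gr χ) v0 : ℝ) ≤ D := by exact_mod_cast hD.1 v0
      linarith
    have hgood : ∀ v, (v ∉ W → (dg (gr χ) v : ℝ) < T1 ∧
        ({w | (gr χ).Adj v w ∧ w ∈ W}.ncard : ℝ) < T2) ∧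
        (v ∈ W → ({w | (gr χ).Adj v w ∧ w ∈ W}.ncard : ℝ) < T3) := by
      intro v
      have hv := c1 v (Finset.mem_univ v)
      rw [hBad] at hv
      simp only [not_or, not_and, not_le] at hv
      obtain ⟨⟨d1, d2⟩, d3⟩ := hv
      rw [hdeg] at d1
      rw [cS_Sv] at d2 d3
      exact ⟨fun h' => ⟨d1 h', d2 h'⟩, d3⟩
    have t1 : 0 ≤ T1 := by
      rw [hT1, hh]
      nlinarith
    have t2 : 0 ≤ T2 := by
      rw [hT2]
      positivity
    have t3 : 0 ≤ T3 := by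
      rw [hT3, hh]
      nlinarith
    have f1 := Nat.floor_le t1
    have f2 := Nat.floor_le t2
    have f3 := Nat.floor_le t3
    refine parts_choosable (gr χ) W D ⌊T2⌋₊ ⌊T3⌋₊ ⌊T1⌋₊ hD.1
      (fun v hv => Nat.le_floor ((hgood v).1 hv).1.le)
      (fun v hv => Nat.le_floor ((hgood v).1 hv).2.le)
      (fun v hv => Nat.le_floor ((hgood v).2 hv).le) ?_ ?_ ?_ ?_
    · have : (3 * ⌊T1⌋₊ + 4 * ⌊T2⌋₊ : ℝ) ≤ 2 * D + 1 := by
        rw [hT1, hT2, hh] at *
        nlinarith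
      exact_mod_cast this
    · have : (2 * ⌊T2⌋₊ : ℝ) ≤ D := by
        rw [hT2, hh] at *
        nlinarith
      exact_mod_cast this
    · have : (⌊T2⌋₊ + ⌊T3⌋₊ : ℝ) ≤ D := by
        rw [hT2, hT3, hh] at *
        nlinarith
      exact_mod_cast this
    · have : (3 * ⌊T3⌋₊ : ℝ) ≤ 2 * D + 1 := by
        rw [hT3, hh] at *
        nlinarith
      exact_mod_cast this
  linarith

end Pool.Agent.U531.SR
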