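import Pool.Agent.U531.SR.HetCL

/-!
# List edge colourings of random graphs with unequal edge probabilities: second version
-/

set_option autoImplicit false

namespace Pool.Agent.U531.SR.H2

open Finset
open Pool.Agent.U531.SR
open Pool.Agent.TH559.LE (Choosable)

/-- the constants -/
theorem num_fact (K η M L b : ℝ) (hK : 1 ≤ K) (hη : 0 < η) (hη1 : η ≤ 1 / 2) (hL : 1 / 2 ≤ L)
    (hM : 256 * (K + 1) ^ 2 / η ^ 2 * L ≤ M) (hb : b ≤ M) :
    3 + K * (Real.sqrt (b * L) + L) ≤ η / 2 * M ∧ 12 ≤ η * M := by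
  have hL0 : 0 < L := by linarith
  have hM' : 256 * (K + 1) ^ 2 * L ≤ M * η ^ 2 := by
    have := mul_le_mul_of_nonneg_right hM (by positivity : 0 ≤ η ^ 2)
    have e : 256 * (K + 1) ^ 2 / η ^ 2 * L * η ^ 2 = 256 * (K + 1) ^ 2 * L := by
      field_simp
    linarith
  have hM0 : 0 < M := lt_of_lt_of_le (by positivity) hM
  have s1 : Real.sqrt (b * L) ≤ M * η / (16 * (K + 1)) := by
    apply Real.sqrt_le_iff.2
    refine ⟨by positivity, ?_⟩
    rw [div_pow, le_div_iff₀ (by positivity)]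
    have e1 : b * L * (16 * (K + 1)) ^ 2 = b * (256 * (K + 1) ^ 2 * L) := by ring
    rw [e1]
    calc b * (256 * (K + 1) ^ 2 * L) ≤ M * (M * η ^ 2) :=
          mul_le_mul hb hM' (by positivity) hM0.le
      _ = (M * η) ^ 2 := by ring
  have s2 : K * Real.sqrt (b * L) ≤ M * η / 16 := by
    calc K * Real.sqrt (b * L) ≤ (K + 1) * (M * η / (16 * (K + 1))) :=
          mul_le_mul (by linarith) s1 (Real.sqrt_nonneg _) (by linarith)
      _ = M * η / 16 := by
          field_simp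
  have hMη : M * η ^ 2 ≤ M * η * (1 / 2) := by
    have : M * η ^ 2 = M * η * η := by ring
    rw [this]
    exact mul_le_mul_of_nonneg_left hη1 (by positivity)
  have s3 : 256 * (K + 1) * ((K + 1) * L) ≤ M * η * (1 / 2) := by
    have : 256 * (K + 1) ^ 2 * L = 256 * (K + 1) * ((K + 1) * L) := by ring
    linarith
  have s4 : 512 * ((K + 1) * L) ≤ 256 * (K + 1) * ((K + 1) * L) :=
    mul_le_mul_of_nonneg_right (by linarith) (by positivity)
  have s5 : K * L ≤ M * η / 1024 := by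
    have : K * L ≤ (K + 1) * L := mul_le_mul_of_nonneg_right (by linarith) hL0.le
    linarith
  have s6 : (1 : ℝ) ≤ (K + 1) * L := by nlinarith
  have s7 : (3 : ℝ) ≤ M * η * (3 / 1024) := by linarith
  have hMη0 : 0 < M * η := by positivity
  refine ⟨?_, by linarith⟩
  rw [mul_add]
  linarith

/-- the deterministic criterion -/
theorem crit : ∃ K : ℝ, 1 ≤ K ∧ ∀ (n : ℕ) (G : SimpleGraph (Fin n)) (W : Finset (Fin n))
    (D a b0 b1 : ℕ), (∀ v, dg G v ≤ D) →
    (∀ v, v ∉ W → {w | G.Adj v w ∧ w ∈ Wᶜ}.ncard ≤ a) →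
    (∀ v, v ∉ W → {w | G.Adj v w ∧ w ∈ W}.ncard ≤ b0) →
    (∀ v, v ∈ W → {w | G.Adj v w ∧ w ∈ W}.ncard ≤ b1) →
    (a : ℝ) + 2 * b0 + K * (Real.sqrt (a * Real.log n) + Real.log n) ≤ D → b0 + b1 ≤ D →
    (b1 : ℝ) + K * (Real.sqrt (b1 * Real.log n) + Real.log n) ≤ D → Choosable G D := by
  classical
  obtain ⟨K, hK, hf⟩ := Pool.Agent.N410.LD.ch_few
  obtain ⟨n₀, hf1⟩ := hf 1 one_pos
  refine ⟨K, hK, ?_⟩
  intro n G W D a b0 b1 hD h1 h2 h3 e1 e2 e3
  have hlog : 0 ≤ Real.log (n : ℝ) := Real.log_natCast_nonneg n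
  have hKpos : 0 ≤ K * (Real.sqrt (a * Real.log n) + Real.log n) := by positivity
  have h2b : 2 * b0 ≤ D := by
    have : (2 * b0 : ℝ) ≤ D := by
      have : (0 : ℝ) ≤ a := Nat.cast_nonneg _
      linarith
    exact_mod_cast this
  let F : SimpleGraph (Fin n) :=
    { Adj := fun u v => G.Adj u v ∧ u ∈ (W : Set (Fin n)) ∧ v ∈ (W : Set (Fin n))
      symm := ⟨fun u v h => ⟨h.1.symm, h.2.2, h.2.1⟩⟩
      loopless := ⟨fun u h => G.loopless.irrefl u h.1⟩ }
  let H : SimpleGraph (Fin n) :=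
    { Adj := fun u v => G.Adj u v ∧ u ∉ (W : Set (Fin n)) ∧ v ∉ (W : Set (Fin n)) ∧
        D + 2 ≤ dg G u + dg G v
      symm := ⟨fun u v h => ⟨h.1.symm, h.2.2.1, h.2.1, by rw [add_comm (dg G v)]; exact h.2.2.2⟩⟩
      loopless := ⟨fun u h => G.loopless.irrefl u h.1⟩ }
  have e0 : ∀ v, (G.neighborSet v ∩ (W : Set (Fin n))) = {w | G.Adj v w ∧ w ∈ W} := by
    intro v
    ext w
    simp
  refine Pool.Agent.N410.LD.of_parts G F H (W : Set (Fin n)) D (D - 2 * b0) hD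
    (fun u v => Iff.rfl) (fun u v => Iff.rfl) ?_ ?_ ?_ ?_
  · intro u w _ hu hw
    rw [e0, e0]
    have a1 := h2 u (fun h => hu h)
    have a2 := h3 w hw
    omega
  · intro u v huv
    rw [e0, e0]
    have a1 := h2 u (fun h => huv.2.1 h)
    have a2 := h2 v (fun h => huv.2.2.1 h)
    omega
  · refine hf1 (Fin n) F Set.univ n b1 D ?_ (fun _ _ _ => Set.mem_univ _) ?_ (Or.inl e3)
    · rw [Set.ncard_univ, Nat.card_eq_fintype_card, Fintype.card_fin]
    · intro v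
      by_cases hv : v ∈ W
      · refine le_trans (Set.ncard_le_ncard ?_ (Set.toFinite _)) (h3 v hv)
        intro w hw
        have hw' : F.Adj v w := hw
        exact ⟨hw'.1, hw'.2.2⟩
      · have : F.neighborSet v = ∅ := by
          ext w
          simp only [SimpleGraph.mem_neighborSet, Set.mem_empty_iff_false, iff_false]
          intro h
          have h' : F.Adj v w := h
          exact hv h'.2.1
        show (F.neighborSet v).ncard ≤ b1
        rw [this, Set.ncard_empty]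
        exact Nat.zero_le _
  · refine hf1 (Fin n) H Set.univ n a (D - 2 * b0) ?_ (fun _ _ _ => Set.mem_univ _) ?_
      (Or.inl ?_)
    · rw [Set.ncard_univ, Nat.card_eq_fintype_card, Fintype.card_fin]
    · intro v
      by_cases hv : v ∈ W
      · have : H.neighborSet v = ∅ := by
          ext w
          simp only [SimpleGraph.mem_neighborSet, Set.mem_empty_iff_false, iff_false]
          intro h
          have h' : H.Adj v w := h
          exact h'.2.1 hv
        show (H.neighborSet v).ncard ≤ a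
        rw [this, Set.ncard_empty]
        exact Nat.zero_le _
      · refine le_trans (Set.ncard_le_ncard ?_ (Set.toFinite _)) (h1 v hv)
        intro w hw
        have hw' : H.Adj v w := hw
        exact ⟨hw'.1, Finset.mem_compl.2 (fun h => hw'.2.2.1 h)⟩
    · rw [Nat.cast_sub h2b]
      push_cast
      linarith

theorem het2 : ∃ C : ℝ, 0 < C ∧ ∀ η : ℝ, 0 < η → η ≤ 1 / 2 → ∀ n : ℕ, 2 ≤ n →
    ∀ q : Sym2 (Fin n) → ℝ, (∀ e, 0 ≤ q e ∧ q e ≤ 1) → ∀ (M β : ℝ) (W : Finset (Fin n)),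
    C / η ^ 2 * Real.log n ≤ M → 0 ≤ β → 2 * β ≤ 1 - η →
    (∃ v, M ≤ ∑ w ∈ univ.erase v, q s(v, w)) →
    (∀ v, v ∉ W → ∑ w ∈ Wᶜ.erase v, q s(v, w) ≤ (1 - 2 * β - η) * M ∧
      ∑ w ∈ W.erase v, q s(v, w) ≤ β * M) →
    (∀ v, v ∈ W → ∑ w ∈ W.erase v, q s(v, w) ≤ (1 - β - η) * M) →
    1 - 1 / n ≤ probQ q (fun G : SimpleGraph (Fin n) => ∀ D, IsMax G D → Choosable G D) := by
  classical
  obtain ⟨K, hK, hcrit⟩ := crit
  refine ⟨1600 * (K + 1) ^ 2, by positivity, ?_⟩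
  intro η hη hη1 n hn q hq M β W hM hβ0 hβ hmax hout hin
  have hnr : (2 : ℝ) ≤ n := by exact_mod_cast hn
  have hlog2 : (1 / 2 : ℝ) ≤ Real.log n := by
    have h1 : Real.log 2 ≤ Real.log n := Real.log_le_log (by norm_num) hnr
    have := Real.log_two_gt_d9
    linarith
  have hlog : 0 < Real.log n := by linarith
  have hM0 : 0 < M := lt_of_lt_of_le (by positivity) hM
  set h : ℝ := η / 5 with hh
  have hh0 : 0 < h := by positivity
  have hh1 : h ≤ 1 := by rw [hh]; linarith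
  set p1 : ℝ := Real.exp (-(h ^ 2 * M / 4)) with hp1
  have hp1n : p1 ≤ 1 / (n : ℝ) ^ 4 := by
    have e1 : 4 * Real.log n ≤ h ^ 2 * M / 4 := by
      have e2 : 1600 * (K + 1) ^ 2 / η ^ 2 * Real.log n * η ^ 2 ≤ M * η ^ 2 :=
        mul_le_mul_of_nonneg_right hM (by positivity)
      have e3 : 1600 * (K + 1) ^ 2 / η ^ 2 * Real.log n * η ^ 2 =
          1600 * (K + 1) ^ 2 * Real.log n := by
        field_simp
      have e4 : 1600 * 1 * Real.log n ≤ 1600 * (K + 1) ^ 2 * Real.log n := by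
        refine mul_le_mul_of_nonneg_right ?_ hlog.le
        nlinarith
      rw [hh]
      nlinarith
    calc p1 ≤ Real.exp (-(4 * Real.log n)) := Real.exp_le_exp.2 (by linarith)
      _ = 1 / (n : ℝ) ^ 4 := by
          rw [Real.exp_neg, one_div]
          congr 1
          rw [show (4 : ℝ) * Real.log n = ((4 : ℕ) : ℝ) * Real.log n by norm_num,
            ← Real.log_pow, Real.exp_log (by positivity)]
  have hp10 : 0 ≤ p1 := (Real.exp_pos _).le
  set q' : Pairs n → ℝ := fun e => q e.1 with hq'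
  have hqq : ∀ e, 0 ≤ q' e ∧ q' e ≤ 1 := fun e => hq e.1
  obtain ⟨v0, hv0⟩ := hmax
  set T1 : ℝ := (1 - 2 * β - η) * M + h * M with hT1
  set T2 : ℝ := β * M + h * M with hT2
  set T3 : ℝ := (1 - β - η) * M + h * M with hT3
  set Bad : Fin n → (Pairs n → Bool) → Prop := fun v χ =>
    ((v ∉ W ∧ T1 ≤ cS (Sv v Wᶜ) χ) ∨ (v ∉ W ∧ T2 ≤ cS (Sv v W) χ)) ∨
      (v ∈ W ∧ T3 ≤ cS (Sv v W) χ) with hBad
  have hb1 : ∀ v : Fin n, PQ q' (Bad v) ≤ 3 * p1 := by
    intro v
    have a1 : PQ q' (fun χ => v ∉ W ∧ T1 ≤ cS (Sv v Wᶜ) χ) ≤ p1 := by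
      refine PQ_and_const hqq _ _ _ hp10 (fun hv => ?_)
      refine upper_q hqq (Sv v Wᶜ) M _ h T1 hh0 hh1 ?_ ?_ (le_of_eq rfl)
      · rw [sum_Sv]
        exact (hout v hv).1
      · nlinarith
    have a2 : PQ q' (fun χ => v ∉ W ∧ T2 ≤ cS (Sv v W) χ) ≤ p1 := by
      refine PQ_and_const hqq _ _ _ hp10 (fun hv => ?_)
      refine upper_q hqq (Sv v W) M _ h T2 hh0 hh1 ?_ ?_ (le_of_eq rfl)
      · rw [sum_Sv]
        exact (hout v hv).2
      · nlinarith
    have a3 : PQ q' (fun χ => v ∈ W ∧ T3 ≤ cS (Sv v W) χ) ≤ p1 := by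
      refine PQ_and_const hqq _ _ _ hp10 (fun hv => ?_)
      refine upper_q hqq (Sv v W) M _ h T3 hh0 hh1 ?_ ?_ (le_of_eq rfl)
      · rw [sum_Sv]
        exact hin v hv
      · nlinarith
    have b1 := PQ_or_le hqq (fun χ => (v ∉ W ∧ T1 ≤ cS (Sv v Wᶜ) χ) ∨
      (v ∉ W ∧ T2 ≤ cS (Sv v W) χ)) (fun χ => v ∈ W ∧ T3 ≤ cS (Sv v W) χ)
    have b2 := PQ_or_le hqq (fun χ => v ∉ W ∧ T1 ≤ cS (Sv v Wᶜ) χ)
      (fun χ => v ∉ W ∧ T2 ≤ cS (Sv v W) χ)
    have b3 : PQ q' (Bad v) ≤ (p1 + p1) + p1 :=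
      b1.trans (add_le_add (b2.trans (add_le_add a1 a2)) a3)
    linarith
  have hb2 : PQ q' (fun χ => ∃ v ∈ (univ : Finset (Fin n)), Bad v χ) ≤ n * (3 * p1) := by
    refine (PQ_exists_le hqq _ _).trans ((Finset.sum_le_sum fun v _ => hb1 v).trans ?_)
    rw [Finset.sum_const, Finset.card_univ, Fintype.card_fin, nsmul_eq_mul]
  have hb3 : PQ q' (fun χ => (cS (Sv v0 univ) χ : ℝ) ≤ (1 - h) * M) ≤ p1 := by
    refine lower_q hqq (Sv v0 univ) M h _ hh0 hh1 ?_ (le_refl _)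
    rw [sum_Sv]
    exact hv0
  have hsum : PQ q' (fun χ => (∃ v ∈ (univ : Finset (Fin n)), Bad v χ) ∨
      (cS (Sv v0 univ) χ : ℝ) ≤ (1 - h) * M) ≤ 1 / n := by
    refine (PQ_or_le hqq _ _).trans ((add_le_add hb2 hb3).trans ?_)
    have e1 : (n : ℝ) * (3 * p1) + p1 = (3 * n + 1) * p1 := by ring
    rw [e1]
    refine (mul_le_mul_of_nonneg_left hp1n (by positivity)).trans ?_
    rw [mul_one_div, div_le_div_iff₀ (by positivity) (by linarith)]
    have e2 : (3 * (n : ℝ) + 1) ≤ n ^ 3 := by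
      have : (n : ℝ) ^ 3 = n * n * n := by ring
      nlinarith [mul_nonneg (sub_nonneg.2 hnr) (sub_nonneg.2 hnr)]
    nlinarith
  rw [probQ_eq, PQ_compl]
  have hfin : PQ q' (fun χ => ¬ ∀ D, IsMax (gr χ) D → Choosable (gr χ) D) ≤ 1 / n := by
    refine (PQ_mono hqq fun χ hχ => ?_).trans hsum
    by_contra hcon
    rw [not_or] at hcon
    obtain ⟨c1, c2⟩ := hcon
    push Not at c1 c2
    apply hχ
    intro D hD
    have hdeg : ∀ v, cS (Sv v univ) χ = dg (gr χ) v := by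
      intro v
      rw [cS_Sv]
      unfold dg
      congr 1
      ext w
      simp
    have hDM : (1 - h) * M < D := by
      rw [hdeg] at c2
      have : (dg (gr χ) v0 : ℝ) ≤ D := by exact_mod_cast hD.1 v0
      linarith
    have hgood : ∀ v, (v ∉ W → ({w | (gr χ).Adj v w ∧ w ∈ Wᶜ}.ncard : ℝ) < T1 ∧
        ({w | (gr χ).Adj v w ∧ w ∈ W}.ncard : ℝ) < T2) ∧
        (v ∈ W → ({w | (gr χ).Adj v w ∧ w ∈ W}.ncard : ℝ) < T3) := by
      intro v
      have hv := c1 v (Finset.mem_univ v)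
      rw [hBad] at hv
      simp only [not_or, not_and, not_le] at hv
      obtain ⟨⟨d1, d2⟩, d3⟩ := hv
      rw [cS_Sv] at d1 d2 d3
      exact ⟨fun h' => ⟨d1 h', d2 h'⟩, d3⟩
    have hhM : 0 < h * M := by positivity
    have hηM : η * M = 5 * (h * M) := by rw [hh]; ring
    have u1 : T1 = M - 2 * (β * M) - 4 * (h * M) := by rw [hT1]; linarith
    have u2 : T2 = β * M + h * M := hT2
    have u3 : T3 = M - β * M - 4 * (h * M) := by rw [hT3]; linarith
    have hβM : 2 * β * M ≤ (1 - η) * M := mul_le_mul_of_nonneg_right hβ hM0.le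
    have hβM0 : 0 ≤ β * M := by positivity
    have t1 : 0 ≤ T1 := by
      rw [u1]
      linarith
    have t2 : 0 ≤ T2 := by
      rw [hT2]
      positivity
    have t3 : 0 ≤ T3 := by
      rw [u3]
      linarith
    have f1 := Nat.floor_le t1
    have f2 := Nat.floor_le t2
    have f3 := Nat.floor_le t3
    have hM2 : 256 * (K + 1) ^ 2 / (2 * η / 5) ^ 2 * Real.log n ≤ M := by
      have e : 256 * (K + 1) ^ 2 / (2 * η / 5) ^ 2 * Real.log n =
          1600 * (K + 1) ^ 2 / η ^ 2 * Real.log n := by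
        field_simp
        ring
      rw [e]
      exact hM
    have g1 := (num_fact K (2 * η / 5) M (Real.log n) (⌊T1⌋₊ : ℝ) hK (by positivity)
      (by linarith) hlog2 hM2 (by linarith)).1
    have g3 := (num_fact K (2 * η / 5) M (Real.log n) (⌊T3⌋₊ : ℝ) hK (by positivity)
      (by linarith) hlog2 hM2 (by linarith)).1
    have hη5 : 2 * η / 5 / 2 * M = h * M := by rw [hh]; ring
    rw [hη5] at g1 g3
    refine hcrit n (gr χ) W D ⌊T1⌋₊ ⌊T2⌋₊ ⌊T3⌋₊ hD.1
      (fun v hv => Nat.le_floor ((hgood v).1 hv).1.le)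
      (fun v hv => Nat.le_floor ((hgood v).1 hv).2.le)
      (fun v hv => Nat.le_floor ((hgood v).2 hv).le) ?_ ?_ ?_
    · linarith
    · have : (⌊T2⌋₊ + ⌊T3⌋₊ : ℝ) ≤ D := by
        linarith
      exact_mod_cast this
    · linarith
  linarith

end Pool.Agent.U531.SR.H2
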