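import Pool.Agent.U531.SR.Het

/-!
# Random graphs with given expected degrees
-/

set_option autoImplicit false

namespace Pool.Agent.U531.SR

open Finset
open Pool.Agent.TH559.LE (Choosable)

/-- edge probabilities `w i w j / ∑ w` -/
noncomputable def qw {n : ℕ} (w : Fin n → ℝ) : Sym2 (Fin n) → ℝ :=
  Sym2.lift ⟨fun i j => w i * w j / ∑ k, w k, fun i j => by
    show w i * w j / ∑ k, w k = w j * w i / ∑ k, w k
    rw [mul_comm (w i)]⟩

theorem cl_lecc (η : ℝ) (hη : 0 < η) (n : ℕ) (hn : 2 ≤ n) (w : Fin n → ℝ)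
    (hw : ∀ i, 0 ≤ w i) (hww : ∀ i j, w i * w j ≤ ∑ k, w k) (m x φ : ℝ)
    (hm : ∀ i, w i ≤ m) (hm' : ∃ i, w i = m) (hmK : 10368 / η ^ 2 * Real.log n ≤ m)
    (hx0 : 0 ≤ x) (hφ0 : 0 ≤ φ) (hxφ : x * (3 + 4 * φ) ≤ 2 - η) (hφ : φ ≤ 2 / 3 - η)
    (hheavy : ∑ i ∈ univ.filter (fun i => x * m < w i), w i ≤ φ * ∑ k, w k) :
    1 - 1 / n ≤ probQ (qw w) (fun G : SimpleGraph (Fin n) =>
      ∀ D, IsMax G D → Choosable G D) := by
  classical
  have hη2 : η ≤ 2 / 3 := by linarith
  have hnr : (2 : ℝ) ≤ n := by exact_mod_cast hn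
  have hlog2 : (1 / 2 : ℝ) ≤ Real.log n := by
    have h1 : Real.log 2 ≤ Real.log n := Real.log_le_log (by norm_num) hnr
    have := Real.log_two_gt_d9
    linarith
  have hη22 : η ^ 2 ≤ η := by nlinarith
  have hm6 : 6 / η ≤ m := by
    refine le_trans ?_ hmK
    have e1 : 6 / η ≤ 10368 / η ^ 2 * (1 / 2) := by
      rw [div_mul_eq_mul_div, div_le_div_iff₀ hη (by positivity)]
      nlinarith
    exact e1.trans (mul_le_mul_of_nonneg_left hlog2 (by positivity))
  have hm0 : 0 < m := lt_of_lt_of_le (by positivity) hm6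
  set S : ℝ := ∑ k, w k with hS
  obtain ⟨i0, hi0⟩ := hm'
  have hSm : m * m ≤ S := by
    have := hww i0 i0
    rwa [hi0] at this
  have hS0 : 0 < S := lt_of_lt_of_le (by positivity) hSm
  set δ : ℝ := η / 6 with hδ
  have hmS : m / S ≤ δ := by
    rw [div_le_iff₀ hS0]
    have e1 : 6 ≤ m * η := by
      rw [div_le_iff₀ hη] at hm6
      exact hm6
    have e2 : m * 1 ≤ m * (δ * m) := by
      refine mul_le_mul_of_nonneg_left ?_ hm0.le
      rw [hδ]
      linarith
    have e3 : δ * (m * m) ≤ δ * S := mul_le_mul_of_nonneg_left hSm (by rw [hδ]; positivity)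
    nlinarith
  set M : ℝ := m * (1 - m / S) with hM
  have hMm : (1 - δ) * m ≤ M := by
    rw [hM, mul_comm m]
    exact mul_le_mul_of_nonneg_right (by linarith) hm0.le
  have hMm' : M ≤ m := by
    have : 0 ≤ m / S := by positivity
    rw [hM]
    nlinarith
  have hM2 : m / 2 ≤ M := by
    refine le_trans ?_ hMm
    rw [hδ]
    nlinarith
  have hM0 : 0 < M := by linarith
  set W : Finset (Fin n) := univ.filter (fun i => x * m < w i) with hW
  have hq01 : ∀ e, 0 ≤ qw w e ∧ qw w e ≤ 1 := by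
    intro e
    induction e using Sym2.ind with
    | _ i j =>
      constructor
      · exact div_nonneg (mul_nonneg (hw i) (hw j)) hS0.le
      · exact (div_le_one hS0).2 (hww i j)
  have hsum : ∀ (v : Fin n) (A : Finset (Fin n)),
      ∑ u ∈ A.erase v, qw w s(v, u) ≤ w v * ((∑ u ∈ A, w u) / S) := by
    intro v A
    have e1 : ∀ u, qw w s(v, u) = w v * (w u / S) := by
      intro u
      show w v * w u / ∑ k, w k = _
      rw [mul_div_assoc]
    rw [Finset.sum_congr rfl fun u _ => e1 u, ← Finset.mul_sum, Finset.sum_div]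
    refine mul_le_mul_of_nonneg_left ?_ (hw v)
    exact Finset.sum_le_sum_of_subset_of_nonneg (Finset.erase_subset _ _)
      (fun u _ _ => div_nonneg (hw u) hS0.le)
  have hWS : (∑ u ∈ W, w u) / S ≤ φ := by
    rw [div_le_iff₀ hS0]
    exact hheavy
  have hall : ∀ v, ∑ u ∈ univ.erase v, qw w s(v, u) ≤ w v := by
    intro v
    refine (hsum v univ).trans (le_of_eq ?_)
    rw [← hS, div_self hS0.ne', mul_one]
  have hinW : ∀ v, ∑ u ∈ W.erase v, qw w s(v, u) ≤ w v * φ := fun v =>
    (hsum v W).trans (mul_le_mul_of_nonneg_left hWS (hw v))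
  set β : ℝ := x * φ * m / M with hβ
  have hβM : β * M = x * φ * m := by
    rw [hβ]
    field_simp
  have hxφ' : x * φ ≤ 4 / 17 := by
    have e1 : x * φ * 17 ≤ x * (3 + 4 * φ) * 2 := by
      have : φ * 17 ≤ (3 + 4 * φ) * 2 := by linarith
      calc x * φ * 17 = x * (φ * 17) := by ring
        _ ≤ x * ((3 + 4 * φ) * 2) := mul_le_mul_of_nonneg_left this hx0
        _ = x * (3 + 4 * φ) * 2 := by ring
    linarith
  have hδ0 : 0 < δ := by rw [hδ]; positivity
  have hδ9 : δ ≤ 1 / 9 := by rw [hδ]; linarith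
  refine het_lecc (η / 6) (by positivity) (by linarith) n hn (qw w) hq01 M β W ?_ ?_ ?_ ?_ ?_ ?_
  · have e1 : 144 / (η / 6) ^ 2 * Real.log n = 10368 / η ^ 2 * Real.log n / 2 := by
      field_simp
      ring
    rw [e1]
    linarith
  · rw [hβ]
    positivity
  · rw [hβ, div_le_iff₀ hM0]
    have e1 : x * φ * m ≤ 4 / 17 * m := mul_le_mul_of_nonneg_right hxφ' hm0.le
    nlinarith
  · refine ⟨i0, ?_⟩
    have e1 : ∀ u, qw w s(i0, u) = w i0 * (w u / S) := by
      intro u
      show w i0 * w u / ∑ k, w k = _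
      rw [mul_div_assoc]
    rw [Finset.sum_congr rfl fun u _ => e1 u, ← Finset.mul_sum, ← Finset.sum_div]
    have e2 : ∑ u ∈ univ.erase i0, w u = S - m := by
      have := Finset.add_sum_erase univ w (Finset.mem_univ i0)
      rw [hi0] at this
      linarith
    rw [e2, hi0, hM]
    refine le_of_eq ?_
    field_simp
  · intro v hv
    have hvx : w v ≤ x * m := by
      by_contra hcon
      exact hv (Finset.mem_filter.2 ⟨Finset.mem_univ _, not_le.1 hcon⟩)
    constructor
    · refine (hall v).trans (hvx.trans ?_)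
      have e1 : 3 * (x * m) + 4 * (β * M) ≤ (2 - 3 * (η / 6)) * M := by
        rw [hβM]
        have e2 : 3 * (x * m) + 4 * (x * φ * m) = x * (3 + 4 * φ) * m := by ring
        rw [e2]
        have e3 : x * (3 + 4 * φ) * m ≤ (2 - η) * m := mul_le_mul_of_nonneg_right hxφ hm0.le
        have e4 : (2 - 3 * (η / 6)) * ((1 - δ) * m) ≤ (2 - 3 * (η / 6)) * M :=
          mul_le_mul_of_nonneg_left hMm (by linarith)
        refine e3.trans (le_trans ?_ e4)
        have e5 : 2 - η ≤ (2 - 3 * (η / 6)) * (1 - δ) := by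
          rw [hδ]
          nlinarith
        calc (2 - η) * m ≤ ((2 - 3 * (η / 6)) * (1 - δ)) * m :=
              mul_le_mul_of_nonneg_right e5 hm0.le
          _ = (2 - 3 * (η / 6)) * ((1 - δ) * m) := by ring
      linarith
    · refine (hinW v).trans ?_
      rw [hβM]
      calc w v * φ ≤ x * m * φ := mul_le_mul_of_nonneg_right hvx hφ0
        _ = x * φ * m := by ring
  · intro v _
    refine (hinW v).trans ?_
    have e1 : w v * φ ≤ m * (2 / 3 - η) :=
      mul_le_mul (hm v) hφ hφ0 hm0.le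
    refine e1.trans ?_
    have e4 : (2 / 3 - η / 6) * ((1 - δ) * m) ≤ (2 / 3 - η / 6) * M :=
      mul_le_mul_of_nonneg_left hMm (by linarith)
    refine le_trans ?_ e4
    have e5 : 2 / 3 - η ≤ (2 / 3 - η / 6) * (1 - δ) := by
      rw [hδ]
      nlinarith
    calc m * (2 / 3 - η) = (2 / 3 - η) * m := mul_comm _ _
      _ ≤ ((2 / 3 - η / 6) * (1 - δ)) * m := mul_le_mul_of_nonneg_right e5 hm0.le
      _ = (2 / 3 - η / 6) * ((1 - δ) * m) := by ring

end Pool.Agent.U531.SR
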