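import Pool.Agent.U531.SR.Het2

/-!
# Random graphs with given expected degrees: second version
-/

set_option autoImplicit false

namespace Pool.Agent.U531.SR.H2

open Finset
open Pool.Agent.U531.SR
open Pool.Agent.TH559.LE (Choosable)

/-- random graphs with given expected degrees -/
theorem cl2 (C : ℝ) (hC : 0 < C) (hmain : ∀ η : ℝ, 0 < η → η ≤ 1 / 2 → ∀ n : ℕ, 2 ≤ n →
    ∀ q : Sym2 (Fin n) → ℝ, (∀ e, 0 ≤ q e ∧ q e ≤ 1) → ∀ (M β : ℝ) (W : Finset (Fin n)),
    C / η ^ 2 * Real.log n ≤ M → 0 ≤ β → 2 * β ≤ 1 - η →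
    (∃ v, M ≤ ∑ w ∈ univ.erase v, q s(v, w)) →
    (∀ v, v ∉ W → ∑ w ∈ Wᶜ.erase v, q s(v, w) ≤ (1 - 2 * β - η) * M ∧
      ∑ w ∈ W.erase v, q s(v, w) ≤ β * M) →
    (∀ v, v ∈ W → ∑ w ∈ W.erase v, q s(v, w) ≤ (1 - β - η) * M) →
    1 - 1 / n ≤ probQ q (fun G : SimpleGraph (Fin n) => ∀ D, IsMax G D → Choosable G D))
    (η : ℝ) (hη : 0 < η) (n : ℕ) (hn : 2 ≤ n) (w : Fin n → ℝ)
    (hw : ∀ i, 0 ≤ w i) (hww : ∀ i j, w i * w j ≤ ∑ k, w k) (m x φ : ℝ)
    (hm : ∀ i, w i ≤ m) (hm' : ∃ i, w i = m) (hmK : (8 * C + 100) / η ^ 2 * Real.log n ≤ m)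
    (hx0 : 0 ≤ x) (hx1 : x * (1 + φ) ≤ 1 - η) (hφ1 : φ * (1 + x) ≤ 1 - η)
    (hheavy : ∑ i ∈ univ.filter (fun i => x * m < w i), w i ≤ φ * ∑ k, w k) :
    1 - 1 / n ≤ probQ (qw w) (fun G : SimpleGraph (Fin n) => ∀ D, IsMax G D → Choosable G D) := by
  classical
  have hnr : (2 : ℝ) ≤ n := by exact_mod_cast hn
  have hlog2 : (1 / 2 : ℝ) ≤ Real.log n := by
    have h1 : Real.log 2 ≤ Real.log n := Real.log_le_log (by norm_num) hnr
    have := Real.log_two_gt_d9
    linarith
  obtain ⟨i0, hi0⟩ := hm'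
  have hηpos : 0 < (8 * C + 100) / η ^ 2 * Real.log n := by positivity
  have hm00 : 0 < m := lt_of_lt_of_le hηpos hmK
  have hS00 : 0 < ∑ k, w k := by
    refine lt_of_lt_of_le (by positivity : 0 < m * m) ?_
    have := hww i0 i0
    rwa [hi0] at this
  -- the exact share of the heavy vertices
  set W : Finset (Fin n) := univ.filter (fun i => x * m < w i) with hW
  set ψ : ℝ := (∑ u ∈ W, w u) / ∑ k, w k with hψ
  have hψφ : ψ ≤ φ := by
    rw [hψ, div_le_iff₀ hS00]
    exact hheavy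
  have hψ0 : 0 ≤ ψ := div_nonneg (Finset.sum_nonneg fun u _ => hw u) hS00.le
  have hx : x * (1 + ψ) ≤ 1 - η :=
    (mul_le_mul_of_nonneg_left (by linarith) hx0).trans hx1
  have hφ : ψ * (1 + x) ≤ 1 - η :=
    (mul_le_mul_of_nonneg_right hψφ (by linarith)).trans hφ1
  have hψx : 0 ≤ ψ * x := by positivity
  have hη2 : η ≤ 1 := by nlinarith
  have hψ1 : ψ ≤ 1 := by nlinarith
  have hη22 : η ^ 2 ≤ η := by nlinarith
  have hm6 : 6 / η ≤ m := by
    refine le_trans ?_ hmK
    have e1 : 6 / η ≤ 100 / η ^ 2 * (1 / 2) := by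
      rw [div_mul_eq_mul_div, div_le_div_iff₀ hη (by positivity)]
      nlinarith
    have e2 : 100 / η ^ 2 ≤ (8 * C + 100) / η ^ 2 :=
      div_le_div_of_nonneg_right (by linarith) (by positivity)
    exact e1.trans (mul_le_mul e2 hlog2 (by norm_num) (by positivity))
  have hm0 : 0 < m := lt_of_lt_of_le (by positivity) hm6
  set S : ℝ := ∑ k, w k with hS
  have hSm : m * m ≤ S := by
    have := hww i0 i0
    rwa [hi0] at this
  have hS0 : 0 < S := lt_of_lt_of_le (by positivity) hSm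
  set δ : ℝ := η / 6 with hδ
  have hmS : m / S ≤ δ := by
    rw [div_le_iff₀ hS0]
    have e1 : 6 ≤ m * η := by
      rw [div_le_iff₀ hη] at hm6
      exact hm6
    have e2 : m * 1 ≤ m * (δ * m) := by
      refine mul_le_mul_of_nonneg_left ?_ hm0.le
      rw [hδ]
      linarith
    have e3 : δ * (m * m) ≤ δ * S := mul_le_mul_of_nonneg_left hSm (by rw [hδ]; positivity)
    nlinarith
  set M : ℝ := m * (1 - m / S) with hM
  have hMm : (1 - δ) * m ≤ M := by
    rw [hM, mul_comm m]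
    exact mul_le_mul_of_nonneg_right (by linarith) hm0.le
  have hM2 : m / 2 ≤ M := by
    refine le_trans ?_ hMm
    rw [hδ]
    nlinarith
  have hM0 : 0 < M := by linarith
  have hq01 : ∀ e, 0 ≤ qw w e ∧ qw w e ≤ 1 := by
    intro e
    induction e using Sym2.ind with
    | _ i j =>
      constructor
      · exact div_nonneg (mul_nonneg (hw i) (hw j)) hS0.le
      · exact (div_le_one hS0).2 (hww i j)
  have hsum : ∀ (v : Fin n) (A : Finset (Fin n)),
      ∑ u ∈ A.erase v, qw w s(v, u) ≤ w v * ((∑ u ∈ A, w u) / S) := by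
    intro v A
    have e1 : ∀ u, qw w s(v, u) = w v * (w u / S) := by
      intro u
      show w v * w u / ∑ k, w k = _
      rw [mul_div_assoc]
    rw [Finset.sum_congr rfl fun u _ => e1 u, ← Finset.mul_sum, Finset.sum_div]
    refine mul_le_mul_of_nonneg_left ?_ (hw v)
    exact Finset.sum_le_sum_of_subset_of_nonneg (Finset.erase_subset _ _)
      (fun u _ _ => div_nonneg (hw u) hS0.le)
  have hWc : (∑ u ∈ Wᶜ, w u) / S = 1 - ψ := by
    have e1 : ∑ u ∈ Wᶜ, w u = S - ∑ u ∈ W, w u := by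
      have := Finset.sum_add_sum_compl W w
      rw [hS]
      linarith
    rw [e1, sub_div, div_self hS0.ne']
  have hout : ∀ v, ∑ u ∈ Wᶜ.erase v, qw w s(v, u) ≤ w v * (1 - ψ) := by
    intro v
    refine (hsum v Wᶜ).trans (le_of_eq ?_)
    rw [hWc]
  have hinW : ∀ v, ∑ u ∈ W.erase v, qw w s(v, u) ≤ w v * ψ := fun v => hsum v W
  set β : ℝ := x * ψ * m / M with hβ
  have hβM : β * M = x * ψ * m := by
    rw [hβ]
    field_simp
  have hδ0 : 0 < δ := by rw [hδ]; positivity
  have hδ9 : δ ≤ 1 / 6 := by rw [hδ]; linarith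
  have hkey : (1 - η) * m ≤ (1 - η / 2) * M := by
    have e4 : (1 - η / 2) * ((1 - δ) * m) ≤ (1 - η / 2) * M :=
      mul_le_mul_of_nonneg_left hMm (by linarith)
    have e5 : 1 - η ≤ (1 - η / 2) * (1 - δ) := by
      rw [hδ]
      nlinarith
    calc (1 - η) * m ≤ ((1 - η / 2) * (1 - δ)) * m := mul_le_mul_of_nonneg_right e5 hm0.le
      _ = (1 - η / 2) * ((1 - δ) * m) := by ring
      _ ≤ (1 - η / 2) * M := e4
  have hx' : x * (1 + ψ) * m ≤ (1 - η) * m := mul_le_mul_of_nonneg_right hx hm0.le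
  have hφ' : ψ * (1 + x) * m ≤ (1 - η) * m := mul_le_mul_of_nonneg_right hφ hm0.le
  refine hmain (η / 2) (by positivity) (by linarith) n hn (qw w) hq01 M β W ?_ ?_ ?_ ?_ ?_ ?_
  · have e1 : C / (η / 2) ^ 2 * Real.log n = 8 * C / η ^ 2 * Real.log n / 2 := by
      field_simp
      ring
    have e2 : 8 * C / η ^ 2 * Real.log n ≤ (8 * C + 100) / η ^ 2 * Real.log n := by
      refine mul_le_mul_of_nonneg_right ?_ (by linarith)
      exact div_le_div_of_nonneg_right (by linarith) (by positivity)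
    rw [e1]
    linarith
  · rw [hβ]
    positivity
  · refine le_of_mul_le_mul_right ?_ hM0
    have e1 : x * ψ ≤ x := by
      have := mul_le_mul_of_nonneg_left hψ1 hx0
      linarith
    have e2 : x * ψ * m ≤ x * m := mul_le_mul_of_nonneg_right e1 hm0.le
    have e3 : x * (1 + ψ) * m = x * m + x * ψ * m := by ring
    have e4 : 2 * β * M = 2 * (x * ψ * m) := by rw [← hβM]; ring
    rw [e4]
    linarith
  · refine ⟨i0, ?_⟩
    have e1 : ∀ u, qw w s(i0, u) = w i0 * (w u / S) := by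
      intro u
      show w i0 * w u / ∑ k, w k = _
      rw [mul_div_assoc]
    rw [Finset.sum_congr rfl fun u _ => e1 u, ← Finset.mul_sum, ← Finset.sum_div]
    have e2 : ∑ u ∈ univ.erase i0, w u = S - m := by
      have := Finset.add_sum_erase univ w (Finset.mem_univ i0)
      rw [hi0] at this
      linarith
    rw [e2, hi0, hM]
    refine le_of_eq ?_
    field_simp
  · intro v hv
    have hvx : w v ≤ x * m := by
      by_contra hcon
      exact hv (Finset.mem_filter.2 ⟨Finset.mem_univ _, not_le.1 hcon⟩)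
    constructor
    · refine (hout v).trans ?_
      have e1 : w v * (1 - ψ) ≤ x * m * (1 - ψ) :=
        mul_le_mul_of_nonneg_right hvx (by linarith)
      have e2 : (1 - 2 * β - η / 2) * M = (1 - η / 2) * M - 2 * (x * ψ * m) := by
        rw [← hβM]
        ring
      have e3 : x * (1 + ψ) * m = x * m * (1 - ψ) + 2 * (x * ψ * m) := by ring
      rw [e2]
      linarith
    · refine (hinW v).trans ?_
      rw [hβM]
      calc w v * ψ ≤ x * m * ψ := mul_le_mul_of_nonneg_right hvx hψ0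
        _ = x * ψ * m := by ring
  · intro v _
    refine (hinW v).trans ?_
    have e1 : w v * ψ ≤ m * ψ := mul_le_mul_of_nonneg_right (hm v) hψ0
    refine e1.trans ?_
    have e0 : (1 - β - η / 2) * M = (1 - η / 2) * M - x * ψ * m := by
      rw [← hβM]
      ring
    rw [e0]
    have e8 : ψ * (1 + x) * m = m * ψ + x * ψ * m := by ring
    linarith

end Pool.Agent.U531.SR.H2
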