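import Pool.Agent.U531.SR.HetCL2

/-!
# Random graphs with a power law
-/

set_option autoImplicit false

namespace Pool.Agent.U531.SR.H2

open Finset
open Pool.Agent.U531.SR
open Pool.Agent.TH559.LE (Choosable)

theorem card_le_of_floor {n : ℕ} (A : Finset (Fin n)) (y : ℝ) (hy : 0 ≤ y)
    (h : ∀ i ∈ A, ((i : ℕ) + 1 : ℝ) ≤ y) : (A.card : ℝ) ≤ y := by
  have h1 : A.card ≤ ⌊y⌋₊ := by
    have : (A.image (fun i : Fin n => (i : ℕ))) ⊆ Finset.range ⌊y⌋₊ := by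
      intro j hj
      obtain ⟨i, hi, rfl⟩ := Finset.mem_image.1 hj
      rw [Finset.mem_range]
      have h2 : (((i : ℕ) + 1 : ℕ) : ℝ) ≤ y := by
        push_cast
        exact h i hi
      exact Nat.succ_le_iff.1 (Nat.le_floor h2)
    have h3 := Finset.card_le_card this
    rw [Finset.card_range, Finset.card_image_of_injective _ Fin.val_injective] at h3
    exact h3
  have h2 : (A.card : ℝ) ≤ (⌊y⌋₊ : ℝ) := by exact_mod_cast h1
  exact h2.trans (Nat.floor_le hy)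

theorem pl (C : ℝ) (hC : 0 < C) (hmain : ∀ η : ℝ, 0 < η → η ≤ 1 / 2 → ∀ n : ℕ, 2 ≤ n →
    ∀ q : Sym2 (Fin n) → ℝ, (∀ e, 0 ≤ q e ∧ q e ≤ 1) → ∀ (M β : ℝ) (W : Finset (Fin n)),
    C / η ^ 2 * Real.log n ≤ M → 0 ≤ β → 2 * β ≤ 1 - η →
    (∃ v, M ≤ ∑ w ∈ univ.erase v, q s(v, w)) →
    (∀ v, v ∉ W → ∑ w ∈ Wᶜ.erase v, q s(v, w) ≤ (1 - 2 * β - η) * M ∧
      ∑ w ∈ W.erase v, q s(v, w) ≤ β * M) →
    (∀ v, v ∈ W → ∑ w ∈ W.erase v, q s(v, w) ≤ (1 - β - η) * M) →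
    1 - 1 / n ≤ probQ q (fun G : SimpleGraph (Fin n) => ∀ D, IsMax G D → Choosable G D))
    (s : ℝ) (hs : 0 < s) (n : ℕ) (hn : 2 ≤ n) (m : ℝ)
    (hm1 : (16 * (8 * C + 100) + 4 * (2 : ℝ) ^ (1 / s)) * Real.log n ≤ m)
    (hm2 : m ≤ ∑ i : Fin n, ((i : ℕ) + 1 : ℝ) ^ (-s)) :
    1 - 1 / n ≤ probQ (qw (fun i : Fin n => m * ((i : ℕ) + 1 : ℝ) ^ (-s)))
      (fun G : SimpleGraph (Fin n) => ∀ D, IsMax G D → Choosable G D) := by
  classical
  have hnr : (2 : ℝ) ≤ n := by exact_mod_cast hn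
  have hlog2 : (1 / 2 : ℝ) ≤ Real.log n := by
    have h1 : Real.log 2 ≤ Real.log n := Real.log_le_log (by norm_num) hnr
    have := Real.log_two_gt_d9
    linarith
  have h2s : (0 : ℝ) < (2 : ℝ) ^ (1 / s) := Real.rpow_pos_of_pos (by norm_num) _
  have hm0 : 0 < m := lt_of_lt_of_le (by positivity) hm1
  have hi1 : ∀ i : Fin n, (1 : ℝ) ≤ ((i : ℕ) + 1 : ℝ) := by
    intro i
    have : (0 : ℝ) ≤ ((i : ℕ) : ℝ) := Nat.cast_nonneg _
    linarith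
  have ha0 : ∀ i : Fin n, 0 ≤ ((i : ℕ) + 1 : ℝ) ^ (-s) := fun i =>
    Real.rpow_nonneg (by linarith [hi1 i]) _
  have ha1 : ∀ i : Fin n, ((i : ℕ) + 1 : ℝ) ^ (-s) ≤ 1 := fun i =>
    Real.rpow_le_one_of_one_le_of_nonpos (hi1 i) (by linarith)
  set S : ℝ := ∑ i : Fin n, ((i : ℕ) + 1 : ℝ) ^ (-s) with hS
  have hsum : ∑ i : Fin n, m * ((i : ℕ) + 1 : ℝ) ^ (-s) = m * S := by
    rw [hS, Finset.mul_sum]
  have hwm : ∀ i : Fin n, m * ((i : ℕ) + 1 : ℝ) ^ (-s) ≤ m := by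
    intro i
    have := mul_le_mul_of_nonneg_left (ha1 i) hm0.le
    linarith
  have hw0 : ∀ i : Fin n, 0 ≤ m * ((i : ℕ) + 1 : ℝ) ^ (-s) := fun i =>
    mul_nonneg hm0.le (ha0 i)
  refine cl2 C hC hmain (1 / 4) (by norm_num) n hn _ hw0 ?_ m (1 / 2) (1 / 2) hwm ?_ ?_
    (by norm_num) (by norm_num) (by norm_num) ?_
  · intro i j
    rw [hsum]
    calc m * ((i : ℕ) + 1 : ℝ) ^ (-s) * (m * ((j : ℕ) + 1 : ℝ) ^ (-s)) ≤ m * m :=
          mul_le_mul (hwm i) (hwm j) (hw0 j) hm0.le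
      _ ≤ m * S := mul_le_mul_of_nonneg_left hm2 hm0.le
  · refine ⟨⟨0, by omega⟩, ?_⟩
    simp
  · refine le_trans ?_ hm1
    have e1 : (8 * C + 100) / (1 / 4) ^ 2 = 16 * (8 * C + 100) := by
      norm_num
      ring
    rw [e1]
    exact mul_le_mul_of_nonneg_right (by linarith) (by linarith)
  · rw [hsum]
    set A : Finset (Fin n) :=
      univ.filter (fun i : Fin n => 1 / 2 * m < m * ((i : ℕ) + 1 : ℝ) ^ (-s)) with hA
    have hcard : (A.card : ℝ) ≤ (2 : ℝ) ^ (1 / s) := by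
      refine card_le_of_floor A _ h2s.le ?_
      intro i hi
      have hi2 := (Finset.mem_filter.1 hi).2
      by_contra hcon
      rw [not_le] at hcon
      have e1 : (2 : ℝ) ≤ ((i : ℕ) + 1 : ℝ) ^ s := by
        calc (2 : ℝ) = ((2 : ℝ) ^ (1 / s)) ^ s := by
              rw [← Real.rpow_mul (by norm_num), one_div, inv_mul_cancel₀ hs.ne', Real.rpow_one]
          _ ≤ ((i : ℕ) + 1 : ℝ) ^ s := Real.rpow_le_rpow h2s.le hcon.le hs.le
      have e2 : ((i : ℕ) + 1 : ℝ) ^ (-s) ≤ 1 / 2 := by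
        rw [Real.rpow_neg (by linarith [hi1 i]), ← one_div]
        exact one_div_le_one_div_of_le (by norm_num) e1
      have e3 := mul_le_mul_of_nonneg_left e2 hm0.le
      linarith
    have e1 : ∑ i ∈ A, m * ((i : ℕ) + 1 : ℝ) ^ (-s) ≤ (A.card : ℝ) * m := by
      rw [← nsmul_eq_mul]
      exact Finset.sum_le_card_nsmul A _ m (fun i _ => hwm i)
    have e2 : (A.card : ℝ) * m ≤ (2 : ℝ) ^ (1 / s) * m := mul_le_mul_of_nonneg_right hcard hm0.le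
    have e3 : 2 * (2 : ℝ) ^ (1 / s) ≤ m := by
      refine le_trans ?_ hm1
      have e4 : (16 * (8 * C + 100) + 4 * (2 : ℝ) ^ (1 / s)) * (1 / 2) ≤
          (16 * (8 * C + 100) + 4 * (2 : ℝ) ^ (1 / s)) * Real.log n :=
        mul_le_mul_of_nonneg_left hlog2 (by positivity)
      linarith
    have e5 : 2 * (2 : ℝ) ^ (1 / s) * m ≤ S * m :=
      mul_le_mul_of_nonneg_right (e3.trans hm2) hm0.le
    have e6 : 1 / 2 * (m * S) = 1 / 2 * (S * m) := by ring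
    rw [e6]
    linarith

end Pool.Agent.U531.SR.H2
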