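import Pool.Agent.U531.SR.Conv

/-!
# Independent edges with different probabilities: Chernoff bounds
-/

set_option autoImplicit false

namespace Pool.Agent.U531.SR

open Finset

section
variable {E : Type} [Fintype E] [DecidableEq E]

/-- the weight of a configuration -/
def wq (q : E → ℝ) (χ : E → Bool) : ℝ := ∏ e, if χ e = true then q e else 1 - q e

/-- the probability of `P` -/
noncomputable def PQ (q : E → ℝ) (P : (E → Bool) → Prop) : ℝ := by
  classical exact ∑ χ : E → Bool, if P χ then wq q χ else 0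

variable {q : E → ℝ}

theorem wq_nonneg (hq : ∀ e, 0 ≤ q e ∧ q e ≤ 1) (χ : E → Bool) : 0 ≤ wq q χ := by
  refine Finset.prod_nonneg fun e _ => ?_
  split_ifs
  · exact (hq e).1
  · linarith [(hq e).2]

theorem sum_prod_q (q : E → ℝ) (g : E → Bool → ℝ) :
    ∑ χ : E → Bool, wq q χ * ∏ e, g e (χ e) = ∏ e, (q e * g e true + (1 - q e) * g e false) := by
  classical
  have h := Finset.prod_univ_sum (fun _ : E => (univ : Finset Bool))
    (fun e b => (if b = true then q e else 1 - q e) * g e b)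
  rw [Fintype.piFinset_univ] at h
  have h2 : ∀ e : E, ∑ b : Bool, (if b = true then q e else 1 - q e) * g e b =
      q e * g e true + (1 - q e) * g e false := by
    intro e
    rw [Fintype.sum_bool]
    simp
  rw [Finset.prod_congr rfl fun e _ => h2 e] at h
  rw [h]
  refine Finset.sum_congr rfl fun χ _ => ?_
  unfold wq
  rw [← Finset.prod_mul_distrib]

theorem sum_wq (q : E → ℝ) : ∑ χ : E → Bool, wq q χ = 1 := by
  have h := sum_prod_q q (fun _ _ => 1)
  simp only [Finset.prod_const_one, mul_one] at h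
  rw [h]
  apply Finset.prod_eq_one
  intro e _
  ring

theorem PQ_mono (hq : ∀ e, 0 ≤ q e ∧ q e ≤ 1) {P Q : (E → Bool) → Prop}
    (h : ∀ χ, P χ → Q χ) : PQ q P ≤ PQ q Q := by
  classical
  unfold PQ
  refine Finset.sum_le_sum fun χ _ => ?_
  by_cases hP : P χ
  · rw [if_pos hP, if_pos (h χ hP)]
  · rw [if_neg hP]
    split_ifs
    · exact wq_nonneg hq χ
    · exact le_refl _

theorem PQ_compl (q : E → ℝ) (P : (E → Bool) → Prop) : PQ q P = 1 - PQ q (fun χ => ¬ P χ) := by
  classical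
  rw [← sum_wq q]
  unfold PQ
  rw [← Finset.sum_sub_distrib]
  refine Finset.sum_congr rfl fun χ _ => ?_
  by_cases hP : P χ <;> simp [hP]

theorem PQ_or_le (hq : ∀ e, 0 ≤ q e ∧ q e ≤ 1) (P Q : (E → Bool) → Prop) :
    PQ q (fun χ => P χ ∨ Q χ) ≤ PQ q P + PQ q Q := by
  classical
  unfold PQ
  rw [← Finset.sum_add_distrib]
  refine Finset.sum_le_sum fun χ _ => ?_
  have := wq_nonneg hq χ
  by_cases h1 : P χ <;> by_cases h2 : Q χ <;> simp [h1, h2, this]

theorem PQ_exists_le (hq : ∀ e, 0 ≤ q e ∧ q e ≤ 1) {J : Type} (S : Finset J)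
    (A : J → (E → Bool) → Prop) :
    PQ q (fun χ => ∃ j ∈ S, A j χ) ≤ ∑ j ∈ S, PQ q (A j) := by
  classical
  unfold PQ
  rw [Finset.sum_comm]
  refine Finset.sum_le_sum fun χ _ => ?_
  have hw := wq_nonneg hq χ
  split_ifs with h
  · obtain ⟨j, hj, hA⟩ := h
    calc wq q χ = if A j χ then wq q χ else 0 := by rw [if_pos hA]
      _ ≤ _ := Finset.single_le_sum (f := fun j => if A j χ then wq q χ else 0)
        (fun i _ => by
          show 0 ≤ if A i χ then wq q χ else 0
          split_ifs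
          · exact hw
          · exact le_refl _) hj
  · exact Finset.sum_nonneg fun i _ => by
      split_ifs
      · exact hw
      · exact le_refl _

theorem PQ_le_prod (hq : ∀ e, 0 ≤ q e ∧ q e ≤ 1) (P : (E → Bool) → Prop)
    (g : E → Bool → ℝ) (hg : ∀ e b, 0 ≤ g e b) (c : ℝ) (hc : 0 < c)
    (h : ∀ χ, P χ → c ≤ ∏ e, g e (χ e)) :
    PQ q P ≤ (∏ e, (q e * g e true + (1 - q e) * g e false)) / c := by
  classical
  rw [le_div_iff₀ hc, ← sum_prod_q]
  unfold PQ
  rw [Finset.sum_mul]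
  refine Finset.sum_le_sum fun χ _ => ?_
  have hw := wq_nonneg hq χ
  split_ifs with hP
  · exact mul_le_mul_of_nonneg_left (h χ hP) hw
  · rw [zero_mul]
    exact mul_nonneg hw (Finset.prod_nonneg fun e _ => hg e _)

/-- the number of edges of the configuration in `S` -/
def cS (S : Finset E) (χ : E → Bool) : ℕ := (S.filter (fun e => χ e = true)).card

theorem mgf (hq : ∀ e, 0 ≤ q e ∧ q e ≤ 1) (S : Finset E) (l c : ℝ) (P : (E → Bool) → Prop)
    (h : ∀ χ, P χ → c ≤ l * cS S χ) :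
    PQ q P ≤ Real.exp ((∑ e ∈ S, q e) * (Real.exp l - 1) - c) := by
  classical
  have h1 := PQ_le_prod hq P (fun e b => if e ∈ S ∧ b = true then Real.exp l else 1)
    (fun e b => by
      split_ifs
      · exact (Real.exp_pos l).le
      · exact zero_le_one) (Real.exp c) (Real.exp_pos c) (fun χ hχ => by
      have e1 : ∏ e, (if e ∈ S ∧ χ e = true then Real.exp l else 1) = Real.exp (l * cS S χ) := by
        rw [Finset.prod_ite, Finset.prod_const, Finset.prod_const_one, mul_one, ← Real.exp_nat_mul,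
          mul_comm]
        congr 3
        unfold cS
        congr 1
        ext e
        simp
      rw [e1]
      exact Real.exp_le_exp.2 (h χ hχ))
  refine h1.trans ?_
  rw [Real.exp_sub]
  refine div_le_div_of_nonneg_right ?_ (Real.exp_pos c).le
  have e2 : ∀ e : E, q e * (if e ∈ S ∧ true = true then Real.exp l else 1) +
      (1 - q e) * (if e ∈ S ∧ false = true then Real.exp l else 1) =
      if e ∈ S then 1 + q e * (Real.exp l - 1) else 1 := by
    intro e
    by_cases he : e ∈ S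
    · simp [he]
      ring
    · simp [he]
  rw [Finset.prod_congr rfl fun e _ => e2 e, Finset.prod_ite, Finset.prod_const_one, mul_one,
    Finset.sum_mul, Real.exp_sum]
  have e3 : (univ : Finset E).filter (fun e => e ∈ S) = S := by
    ext e
    simp
  rw [e3]
  refine Finset.prod_le_prod (fun e _ => ?_) (fun e _ => ?_)
  · have h2 := (hq e).1
    have h3 := (hq e).2
    have h4 := Real.exp_pos l
    nlinarith
  · have := Real.add_one_le_exp (q e * (Real.exp l - 1))
    linarith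

theorem exp_quad {l : ℝ} (h : |l| ≤ 1) : Real.exp l - 1 ≤ l + l ^ 2 := by
  have := Real.abs_exp_sub_one_sub_id_le h
  have := (abs_le.1 this).2
  linarith

/-- upper tail -/
theorem upper_q (hq : ∀ e, 0 ≤ q e ∧ q e ≤ 1) (S : Finset E) (M a h t : ℝ) (hh : 0 < h)
    (hh1 : h ≤ 1) (ha : ∑ e ∈ S, q e ≤ a) (haM : a ≤ M) (ht : a + h * M ≤ t) :
    PQ q (fun χ => t ≤ cS S χ) ≤ Real.exp (-(h ^ 2 * M / 4)) := by
  have h0 : 0 ≤ ∑ e ∈ S, q e := Finset.sum_nonneg fun e _ => (hq e).1
  refine (mgf hq S (h / 2) (h / 2 * t) _ (fun χ hχ => ?_)).trans (Real.exp_le_exp.2 ?_)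
  · exact mul_le_mul_of_nonneg_left hχ (by linarith)
  · have e1 := exp_quad (l := h / 2) (by rw [abs_of_pos (by linarith)]; linarith)
    have e2 : (∑ e ∈ S, q e) * (Real.exp (h / 2) - 1) ≤ a * (h / 2 + (h / 2) ^ 2) := by
      refine mul_le_mul ha e1 ?_ (h0.trans ha)
      have := Real.add_one_le_exp (h / 2)
      linarith
    have e3 : h / 2 * (a + h * M) ≤ h / 2 * t := mul_le_mul_of_nonneg_left ht (by linarith)
    have e4 : a * (h / 2) ^ 2 ≤ M * (h / 2) ^ 2 :=
      mul_le_mul_of_nonneg_right haM (sq_nonneg _)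
    nlinarith

/-- lower tail -/
theorem lower_q (hq : ∀ e, 0 ≤ q e ∧ q e ≤ 1) (S : Finset E) (M h t : ℝ) (hh : 0 < h)
    (hh1 : h ≤ 1) (ha : M ≤ ∑ e ∈ S, q e) (ht : t ≤ (1 - h) * M) :
    PQ q (fun χ => (cS S χ : ℝ) ≤ t) ≤ Real.exp (-(h ^ 2 * M / 4)) := by
  refine (mgf hq S (-(h / 2)) (-(h / 2) * t) _ (fun χ hχ => ?_)).trans (Real.exp_le_exp.2 ?_)
  · nlinarith
  · have e1 := exp_quad (l := -(h / 2)) (by rw [abs_neg, abs_of_pos (by linarith)]; linarith)
    have e0 : Real.exp (-(h / 2)) - 1 ≤ -(h / 2) + (h / 2) ^ 2 := by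
      refine e1.trans (le_of_eq ?_)
      ring
    have h0 : 0 ≤ ∑ e ∈ S, q e := Finset.sum_nonneg fun e _ => (hq e).1
    have e2 : (∑ e ∈ S, q e) * (Real.exp (-(h / 2)) - 1) ≤
        (∑ e ∈ S, q e) * (-(h / 2) + (h / 2) ^ 2) := mul_le_mul_of_nonneg_left e0 h0
    have e3 : (∑ e ∈ S, q e) * (-(h / 2) + (h / 2) ^ 2) ≤ M * (-(h / 2) + (h / 2) ^ 2) := by
      have : -(h / 2) + (h / 2) ^ 2 ≤ 0 := by nlinarith
      exact mul_le_mul_of_nonpos_right ha this
    nlinarith

end

section graph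
variable {n : ℕ}

/-- the pairs `v w` -/
def jv (v : Fin n) (w : {w : Fin n // w ≠ v}) : Pairs n := ⟨s(v, w.1), by
  rw [Sym2.mk_isDiag_iff]
  exact fun h => w.2 h.symm⟩

theorem jv_inj (v : Fin n) : Function.Injective (jv v) := by
  intro w w' h
  have h' := congrArg Subtype.val h
  exact Subtype.ext (Sym2.congr_right.1 h')

/-- the pairs `v w` with `w ∈ A` -/
noncomputable def Sv (v : Fin n) (A : Finset (Fin n)) : Finset (Pairs n) := by
  classical exact ((univ : Finset {w : Fin n // w ≠ v}).filter (fun w => w.1 ∈ A)).image (jv v)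

theorem sum_Sv (q : Sym2 (Fin n) → ℝ) (v : Fin n) (A : Finset (Fin n)) :
    ∑ e ∈ Sv v A, q e.1 = ∑ w ∈ A.erase v, q s(v, w) := by
  classical
  unfold Sv
  rw [Finset.sum_image (fun a _ b _ h => jv_inj v h)]
  refine Finset.sum_bij (fun w _ => w.1) ?_ ?_ ?_ ?_
  · intro w hw
    exact Finset.mem_erase.2 ⟨w.2, (Finset.mem_filter.1 hw).2⟩
  · intro a _ b _ h
    exact Subtype.ext h
  · intro w hw
    rw [Finset.mem_erase] at hw
    exact ⟨⟨w, hw.1⟩, Finset.mem_filter.2 ⟨Finset.mem_univ _, hw.2⟩, rfl⟩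
  · intro w _
    rfl

theorem cS_Sv (χ : Pairs n → Bool) (v : Fin n) (A : Finset (Fin n)) :
    cS (Sv v A) χ = {w | (gr χ).Adj v w ∧ w ∈ A}.ncard := by
  classical
  unfold cS Sv
  have h1 : (((univ : Finset {w : Fin n // w ≠ v}).filter (fun w => w.1 ∈ A)).image (jv v)).filter
      (fun e => χ e = true) = ((univ : Finset {w : Fin n // w ≠ v}).filter
        (fun w => w.1 ∈ A ∧ χ (jv v w) = true)).image (jv v) := by
    ext e
    simp only [Finset.mem_filter, Finset.mem_image, Finset.mem_univ, true_and]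
    constructor
    · rintro ⟨⟨w, hw, rfl⟩, h⟩
      exact ⟨w, ⟨hw, h⟩, rfl⟩
    · rintro ⟨w, ⟨hw, h⟩, rfl⟩
      exact ⟨⟨w, hw, rfl⟩, h⟩
  rw [h1, Finset.card_image_of_injective _ (jv_inj v), ← Set.ncard_coe_finset]
  refine Set.ncard_congr (fun w _ => w.1) ?_ ?_ ?_
  · intro w hw
    simp only [Finset.coe_filter, Finset.mem_univ, true_and, Set.mem_ofPred_eq] at hw ⊢
    exact ⟨⟨_, hw.2⟩, hw.1⟩
  · intro a b _ _ h
    exact Subtype.ext h
  · intro w hw
    obtain ⟨⟨h1, h2⟩, h3⟩ := hw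
    have hne : w ≠ v := fun h => h1 (Sym2.mk_isDiag_iff.2 h.symm)
    refine ⟨⟨w, hne⟩, ?_, rfl⟩
    simp only [Finset.coe_filter, Finset.mem_univ, true_and, Set.mem_ofPred_eq]
    exact ⟨h3, h2⟩

/-- the sum over all graphs -/
noncomputable def probQ (q : Sym2 (Fin n) → ℝ) (P : SimpleGraph (Fin n) → Prop) : ℝ := by
  classical exact ∑ G : SimpleGraph (Fin n), if P G then
    (∏ e : {e : Sym2 (Fin n) // ¬ e.IsDiag}, if e.1 ∈ G.edgeSet then q e.1 else 1 - q e.1) else 0

theorem probQ_eq (q : Sym2 (Fin n) → ℝ) (P : SimpleGraph (Fin n) → Prop) :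
    probQ q P = PQ (fun e : Pairs n => q e.1) (fun χ => P (gr χ)) := by
  classical
  unfold probQ PQ
  symm
  refine Fintype.sum_equiv (grEquiv n) _ _ (fun χ => ?_)
  have e1 : grEquiv n χ = gr χ := rfl
  rw [e1]
  by_cases h : P (gr χ)
  · rw [if_pos h, if_pos h]
    unfold wq
    refine Finset.prod_congr rfl fun e _ => ?_
    by_cases he : χ e = true
    · rw [if_pos he, if_pos ((mem_gr χ e).2 he)]
    · rw [if_neg he, if_neg (fun h' => he ((mem_gr χ e).1 h'))]
  · rw [if_neg h, if_neg h]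

end graph

end Pool.Agent.U531.SR
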