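import Pool.Agent.U531.SR.Struct
import Pool.Agent.U531.SR.Forest
import Pool.Agent.U531.SR.Conv
import Pool.Agent.N410.LD.Tame

/-!
# List edge colourings of sparse random graphs
-/

set_option autoImplicit false

namespace Pool.Agent.U531.SR

open Finset Filter Topology
open Pool.Agent.TH559.LE (Choosable)

/-- few neighbours of large degree -/
theorem few_choosable {V : Type} [Fintype V] (G : SimpleGraph V) (D b k : ℕ)
    (hD : ∀ v, dg G v ≤ D) (hk : 3 * k + 4 * b ≤ 2 * D + 1) (h2b : 2 * b ≤ D)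
    (hfew : ∀ v, {w | G.Adj v w ∧ k < dg G w}.ncard ≤ b) : Choosable G D := by
  classical
  set W : Set V := {w | k < dg G w} with hW
  let F : SimpleGraph V :=
    { Adj := fun u v => G.Adj u v ∧ u ∈ W ∧ v ∈ W
      symm := ⟨fun u v h => ⟨h.1.symm, h.2.2, h.2.1⟩⟩
      loopless := ⟨fun u h => G.loopless.irrefl u h.1⟩ }
  let H : SimpleGraph V :=
    { Adj := fun u v => G.Adj u v ∧ u ∉ W ∧ v ∉ W ∧ D + 2 ≤ dg G u + dg G v
      symm := ⟨fun u v h => ⟨h.1.symm, h.2.2.1, h.2.1, by rw [add_comm (dg G v)]; exact h.2.2.2⟩⟩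
      loopless := ⟨fun u h => G.loopless.irrefl u h.1⟩ }
  have hin : ∀ v, (G.neighborSet v ∩ W).ncard ≤ b := by
    intro v
    refine le_trans (Set.ncard_le_ncard ?_ (Set.toFinite _)) (hfew v)
    rintro w ⟨h1, h2⟩
    exact ⟨h1, h2⟩
  refine Pool.Agent.N410.LD.of_parts G F H W D (D - 2 * b) hD (fun u v => Iff.rfl)
    (fun u v => Iff.rfl) ?_ ?_ ?_ ?_
  · intro u w _ _ _
    have h1 := hin u
    have h2 := hin w
    omega
  · intro u v _
    have h1 := hin u
    have h2 := hin v
    omega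
  · apply Pool.Agent.N410.LD.ch_three F b D
    · intro v
      refine le_trans (Set.ncard_le_ncard ?_ (Set.toFinite _)) (hin v)
      intro w hw
      have hw' : F.Adj v w := hw
      exact ⟨hw'.1, hw'.2.2⟩
    · omega
  · apply Pool.Agent.N410.LD.ch_three H k (D - 2 * b)
    · intro v
      by_cases hv : v ∈ W
      · have : H.neighborSet v = ∅ := by
          ext w
          simp only [SimpleGraph.mem_neighborSet, Set.mem_empty_iff_false, iff_false]
          intro h
          have h' : H.Adj v w := h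
          exact h'.2.1 hv
        show (H.neighborSet v).ncard ≤ k
        rw [this, Set.ncard_empty]
        exact Nat.zero_le _
      · have h1 : dg G v ≤ k := not_lt.1 hv
        refine le_trans (Set.ncard_le_ncard ?_ (Set.toFinite _)) h1
        intro w hw
        have hw' : H.Adj v w := hw
        exact hw'.1
    · omega

theorem Ph_three_half : Ph 1 (1 / (2 / 3)) < 1 := by
  unfold Ph
  norm_num
  have h := Real.log_le_sub_one_of_pos (x := (3 / 2 : ℝ)) (by norm_num)
  linarith

theorem lecc_prob (κ ε : ℝ) (hκ : κ * Ph 1 (1 / (2 / 3)) < 1) (hε : 0 < ε) :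
    ∀ᶠ n : ℕ in atTop, ∀ p : ℝ, 0 ≤ p → p ≤ 1 → (n : ℝ) * p ≤ κ * Real.log n →
      1 - ε ≤ PR p (fun χ : Pairs n → Bool => ∀ D, IsMax (gr χ) D → Choosable (gr χ) D) := by
  have hκ' : max κ 1 * Ph 1 (1 / (2 / 3)) < 1 := by
    rcases le_total κ 1 with h | h
    · rw [max_eq_right h, one_mul]
      exact Ph_three_half
    · rw [max_eq_left h]
      exact hκ
  obtain ⟨b, hb⟩ := structure_thm (2 / 3) (max κ 1) (by norm_num) (by norm_num)
    (lt_of_lt_of_le one_pos (le_max_right _ _)) hκ'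
  have h1 := hb (2 * b) (2 * b) ε hε
  have h2 : ∀ᶠ n : ℕ in atTop, max 2 (1 / ε) ≤ Real.log n :=
    ev_log (eventually_ge_atTop _)
  filter_upwards [h1, h2] with n a1 a2
  intro p hp0 hp1 hpk
  have hs : 0 < Real.log n := lt_of_lt_of_le (by norm_num) ((le_max_left _ _).trans a2)
  rcases le_or_gt (1 / Real.log n) (n * p) with hc | hc
  · have hpk' : (n : ℝ) * p ≤ max κ 1 * Real.log n :=
      hpk.trans (mul_le_mul_of_nonneg_right (le_max_left _ _) hs.le)
    refine (a1 p hc hpk').trans (PR_mono hp0 hp1 (fun χ h D hD => ?_))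
    obtain ⟨h2b, hfew⟩ := h D hD
    refine few_choosable (gr χ) D b ((2 * D + 1 - 4 * b) / 3) hD.1 (by omega) h2b (fun v => ?_)
    refine le_trans (Set.ncard_le_ncard ?_ (Set.toFinite _)) (hfew v)
    rintro w ⟨hw1, hw2⟩
    refine ⟨hw1, ?_⟩
    have e1 : 2 * D + 2 ≤ 3 * dg (gr χ) w + 4 * b := by omega
    have e2 : (2 * D + 2 : ℝ) ≤ 3 * dg (gr χ) w + 4 * b := by exact_mod_cast e1
    have e3 : (0 : ℝ) ≤ b := Nat.cast_nonneg _
    push_cast
    linarith
  · have hc2 : (n : ℝ) * p ≤ 1 / 2 := by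
      have : 1 / Real.log n ≤ 1 / 2 :=
        one_div_le_one_div_of_le (by norm_num) ((le_max_left _ _).trans a2)
      linarith
    have hac := PR_acyclic hp0 hp1 hc2
    have hcomp := PR_compl p (fun χ : Pairs n → Bool => ¬ (gr χ).IsAcyclic)
    have hε' : 1 / Real.log n ≤ ε := by
      have := (le_max_right _ _).trans a2
      rw [div_le_iff₀ hε] at this
      rw [div_le_iff₀ hs]
      linarith
    have h3 : 1 - ε ≤ PR p (fun χ : Pairs n → Bool => ¬ ¬ (gr χ).IsAcyclic) := by
      rw [hcomp]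
      linarith
    refine h3.trans (PR_mono hp0 hp1 (fun χ h D hD => ?_))
    exact Pool.Agent.N410.LD.ch_bip (gr χ) D hD.1 (not_not.1 h).colorable_two

end Pool.Agent.U531.SR
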