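import Mathlib

/-!
# Random subsets with independent elements: product weights

`wt p χ` is the probability of the configuration `χ : E → Bool`, each coordinate being `true` with
probability `p`; `PR p P` is the probability of `P`.
-/

set_option autoImplicit false

namespace Pool.Agent.U531.SR

open Finset

section
variable {E : Type} [Fintype E] [DecidableEq E]

/-- probability of one value -/
noncomputable def w1 (p : ℝ) (b : Bool) : ℝ := if b then p else 1 - p

/-- probability of a configuration -/
noncomputable def wt (p : ℝ) (χ : E → Bool) : ℝ := ∏ e, w1 p (χ e)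

/-- probability of an event -/
noncomputable def PR (p : ℝ) (P : (E → Bool) → Prop) : ℝ := by
  classical exact ∑ χ : E → Bool, if P χ then wt p χ else 0

theorem PR_eq (p : ℝ) (P : (E → Bool) → Prop) [DecidablePred P] :
    PR p P = ∑ χ : E → Bool, if P χ then wt p χ else 0 := by
  unfold PR
  refine Finset.sum_congr rfl fun χ _ => ?_
  split_ifs <;> rfl

theorem PR_eq_filter (p : ℝ) (P : (E → Bool) → Prop) [DecidablePred P] :
    PR p P = ∑ χ ∈ (univ : Finset (E → Bool)).filter P, wt p χ := by
  rw [PR_eq, Finset.sum_filter]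

theorem w1_nonneg {p : ℝ} (h0 : 0 ≤ p) (h1 : p ≤ 1) (b : Bool) : 0 ≤ w1 p b := by
  unfold w1
  split_ifs <;> linarith

theorem wt_nonneg {p : ℝ} (h0 : 0 ≤ p) (h1 : p ≤ 1) (χ : E → Bool) : 0 ≤ wt p χ :=
  Finset.prod_nonneg fun _ _ => w1_nonneg h0 h1 _

/-- product functions have product expectations -/
theorem sum_prod (p : ℝ) (g : E → Bool → ℝ) :
    ∑ χ : E → Bool, wt p χ * ∏ e, g e (χ e) = ∏ e, (p * g e true + (1 - p) * g e false) := by
  classical
  have h := Finset.prod_univ_sum (fun _ : E => (univ : Finset Bool))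
    (fun e b => w1 p b * g e b)
  rw [Fintype.piFinset_univ] at h
  have h2 : ∀ e : E, ∑ b : Bool, w1 p b * g e b = p * g e true + (1 - p) * g e false := by
    intro e
    rw [Fintype.sum_bool]
    simp [w1]
  rw [Finset.prod_congr rfl fun e _ => h2 e] at h
  rw [h]
  refine Finset.sum_congr rfl fun χ _ => ?_
  rw [wt, ← Finset.prod_mul_distrib]

theorem sum_wt (p : ℝ) : ∑ χ : E → Bool, wt p χ = 1 := by
  have h := sum_prod (E := E) p (fun _ _ => 1)
  simp only [Finset.prod_const_one, mul_one] at h
  rw [h]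
  apply Finset.prod_eq_one
  intro e _
  ring

theorem PR_nonneg {p : ℝ} (h0 : 0 ≤ p) (h1 : p ≤ 1) (P : (E → Bool) → Prop) : 0 ≤ PR p P := by
  classical
  unfold PR
  refine Finset.sum_nonneg fun χ _ => ?_
  split_ifs
  · exact wt_nonneg h0 h1 χ
  · exact le_refl _

theorem PR_mono {p : ℝ} (h0 : 0 ≤ p) (h1 : p ≤ 1) {P Q : (E → Bool) → Prop}
    (h : ∀ χ, P χ → Q χ) : PR p P ≤ PR p Q := by
  classical
  unfold PR
  refine Finset.sum_le_sum fun χ _ => ?_
  by_cases hP : P χ
  · rw [if_pos hP, if_pos (h χ hP)]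
  · rw [if_neg hP]
    split_ifs
    · exact wt_nonneg h0 h1 χ
    · exact le_refl _

theorem PR_congr {p : ℝ} {P Q : (E → Bool) → Prop} (h : ∀ χ, P χ ↔ Q χ) : PR p P = PR p Q := by
  classical
  unfold PR
  refine Finset.sum_congr rfl fun χ _ => ?_
  by_cases hP : P χ
  · rw [if_pos hP, if_pos ((h χ).1 hP)]
  · rw [if_neg hP, if_neg (fun hQ => hP ((h χ).2 hQ))]

theorem PR_compl (p : ℝ) (P : (E → Bool) → Prop) : PR p (fun χ => ¬ P χ) = 1 - PR p P := by
  classical
  rw [← sum_wt (E := E) p]
  unfold PR
  rw [← Finset.sum_sub_distrib]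
  refine Finset.sum_congr rfl fun χ _ => ?_
  by_cases hP : P χ
  · simp [hP]
  · simp [hP]

theorem PR_or_le {p : ℝ} (h0 : 0 ≤ p) (h1 : p ≤ 1) (P Q : (E → Bool) → Prop) :
    PR p (fun χ => P χ ∨ Q χ) ≤ PR p P + PR p Q := by
  classical
  unfold PR
  rw [← Finset.sum_add_distrib]
  refine Finset.sum_le_sum fun χ _ => ?_
  have := wt_nonneg h0 h1 χ
  by_cases hP : P χ <;> by_cases hQ : Q χ <;> simp [hP, hQ, this]

/-- union bound -/
theorem PR_exists_le {p : ℝ} (h0 : 0 ≤ p) (h1 : p ≤ 1) {J : Type} (S : Finset J)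
    (A : J → (E → Bool) → Prop) :
    PR p (fun χ => ∃ j ∈ S, A j χ) ≤ ∑ j ∈ S, PR p (A j) := by
  classical
  unfold PR
  rw [Finset.sum_comm]
  refine Finset.sum_le_sum fun χ _ => ?_
  have hw := wt_nonneg h0 h1 χ
  split_ifs with h
  · obtain ⟨j, hj, hA⟩ := h
    have := Finset.single_le_sum (f := fun j => if A j χ then wt p χ else 0)
      (fun i _ => by split_ifs <;> simp [hw]) hj
    simpa [hA] using this
  · exact Finset.sum_nonneg fun i _ => by split_ifs <;> simp [hw]

/-- Markov's inequality for a product function -/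
theorem PR_le_prod {p : ℝ} (h0 : 0 ≤ p) (h1 : p ≤ 1) (P : (E → Bool) → Prop)
    (g : E → Bool → ℝ) (hg : ∀ e b, 0 ≤ g e b) (c : ℝ) (hc : 0 < c)
    (h : ∀ χ, P χ → c ≤ ∏ e, g e (χ e)) :
    PR p P ≤ (∏ e, (p * g e true + (1 - p) * g e false)) / c := by
  classical
  rw [le_div_iff₀ hc, ← sum_prod]
  unfold PR
  rw [Finset.sum_mul]
  refine Finset.sum_le_sum fun χ _ => ?_
  have hw := wt_nonneg h0 h1 χ
  split_ifs with hP
  · exact mul_le_mul_of_nonneg_left (h χ hP) hw
  · rw [zero_mul]
    exact mul_nonneg hw (Finset.prod_nonneg fun e _ => hg e _)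

end

section
variable {E J : Type} [Fintype E] [DecidableEq E] [Fintype J] [DecidableEq J]

/-- marginals -/
theorem PR_comp (p : ℝ) (j : J → E) (hj : Function.Injective j) (P : (J → Bool) → Prop) :
    PR p (fun χ : E → Bool => P (fun i => χ (j i))) = PR p P := by
  classical
  let C := {e : E // e ∉ Set.range j}
  let eq : E ≃ J ⊕ C := (Equiv.Set.sumCompl (Set.range j)).symm.trans
    (Equiv.sumCongr (Equiv.ofInjective j hj).symm (Equiv.refl _))
  have heq1 : ∀ i, eq.symm (Sum.inl i) = j i := by
    intro i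
    simp [eq]
  have hsum : ∑ χ : E → Bool, (if P (fun i => χ (j i)) then wt p χ else 0) =
      ∑ ψ : (J → Bool) × (C → Bool), (if P ψ.1 then wt p ψ.1 else 0) * wt p ψ.2 := by
    let F : (E → Bool) ≃ (J → Bool) × (C → Bool) :=
      ((Equiv.arrowCongr eq (Equiv.refl Bool))).trans (Equiv.sumArrowEquivProdArrow J C Bool)
    refine Fintype.sum_equiv F _ _ (fun χ => ?_)
    have e1 : (F χ).1 = fun i => χ (j i) := by
      funext i
      simp [F, Equiv.sumArrowEquivProdArrow, Equiv.arrowCongr, heq1]
    have e2 : (F χ).2 = fun i => χ (eq.symm (Sum.inr i)) := by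
      funext i
      simp [F, Equiv.sumArrowEquivProdArrow, Equiv.arrowCongr]
    have e3 : wt p χ = wt p (F χ).1 * wt p (F χ).2 := by
      rw [e1, e2]
      unfold wt
      rw [← Equiv.prod_comp eq.symm, Fintype.prod_sum_type]
      simp only [heq1]
    rw [e1] at e3 ⊢
    rw [e3]
    by_cases h : P (fun i => χ (j i))
    · rw [if_pos h, if_pos h]
    · rw [if_neg h, if_neg h, zero_mul]
  unfold PR
  rw [hsum, Fintype.sum_prod_type]
  refine Finset.sum_congr rfl fun ψ _ => ?_
  simp only
  rw [← Finset.mul_sum, sum_wt, mul_one]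

end

section
variable {I B : Type} [Fintype I] [DecidableEq I] [Fintype B] [DecidableEq B]

/-- independent blocks -/
theorem PR_blocks (p : ℝ) (R : (B → Bool) → Prop) :
    PR p (fun χ : I × B → Bool => ∀ i, R (fun b => χ (i, b))) = PR p R ^ Fintype.card I := by
  classical
  have h1 : ∑ χ : I × B → Bool, (if ∀ i, R (fun b => χ (i, b)) then wt p χ else 0) =
      ∑ ψ : I → B → Bool, ∏ i, (if R (ψ i) then wt p (ψ i) else 0) := by
    refine Fintype.sum_equiv (Equiv.curry I B Bool) _ _ (fun χ => ?_)
    have e3 : wt p χ = ∏ i, wt p (fun b => χ (i, b)) := by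
      unfold wt
      rw [Fintype.prod_prod_type]
    by_cases h : ∀ i, R (fun b => χ (i, b))
    · rw [if_pos h, e3]
      refine Finset.prod_congr rfl fun i _ => ?_
      have : Equiv.curry I B Bool χ i = fun b => χ (i, b) := rfl
      rw [this, if_pos (h i)]
    · rw [if_neg h]
      push Not at h
      obtain ⟨i, hi⟩ := h
      symm
      apply Finset.prod_eq_zero (Finset.mem_univ i)
      have : Equiv.curry I B Bool χ i = fun b => χ (i, b) := rfl
      rw [this, if_neg hi]
  have h2 := Finset.prod_univ_sum (fun _ : I => (univ : Finset (B → Bool)))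
    (fun _ x => if R x then wt p x else 0)
  rw [Fintype.piFinset_univ] at h2
  rw [← h2, Finset.prod_const, Finset.card_univ] at h1
  rw [PR_eq, PR_eq]
  exact h1

/-- point masses of the number of `true` coordinates -/
theorem PR_card (p : ℝ) (T : ℕ) :
    PR p (fun x : B → Bool => (univ.filter (fun b => x b = true)).card = T) =
      (Fintype.card B).choose T * (p ^ T * (1 - p) ^ (Fintype.card B - T)) := by
  classical
  have hw : ∀ x : B → Bool, wt p x =
      p ^ (univ.filter (fun b => x b = true)).card *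
        (1 - p) ^ (Fintype.card B - (univ.filter (fun b => x b = true)).card) := by
    intro x
    unfold wt w1
    rw [Finset.prod_ite, Finset.prod_const, Finset.prod_const]
    congr 2
    rw [← Finset.card_univ, ← Finset.card_filter_add_card_filter_not (s := univ) (fun b => x b = true)]
    omega
  rw [PR_eq_filter]
  rw [Finset.sum_congr rfl (g := fun _ => p ^ T * (1 - p) ^ (Fintype.card B - T))
    (fun x hx => by
      have := (Finset.mem_filter.1 hx).2
      rw [hw, this])]
  rw [Finset.sum_const, nsmul_eq_mul]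
  congr 1
  norm_cast
  rw [← Finset.card_univ (α := B), ← Finset.card_powersetCard]
  refine Finset.card_bij (fun x _ => univ.filter (fun b => x b = true)) ?_ ?_ ?_
  · intro x hx
    rw [Finset.mem_powersetCard]
    exact ⟨Finset.subset_univ _, (Finset.mem_filter.1 hx).2⟩
  · intro x _ y _ hxy
    funext b
    have : b ∈ univ.filter (fun b => x b = true) ↔ b ∈ univ.filter (fun b => y b = true) := by
      rw [hxy]
    simp only [Finset.mem_filter, Finset.mem_univ, true_and] at this
    exact Bool.eq_iff_iff.2 this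
  · intro s hs
    rw [Finset.mem_powersetCard] at hs
    refine ⟨fun b => decide (b ∈ s), ?_, ?_⟩
    · rw [Finset.mem_filter]
      refine ⟨Finset.mem_univ _, ?_⟩
      rw [← hs.2]
      congr 1
      ext b
      simp
    · ext b
      simp

end

end Pool.Agent.U531.SR
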