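import Pool.Agent.U531.SR.Graph

/-!
# Binomial tails: independent blocks, the second moment
-/

set_option autoImplicit false

namespace Pool.Agent.U531.SR

open Finset

/-- the number of `true` coordinates -/
def ct {B : Type} [Fintype B] (x : B → Bool) : ℕ := (univ.filter (fun b => x b = true)).card

/-- tail of the binomial distribution -/
noncomputable def BT (N t : ℕ) (p : ℝ) : ℝ := PR p (fun x : Fin N → Bool => t ≤ ct x)

theorem BT_nonneg {p : ℝ} (h0 : 0 ≤ p) (h1 : p ≤ 1) (N t : ℕ) : 0 ≤ BT N t p :=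
  PR_nonneg h0 h1 _

theorem ct_comp_le {B C : Type} [Fintype B] [Fintype C] (j : B → C) (hj : Function.Injective j)
    (x : C → Bool) : ct (fun b => x (j b)) ≤ ct x := by
  classical
  unfold ct
  refine Finset.card_le_card_of_injOn j ?_ hj.injOn
  intro b hb
  simp only [Finset.coe_filter, Finset.mem_univ, true_and, Set.mem_ofPred_eq] at hb ⊢
  exact hb

theorem PR_BT {B : Type} [Fintype B] [DecidableEq B] (p : ℝ) (t : ℕ) :
    PR p (fun x : B → Bool => t ≤ ct x) = BT (Fintype.card B) t p := by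
  classical
  have e := Fintype.equivFin B
  unfold BT
  rw [← PR_comp p e.symm e.symm.injective (fun x : Fin (Fintype.card B) → Bool => t ≤ ct x)]
  refine PR_congr fun χ => ?_
  have h1 : ct (fun i => χ (e.symm i)) = ct χ := by
    apply le_antisymm (ct_comp_le _ e.symm.injective χ)
    have := ct_comp_le e e.injective (fun i => χ (e.symm i))
    simpa using this
  rw [h1]

theorem BT_mono_N {p : ℝ} (h0 : 0 ≤ p) (h1 : p ≤ 1) {N N' : ℕ} (h : N ≤ N') (t : ℕ) :
    BT N t p ≤ BT N' t p := by
  unfold BT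
  rw [← PR_comp p (Fin.castLE h) (Fin.castLE_injective h) (fun x : Fin N → Bool => t ≤ ct x)]
  exact PR_mono h0 h1 fun χ hχ => hχ.trans (ct_comp_le _ (Fin.castLE_injective h) χ)

theorem BT_anti {p : ℝ} (h0 : 0 ≤ p) (h1 : p ≤ 1) (N : ℕ) {t t' : ℕ} (h : t ≤ t') :
    BT N t' p ≤ BT N t p :=
  PR_mono h0 h1 fun _ hχ => h.trans hχ

theorem BT_zero (N : ℕ) (p : ℝ) : BT N 0 p = 1 := by
  classical
  unfold BT
  rw [PR_eq, ← sum_wt (E := Fin N) p]
  simp

section
variable {A B : Type} [Fintype A] [DecidableEq A] [Fintype B] [DecidableEq B]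

/-- two independent blocks -/
theorem PR_sum (p : ℝ) (P : (A → Bool) → Prop) (Q : (B → Bool) → Prop) :
    PR p (fun χ : A ⊕ B → Bool => P (fun a => χ (Sum.inl a)) ∧ Q (fun b => χ (Sum.inr b))) =
      PR p P * PR p Q := by
  classical
  rw [PR_eq, PR_eq, PR_eq, Finset.sum_mul_sum, ← Fintype.sum_prod_type']
  refine Fintype.sum_equiv (Equiv.sumArrowEquivProdArrow A B Bool) _ _ (fun χ => ?_)
  have e3 : wt p χ = wt p (fun a => χ (Sum.inl a)) * wt p (fun b => χ (Sum.inr b)) := by
    unfold wt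
    rw [Fintype.prod_sum_type]
  show _ = (if P (fun a => χ (Sum.inl a)) then wt p (fun a => χ (Sum.inl a)) else 0) *
    (if Q (fun b => χ (Sum.inr b)) then wt p (fun b => χ (Sum.inr b)) else 0)
  rw [e3]
  by_cases h1 : P (fun a => χ (Sum.inl a)) <;> by_cases h2 : Q (fun b => χ (Sum.inr b)) <;>
    simp [h1, h2]

theorem PR_all_le {p : ℝ} (h0 : 0 ≤ p) (h1 : p ≤ 1) :
    PR p (fun χ : A → Bool => ∀ a, χ a = true) ≤ p ^ Fintype.card A := by
  classical
  have h := PR_le_prod h0 h1 (fun χ : A → Bool => ∀ a, χ a = true) (fun _ b => if b then 1 else 0)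
    (fun _ b => by split_ifs <;> norm_num) 1 one_pos (fun ψ hψ => by
      rw [Finset.prod_eq_one]
      intro e _
      simp [hψ e])
  refine h.trans (le_of_eq ?_)
  simp

end

theorem PR_Ev' {n : ℕ} (v : Fin n) (S : Finset (Fin n)) (hv : v ∉ S) (hS : S.Nonempty) {p : ℝ}
    (h0 : 0 ≤ p) (h1 : p ≤ 1) (j : ℕ) :
    PR p (fun χ : Pairs n → Bool => Ev v S (gr χ) j) ≤ (p * BT (n - 2) j p) ^ S.card := by
  classical
  set P : ({w // w ∈ S} × {u // u ∉ insert v S} → Bool) → Prop :=
    fun ψ => ∀ w, j ≤ ct (fun u => ψ (w, u)) with hP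
  set Q : ({w // w ∈ S} → Bool) → Prop := fun ψ => ∀ w, ψ w = true with hQ
  have step1 : PR p (fun χ : Pairs n → Bool => Ev v S (gr χ) j) ≤
      PR p (fun χ : Jx v S → Bool => P (fun a => χ (Sum.inl a)) ∧ Q (fun b => χ (Sum.inr b))) := by
    rw [← PR_comp p (jx v S hv) (jx_inj v S hv)
      (fun χ : Jx v S → Bool => P (fun a => χ (Sum.inl a)) ∧ Q (fun b => χ (Sum.inr b)))]
    refine PR_mono h0 h1 (fun χ h => ?_)
    refine ⟨fun w => ?_, fun w => ?_⟩
    · refine (h w.1 w.2).2.trans (le_of_eq ?_)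
      unfold ct
      rw [← Set.ncard_coe_finset]
      refine Set.ncard_congr (fun u hu => ⟨u, hu.1⟩) ?_ ?_ ?_
      · intro u hu
        simp only [Finset.coe_filter, Finset.mem_univ, true_and, Set.mem_ofPred_eq]
        exact (gr_adj χ w.1 u _).1 hu.2
      · intro u u' _ _ h
        exact congrArg Subtype.val h
      · intro u hu
        simp only [Finset.coe_filter, Finset.mem_univ, true_and, Set.mem_ofPred_eq] at hu
        exact ⟨u.1, ⟨u.2, (gr_adj χ w.1 u.1 _).2 hu⟩, rfl⟩
    · exact (gr_adj χ v w.1 _).1 (h w.1 w.2).1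
  refine step1.trans ?_
  rw [PR_sum, hP, PR_blocks p (fun x : {u // u ∉ insert v S} → Bool => j ≤ ct x), PR_BT,
    Fintype.card_coe, mul_comm, mul_pow]
  have e1 : PR p Q ≤ p ^ S.card := by
    have := PR_all_le (A := {w // w ∈ S}) h0 h1
    rwa [Fintype.card_coe] at this
  refine mul_le_mul e1 ?_ (pow_nonneg (BT_nonneg h0 h1 _ _) _) (by positivity)
  refine pow_le_pow_left₀ (BT_nonneg h0 h1 _ _) (BT_mono_N h0 h1 ?_ j) _
  have h2 : Fintype.card {u // u ∉ insert v S} = n - (insert v S).card := by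
    rw [Fintype.card_subtype_compl, Fintype.card_fin, Fintype.card_coe]
  rw [h2, Finset.card_insert_of_notMem hv]
  have := hS.card_pos
  omega

/-- no vertex has more than `b` neighbours of degree at least `j + b + 1` -/
theorem PR_many' {n : ℕ} {p : ℝ} (h0 : 0 ≤ p) (h1 : p ≤ 1) (j b : ℕ) :
    PR p (fun χ : Pairs n → Bool =>
      ∃ v, b < {w | (gr χ).Adj v w ∧ j + b + 1 ≤ dg (gr χ) w}.ncard) ≤
      n * (n * p * BT (n - 2) j p) ^ (b + 1) := by
  classical
  have hx : 0 ≤ BT (n - 2) j p := BT_nonneg h0 h1 _ _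
  -- inclusion
  have hinc : ∀ χ : Pairs n → Bool,
      (∃ v, b < {w | (gr χ).Adj v w ∧ j + b + 1 ≤ dg (gr χ) w}.ncard) →
      ∃ v ∈ (univ : Finset (Fin n)), ∃ S ∈ (univ.erase v).powersetCard (b + 1),
        Ev v S (gr χ) j := by
    rintro χ ⟨v, hv⟩
    refine ⟨v, Finset.mem_univ _, ?_⟩
    set W : Set (Fin n) := {w | (gr χ).Adj v w ∧ j + b + 1 ≤ dg (gr χ) w} with hW
    have hcard : b + 1 ≤ (Set.toFinite W).toFinset.card := by
      rw [← Set.ncard_eq_toFinset_card W]
      exact hv
    obtain ⟨S, hS, hSc⟩ := Finset.exists_subset_card_eq hcard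
    have hSW : ∀ w ∈ S, w ∈ W := fun w hw => (Set.Finite.mem_toFinset _).1 (hS hw)
    have hvS : v ∉ S := fun h => (gr χ).loopless.irrefl v (hSW v h).1
    refine ⟨S, ?_, ?_⟩
    · rw [Finset.mem_powersetCard]
      refine ⟨fun w hw => Finset.mem_erase.2 ⟨?_, Finset.mem_univ _⟩, hSc⟩
      rintro rfl
      exact hvS hw
    · intro w hw
      refine ⟨(hSW w hw).1, ?_⟩
      have hd := (hSW w hw).2
      have hsplit : dg (gr χ) w ≤ {u | u ∉ insert v S ∧ (gr χ).Adj w u}.ncard +
          ((insert v S).erase w).card := by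
        unfold dg
        rw [← Set.ncard_coe_finset ((insert v S).erase w)]
        refine le_trans (Set.ncard_le_ncard ?_ (Set.toFinite _)) (Set.ncard_union_le _ _)
        intro u hu
        have hu' : (gr χ).Adj w u := hu
        by_cases h : u ∈ insert v S
        · right
          rw [Finset.mem_coe, Finset.mem_erase]
          refine ⟨?_, h⟩
          rintro rfl
          exact (gr χ).loopless.irrefl _ hu'
        · left
          exact ⟨h, hu'⟩
      have hc : ((insert v S).erase w).card = b + 1 := by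
        rw [Finset.card_erase_of_mem (Finset.mem_insert_of_mem hw),
          Finset.card_insert_of_notMem hvS, hSc]
        rfl
      omega
  refine (PR_mono h0 h1 hinc).trans ?_
  refine (PR_exists_le h0 h1 _ _).trans ?_
  have hv : ∀ v : Fin n, PR p (fun χ : Pairs n → Bool =>
      ∃ S ∈ (univ.erase v).powersetCard (b + 1), Ev v S (gr χ) j) ≤
        (n * p * BT (n - 2) j p) ^ (b + 1) := by
    intro v
    refine (PR_exists_le h0 h1 _ _).trans ?_
    have hS : ∀ S ∈ (univ.erase v).powersetCard (b + 1),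
        PR p (fun χ : Pairs n → Bool => Ev v S (gr χ) j) ≤
          (p * BT (n - 2) j p) ^ (b + 1) := by
      intro S hS
      rw [Finset.mem_powersetCard] at hS
      have hvS : v ∉ S := fun h => (Finset.mem_erase.1 (hS.1 h)).1 rfl
      have := PR_Ev' v S hvS (Finset.card_pos.1 (by omega)) h0 h1 j
      rwa [hS.2] at this
    refine (Finset.sum_le_sum hS).trans ?_
    rw [Finset.sum_const, nsmul_eq_mul, Finset.card_powersetCard,
      Finset.card_erase_of_mem (Finset.mem_univ _), Finset.card_univ, Fintype.card_fin]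
    rw [show (n : ℝ) * p * BT (n - 2) j p =
      n * (p * BT (n - 2) j p) by ring, mul_pow (n : ℝ)]
    refine mul_le_mul_of_nonneg_right ?_ (by positivity)
    have h1 : ((n - 1).choose (b + 1)) ≤ (n - 1) ^ (b + 1) := Nat.choose_le_pow _ _
    have h2 : (n - 1) ^ (b + 1) ≤ n ^ (b + 1) := Nat.pow_le_pow_left (Nat.sub_le _ _) _
    exact_mod_cast h1.trans h2
  refine (Finset.sum_le_sum fun v _ => hv v).trans ?_
  rw [Finset.sum_const, nsmul_eq_mul, Finset.card_univ, Fintype.card_fin]

section pair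
variable {n : ℕ} (u v : Fin n)

/-- the other vertices -/
abbrev Wt : Type := {w : Fin n // w ≠ u ∧ w ≠ v}

/-- the edges at `u` and `v` -/
def jp (huv : u ≠ v) : (Bool × Wt u v) ⊕ Unit → Pairs n
  | Sum.inl (b, w) => ⟨s((if b then u else v), w.1), by
      rw [Sym2.mk_isDiag_iff]
      intro h
      cases b
      · exact w.2.2 h.symm
      · exact w.2.1 h.symm⟩
  | Sum.inr _ => ⟨s(u, v), by
      rw [Sym2.mk_isDiag_iff]
      exact huv⟩

theorem jp_inj (huv : u ≠ v) : Function.Injective (jp u v huv) := by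
  rintro (⟨b, w⟩ | _) (⟨b', w'⟩ | _) h
  · have h' := congrArg Subtype.val h
    simp only [jp] at h'
    rw [Sym2.eq_iff] at h'
    rcases h' with ⟨h1, h2⟩ | ⟨h1, h2⟩
    · have hb : b = b' := by
        cases b <;> cases b'
        · rfl
        · exact absurd h1.symm huv
        · exact absurd h1 huv
        · rfl
      rw [hb, Subtype.ext h2]
    · exfalso
      cases b
      · exact w'.2.2 h1.symm
      · exact w'.2.1 h1.symm
  · have h' := congrArg Subtype.val h
    simp only [jp] at h'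
    rw [Sym2.eq_iff] at h'
    rcases h' with ⟨h1, h2⟩ | ⟨h1, h2⟩
    · exact absurd h2 w.2.2
    · exact absurd h2 w.2.1
  · have h' := congrArg Subtype.val h
    simp only [jp] at h'
    rw [Sym2.eq_iff] at h'
    rcases h' with ⟨h1, h2⟩ | ⟨h1, h2⟩
    · exact absurd h2.symm w'.2.2
    · exact absurd h1.symm w'.2.1
  · rfl

theorem card_Wt (huv : u ≠ v) : Fintype.card (Wt u v) = n - 2 := by
  classical
  have h2 : Fintype.card {w : Fin n // ¬ (w ∈ ({u, v} : Finset (Fin n)))} =
      n - ({u, v} : Finset (Fin n)).card := by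
    rw [Fintype.card_subtype_compl, Fintype.card_fin, Fintype.card_coe]
  rw [Finset.card_pair huv] at h2
  rw [← h2]
  refine Fintype.card_congr (Equiv.subtypeEquivRight fun w => ?_)
  simp

/-- degree outside `u`, `v` -/
def dW (huv : u ≠ v) (χ : Pairs n → Bool) (b : Bool) : ℕ :=
  ct (fun w : Wt u v => χ (jp u v huv (Sum.inl (b, w))))

theorem dW_le (huv : u ≠ v) (χ : Pairs n → Bool) (b : Bool) :
    dW u v huv χ b ≤ dg (gr χ) (if b then u else v) := by
  unfold dW ct dg
  rw [← Set.ncard_coe_finset]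
  refine Set.ncard_le_ncard_of_injOn (fun k => k.1) ?_ Subtype.val_injective.injOn
    (Set.toFinite _)
  intro k hk
  simp only [Finset.coe_filter, Finset.mem_univ, true_and, Set.mem_ofPred_eq] at hk
  exact ⟨_, hk⟩

theorem le_dW (huv : u ≠ v) (χ : Pairs n → Bool) (b : Bool) :
    dg (gr χ) (if b then u else v) ≤
      dW u v huv χ b + (if χ (jp u v huv (Sum.inr ())) = true then 1 else 0) := by
  classical
  set F : Finset (Wt u v) :=
    univ.filter (fun w => χ (jp u v huv (Sum.inl (b, w))) = true) with hF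
  have hFc : dW u v huv χ b = F.card := rfl
  rw [hFc]
  unfold dg
  have himg : ((F.image Subtype.val : Finset (Fin n)) : Set (Fin n)).ncard = F.card := by
    rw [Set.ncard_coe_finset, Finset.card_image_of_injective _ Subtype.val_injective]
  rw [← himg]
  have hcase : ∀ w, (gr χ).Adj (if b then u else v) w → w ≠ u → w ≠ v →
      w ∈ ((F.image Subtype.val : Finset (Fin n)) : Set (Fin n)) := by
    intro w hw h1 h2
    rw [Finset.mem_coe, Finset.mem_image]
    refine ⟨⟨w, h1, h2⟩, ?_, rfl⟩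
    rw [hF, Finset.mem_filter]
    obtain ⟨_, h⟩ := hw
    exact ⟨Finset.mem_univ _, h⟩
  have hother : ∀ w, (gr χ).Adj (if b then u else v) w → (w = u ∨ w = v) →
      w = (if b then v else u) ∧ χ (jp u v huv (Sum.inr ())) = true := by
    intro w hw h
    cases b
    · have hw' : (gr χ).Adj v w := hw
      rcases h with rfl | rfl
      · refine ⟨rfl, ?_⟩
        obtain ⟨_, h⟩ := hw'.symm
        exact h
      · exact absurd hw' ((gr χ).loopless.irrefl _)
    · have hw' : (gr χ).Adj u w := hw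
      rcases h with rfl | rfl
      · exact absurd hw' ((gr χ).loopless.irrefl _)
      · refine ⟨rfl, ?_⟩
        obtain ⟨_, h⟩ := hw'
        exact h
  by_cases hχ : χ (jp u v huv (Sum.inr ())) = true
  · rw [if_pos hχ]
    refine le_trans (Set.ncard_le_ncard (t := ((F.image Subtype.val : Finset (Fin n)) :
      Set (Fin n)) ∪ {if b then v else u}) ?_ (Set.toFinite _)) ?_
    · intro w hw
      by_cases h : w = u ∨ w = v
      · right
        exact (hother w hw h).1
      · left
        push Not at h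
        exact hcase w hw h.1 h.2
    · refine (Set.ncard_union_le _ _).trans ?_
      rw [Set.ncard_singleton]
  · rw [if_neg hχ, add_zero]
    refine Set.ncard_le_ncard ?_ (Set.toFinite _)
    intro w hw
    by_cases h : w = u ∨ w = v
    · exact absurd (hother w hw h).2 hχ
    · push Not at h
      exact hcase w hw h.1 h.2

theorem PR_both (huv : u ≠ v) {p : ℝ} (h0 : 0 ≤ p) (h1 : p ≤ 1) (T : ℕ) :
    PR p (fun χ : Pairs n → Bool => T ≤ dg (gr χ) u ∧ T ≤ dg (gr χ) v) ≤
      p * BT (n - 2) (T - 1) p ^ 2 + BT (n - 2) T p ^ 2 := by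
  classical
  have hgen : ∀ t : ℕ, PR p (fun χ : Bool × Wt u v → Bool => ∀ i, t ≤ ct (fun w => χ (i, w))) =
      BT (n - 2) t p ^ 2 := by
    intro t
    rw [PR_blocks p (fun x : Wt u v → Bool => t ≤ ct x), PR_BT, card_Wt u v huv, Fintype.card_bool]
  set R : ℕ → (Bool × Wt u v → Bool) → Prop := fun t χ => ∀ i, t ≤ ct (fun w => χ (i, w)) with hR
  have e1 : PR p (fun χ : Pairs n → Bool =>
      R (T - 1) (fun a => χ (jp u v huv (Sum.inl a))) ∧
        (fun x : Unit → Bool => ∀ a, x a = true) (fun a => χ (jp u v huv (Sum.inr a)))) ≤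
      p * BT (n - 2) (T - 1) p ^ 2 := by
    rw [PR_comp p (jp u v huv) (jp_inj u v huv)
      (fun χ : (Bool × Wt u v) ⊕ Unit → Bool => R (T - 1) (fun a => χ (Sum.inl a)) ∧
        (fun x : Unit → Bool => ∀ a, x a = true) (fun a => χ (Sum.inr a)))]
    have hs := PR_sum p (R (T - 1)) (fun x : Unit → Bool => ∀ a, x a = true)
    rw [hs, hR, hgen, mul_comm]
    refine mul_le_mul_of_nonneg_right ?_ (sq_nonneg _)
    have := PR_all_le (A := Unit) h0 h1
    rwa [Fintype.card_unit, pow_one] at this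
  have e2 : PR p (fun χ : Pairs n → Bool => R T (fun a => χ (jp u v huv (Sum.inl a)))) =
      BT (n - 2) T p ^ 2 := by
    rw [PR_comp p (fun a => jp u v huv (Sum.inl a))
      (fun a b h => Sum.inl.inj (jp_inj u v huv h)) (R T), hR, hgen]
  rw [← e2]
  refine le_trans (le_trans (PR_mono h0 h1 (fun χ h => ?_)) (PR_or_le h0 h1 _ _))
    (add_le_add_left e1 _)
  have a1 := le_dW u v huv χ true
  have a2 := le_dW u v huv χ false
  simp only [if_true, Bool.false_eq_true, if_false] at a1 a2
  by_cases hχ : χ (jp u v huv (Sum.inr ())) = true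
  · left
    rw [if_pos hχ] at a1 a2
    refine ⟨fun i => ?_, fun a => by cases a; exact hχ⟩
    cases i
    · have : T - 1 ≤ dW u v huv χ false := by omega
      exact this
    · have : T - 1 ≤ dW u v huv χ true := by omega
      exact this
  · right
    rw [if_neg hχ] at a1 a2
    intro i
    cases i
    · have : T ≤ dW u v huv χ false := by omega
      exact this
    · have : T ≤ dW u v huv χ true := by omega
      exact this

theorem PR_dg_ge (huv : u ≠ v) {p : ℝ} (h0 : 0 ≤ p) (h1 : p ≤ 1) (T : ℕ) :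
    BT (n - 2) T p ≤ PR p (fun χ : Pairs n → Bool => T ≤ dg (gr χ) v) := by
  classical
  rw [← card_Wt u v huv, ← PR_BT, ← PR_comp p (fun w : Wt u v => jp u v huv (Sum.inl (false, w)))
    (fun a b h => (Prod.mk.inj (Sum.inl.inj (jp_inj u v huv h))).2)]
  refine PR_mono h0 h1 (fun χ h => ?_)
  have := dW_le u v huv χ false
  exact h.trans this

theorem PR_dg_le (huv : u ≠ v) {p : ℝ} (h0 : 0 ≤ p) (h1 : p ≤ 1) (T : ℕ) :
    PR p (fun χ : Pairs n → Bool => T + 1 ≤ dg (gr χ) v) ≤ BT (n - 2) T p := by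
  classical
  rw [← card_Wt u v huv, ← PR_BT, ← PR_comp p (fun w : Wt u v => jp u v huv (Sum.inl (false, w)))
    (fun a b h => (Prod.mk.inj (Sum.inl.inj (jp_inj u v huv h))).2)]
  refine PR_mono h0 h1 (fun χ h => ?_)
  have a2 := le_dW u v huv χ false
  simp only [Bool.false_eq_true, if_false] at a2
  have h3 : T ≤ dW u v huv χ false := by
    split_ifs at a2 <;> omega
  exact h3

end pair

end Pool.Agent.U531.SR
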