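import Pool.Agent.U531.SR.Tail

/-!
# Binomial tails: ratios, Chernoff bound, second moment
-/

set_option autoImplicit false

namespace Pool.Agent.U531.SR

open Finset

/-- point masses -/
noncomputable def pm (N i : ℕ) (p : ℝ) : ℝ := (N.choose i : ℝ) * (p ^ i * (1 - p) ^ (N - i))

theorem pm_nonneg {p : ℝ} (h0 : 0 ≤ p) (h1 : p ≤ 1) (N i : ℕ) : 0 ≤ pm N i p := by
  unfold pm
  have : 0 ≤ 1 - p := by linarith
  positivity

theorem BT_eq_sum (N t : ℕ) (p : ℝ) : BT N t p = ∑ i ∈ Ico t (N + 1), pm N i p := by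
  classical
  have h1 : ∀ i, pm N i p = ∑ x : Fin N → Bool, if ct x = i then wt p x else 0 := by
    intro i
    have := PR_card (B := Fin N) p i
    rw [Fintype.card_fin, PR_eq] at this
    exact this.symm
  simp_rw [h1]
  rw [Finset.sum_comm]
  unfold BT
  rw [PR_eq]
  refine Finset.sum_congr rfl fun x _ => ?_
  have hx : ct x ≤ N := by
    unfold ct
    refine (Finset.card_le_univ _).trans ?_
    rw [Fintype.card_fin]
  by_cases h : t ≤ ct x
  · rw [if_pos h, Finset.sum_ite_eq, if_pos (Finset.mem_Ico.2 ⟨h, by omega⟩)]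
  · rw [if_neg h]
    symm
    apply Finset.sum_eq_zero
    intro i hi
    rw [Finset.mem_Ico] at hi
    rw [if_neg (by omega)]

theorem pm_step {N i : ℕ} {p ρ : ℝ} (h0 : 0 ≤ p) (h1 : p ≤ 1) (hi : i + 1 ≤ N)
    (h : ((i : ℝ) + 1) * (1 - p) ≤ ρ * (((N : ℝ) - i) * p)) : pm N i p ≤ ρ * pm N (i + 1) p := by
  have hq : 0 ≤ 1 - p := by linarith
  unfold pm
  have e1 : (N.choose (i + 1) : ℝ) * ((i : ℝ) + 1) = N.choose i * ((N : ℝ) - i) := by
    have := Nat.choose_succ_right_eq N i
    have h2 : ((N - i : ℕ) : ℝ) = (N : ℝ) - i := by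
      rw [Nat.cast_sub (by omega)]
    rw [← h2]
    exact_mod_cast this
  have e2 : (1 - p) ^ (N - i) = (1 - p) ^ (N - (i + 1)) * (1 - p) := by
    rw [← pow_succ]
    congr 1
    omega
  have hi1 : (0 : ℝ) < (i : ℝ) + 1 := by positivity
  refine le_of_mul_le_mul_right ?_ hi1
  rw [e2]
  set A : ℝ := (N.choose i : ℝ) * (p ^ i * (1 - p) ^ (N - (i + 1))) with hA
  have hA0 : 0 ≤ A := by positivity
  calc (N.choose i : ℝ) * (p ^ i * ((1 - p) ^ (N - (i + 1)) * (1 - p))) * ((i : ℝ) + 1)
      = A * (((i : ℝ) + 1) * (1 - p)) := by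
        rw [hA]
        ring
    _ ≤ A * (ρ * (((N : ℝ) - i) * p)) := mul_le_mul_of_nonneg_left h hA0
    _ = ρ * ((N.choose i * ((N : ℝ) - i)) * (p ^ (i + 1) * (1 - p) ^ (N - (i + 1)))) := by
        rw [hA]
        ring
    _ = ρ * ((N.choose (i + 1) : ℝ) * (p ^ (i + 1) * (1 - p) ^ (N - (i + 1)))) *
          ((i : ℝ) + 1) := by
        rw [← e1]
        ring

theorem pm_steps {N M : ℕ} {p ρ : ℝ} (h0 : 0 ≤ p) (h1 : p ≤ 1) (hρ : 0 ≤ ρ) (hM : M + 1 ≤ N)
    (h : ((M : ℝ) + 1) * (1 - p) ≤ ρ * (((N : ℝ) - M) * p)) (s : ℕ) :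
    ∀ i, i + s ≤ M + 1 → pm N i p ≤ ρ ^ s * pm N (i + s) p := by
  have hq : 0 ≤ 1 - p := by linarith
  induction s with
  | zero =>
    intro i _
    simp
  | succ s ih =>
    intro i hi
    refine (ih i (by omega)).trans ?_
    have hstep : pm N (i + s) p ≤ ρ * pm N (i + s + 1) p := by
      apply pm_step h0 h1 (by omega)
      have hle : ((i + s : ℕ) : ℝ) ≤ M := by exact_mod_cast (by omega : i + s ≤ M)
      calc (((i + s : ℕ) : ℝ) + 1) * (1 - p) ≤ ((M : ℝ) + 1) * (1 - p) :=
            mul_le_mul_of_nonneg_right (by linarith) hq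
        _ ≤ ρ * (((N : ℝ) - M) * p) := h
        _ ≤ ρ * (((N : ℝ) - ((i + s : ℕ) : ℝ)) * p) :=
            mul_le_mul_of_nonneg_left (mul_le_mul_of_nonneg_right (by linarith) h0) hρ
    calc ρ ^ s * pm N (i + s) p ≤ ρ ^ s * (ρ * pm N (i + s + 1) p) :=
          mul_le_mul_of_nonneg_left hstep (pow_nonneg hρ s)
      _ = ρ ^ (s + 1) * pm N (i + (s + 1)) p := by
          rw [← add_assoc, pow_succ]
          ring

/-- comparison of tails -/
theorem BT_ratio {N M : ℕ} {p ρ : ℝ} (h0 : 0 ≤ p) (h1 : p ≤ 1) (hρ : 0 ≤ ρ) (hM : M + 1 ≤ N)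
    (h : ((M : ℝ) + 1) * (1 - p) ≤ ρ * (((N : ℝ) - M) * p)) (s t : ℕ) (hs : s ≤ M + 2) :
    BT N t p ≤ ρ ^ s * BT N (t + s) p + BT N (M + 2 - s) p := by
  classical
  rw [BT_eq_sum N t, BT_eq_sum N (t + s), BT_eq_sum N (M + 2 - s),
    ← Finset.sum_filter_add_sum_filter_not (Ico t (N + 1)) (fun i => i + s ≤ M + 1)]
  refine add_le_add ?_ ?_
  · calc ∑ i ∈ (Ico t (N + 1)).filter (fun i => i + s ≤ M + 1), pm N i p
        ≤ ∑ i ∈ (Ico t (N + 1)).filter (fun i => i + s ≤ M + 1), ρ ^ s * pm N (i + s) p := by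
          refine Finset.sum_le_sum fun i hi => ?_
          exact pm_steps h0 h1 hρ hM h s i (Finset.mem_filter.1 hi).2
      _ = ρ ^ s * ∑ i ∈ (Ico t (N + 1)).filter (fun i => i + s ≤ M + 1), pm N (i + s) p := by
          rw [Finset.mul_sum]
      _ = ρ ^ s * ∑ k ∈ ((Ico t (N + 1)).filter (fun i => i + s ≤ M + 1)).image (· + s),
            pm N k p := by
          rw [Finset.sum_image (fun a _ b _ hab => Nat.add_right_cancel hab)]
      _ ≤ ρ ^ s * ∑ i ∈ Ico (t + s) (N + 1), pm N i p := by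
          refine mul_le_mul_of_nonneg_left ?_ (pow_nonneg hρ s)
          refine Finset.sum_le_sum_of_subset_of_nonneg ?_ (fun i _ _ => pm_nonneg h0 h1 N i)
          intro k hk
          obtain ⟨i, hi, rfl⟩ := Finset.mem_image.1 hk
          rw [Finset.mem_filter, Finset.mem_Ico] at hi
          rw [Finset.mem_Ico]
          omega
  · refine Finset.sum_le_sum_of_subset_of_nonneg ?_ (fun i _ _ => pm_nonneg h0 h1 N i)
    intro k hk
    rw [Finset.mem_filter, Finset.mem_Ico] at hk
    rw [Finset.mem_Ico]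
    omega

theorem BT_chernoff {N t : ℕ} {p μ y : ℝ} (h0 : 0 ≤ p) (h1 : p ≤ 1) (hμ : 0 < μ)
    (hN : (N : ℝ) * p ≤ μ) (hy : 0 ≤ y) (hyμ : y ≤ μ) (ht : μ + y ≤ t) :
    BT N t p ≤ Real.exp (-(y ^ 2 / (4 * μ))) := by
  classical
  set x : ℝ := y / (2 * μ) with hx
  have hx0 : 0 ≤ x := by positivity
  have hz : (1 : ℝ) ≤ 1 + x := by linarith
  have hz0 : (0 : ℝ) < 1 + x := by linarith
  have step : BT N t p ≤ (1 + p * x) ^ N / (1 + x) ^ t := by
    unfold BT
    have h := PR_le_prod h0 h1 (fun x : Fin N → Bool => t ≤ ct x)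
      (fun _ b => if b then 1 + x else 1) (fun _ b => by split_ifs <;> linarith) ((1 + x) ^ t)
      (by positivity) (fun ψ hψ => by
        rw [Finset.prod_ite, Finset.prod_const, Finset.prod_const_one, mul_one]
        exact pow_le_pow_right₀ hz hψ)
    refine h.trans (le_of_eq ?_)
    congr 1
    rw [Finset.prod_congr rfl (g := fun _ => 1 + p * x) (fun e _ => by
      simp only [if_true, Bool.false_eq_true, if_false]
      ring), Finset.prod_const, Finset.card_univ, Fintype.card_fin]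
  refine step.trans ?_
  have e1 : (1 + p * x) ^ N ≤ Real.exp (μ * x) := by
    calc (1 + p * x) ^ N ≤ (Real.exp (p * x)) ^ N := by
          apply pow_le_pow_left₀ (by positivity)
          have := Real.add_one_le_exp (p * x)
          linarith
      _ = Real.exp (N * p * x) := by
          rw [← Real.exp_nat_mul]
          congr 1
          ring
      _ ≤ Real.exp (μ * x) := Real.exp_le_exp.2 (mul_le_mul_of_nonneg_right hN hx0)
  have e2 : Real.exp ((μ + y) * (x - x ^ 2 / 2)) ≤ (1 + x) ^ t := by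
    have hl : x - x ^ 2 / 2 ≤ Real.log (1 + x) := by
      have := Real.le_log_one_add_of_nonneg hx0
      refine le_trans ?_ this
      rw [le_div_iff₀ (by linarith)]
      nlinarith [pow_nonneg hx0 3]
    have hx1 : x ≤ 1 / 2 := by
      rw [hx, div_le_iff₀ (by positivity)]
      linarith
    have hpos : 0 ≤ x - x ^ 2 / 2 := by nlinarith
    calc Real.exp ((μ + y) * (x - x ^ 2 / 2)) ≤ Real.exp (t * Real.log (1 + x)) := by
          apply Real.exp_le_exp.2
          exact mul_le_mul ht hl hpos (by positivity)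
      _ = (1 + x) ^ t := by
          rw [← Real.log_pow, Real.exp_log (by positivity)]
  calc (1 + p * x) ^ N / (1 + x) ^ t
      ≤ Real.exp (μ * x) / Real.exp ((μ + y) * (x - x ^ 2 / 2)) :=
        div_le_div₀ (Real.exp_pos _).le e1 (Real.exp_pos _) e2
    _ = Real.exp (μ * x - (μ + y) * (x - x ^ 2 / 2)) := by rw [Real.exp_sub]
    _ ≤ Real.exp (-(y ^ 2 / (4 * μ))) := by
        apply Real.exp_le_exp.2
        have hxy : x * (2 * μ) = y := by
          rw [hx]
          field_simp
        have e3 : y ^ 2 / (4 * μ) = μ * x ^ 2 := by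
          rw [← hxy]
          field_simp
          ring
        rw [e3]
        nlinarith [mul_nonneg (sq_nonneg x) (sub_nonneg.2 hyμ)]

section sm
variable {E V : Type} [Fintype E] [DecidableEq E] [Fintype V]

/-- the second moment method -/
theorem second_moment {p : ℝ} (h0 : 0 ≤ p) (h1 : p ≤ 1) (A : V → (E → Bool) → Prop) :
    (∑ v, PR p (A v)) ^ 2 ≤
      PR p (fun χ => ∃ v, A v χ) * ∑ u, ∑ v, PR p (fun χ => A u χ ∧ A v χ) := by
  classical
  set X : (E → Bool) → ℝ := fun χ => ∑ v, if A v χ then 1 else 0 with hX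
  have hX0 : ∀ χ, 0 ≤ X χ := fun χ => Finset.sum_nonneg fun v _ => by split_ifs <;> norm_num
  have e1 : ∑ v, PR p (A v) = ∑ χ, wt p χ * X χ := by
    simp_rw [PR_eq]
    rw [Finset.sum_comm]
    refine Finset.sum_congr rfl fun χ _ => ?_
    rw [hX, Finset.mul_sum]
    refine Finset.sum_congr rfl fun v _ => ?_
    split_ifs <;> simp
  have e2 : ∑ u, ∑ v, PR p (fun χ => A u χ ∧ A v χ) = ∑ χ, wt p χ * X χ ^ 2 := by
    simp_rw [PR_eq]
    have : ∀ u, ∑ v, ∑ χ : E → Bool, (if A u χ ∧ A v χ then wt p χ else 0) =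
        ∑ χ : E → Bool, ∑ v, (if A u χ ∧ A v χ then wt p χ else 0) := fun u => Finset.sum_comm
    simp_rw [this]
    rw [Finset.sum_comm]
    refine Finset.sum_congr rfl fun χ _ => ?_
    rw [pow_two, hX, Finset.sum_mul_sum, Finset.mul_sum]
    refine Finset.sum_congr rfl fun u _ => ?_
    rw [Finset.mul_sum]
    refine Finset.sum_congr rfl fun v _ => ?_
    by_cases hu : A u χ <;> by_cases hv : A v χ <;> simp [hu, hv]
  have e3 : PR p (fun χ => ∃ v, A v χ) =
      ∑ χ, wt p χ * (if ∃ v, A v χ then 1 else 0) := by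
    rw [PR_eq]
    refine Finset.sum_congr rfl fun χ _ => ?_
    split_ifs <;> simp
  rw [e1, e2, e3]
  refine Finset.sum_sq_le_sum_mul_sum_of_sq_le_mul _ ?_ ?_ (fun χ hχ => le_of_eq ?_)
  · intro χ _
    have := wt_nonneg h0 h1 χ
    split_ifs <;> simp [this]
  · intro χ _
    have := wt_nonneg h0 h1 χ
    positivity
  · by_cases h : ∃ v, A v χ
    · rw [if_pos h]
      ring
    · have hz : X χ = 0 := by
        rw [hX]
        apply Finset.sum_eq_zero
        intro v _
        rw [if_neg (fun hv => h ⟨v, hv⟩)]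
      rw [hz]
      ring

end sm

theorem PR_split {E : Type} [Fintype E] [DecidableEq E] (p : ℝ) (P Q : (E → Bool) → Prop) :
    PR p P = PR p (fun χ => P χ ∧ Q χ) + PR p (fun χ => P χ ∧ ¬ Q χ) := by
  classical
  rw [PR_eq, PR_eq, PR_eq, ← Finset.sum_add_distrib]
  refine Finset.sum_congr rfl fun χ _ => ?_
  by_cases h1 : P χ <;> by_cases h2 : Q χ <;> simp [h1, h2]

theorem PR_unit (p : ℝ) : PR p (fun x : Unit → Bool => x () = true) = p := by
  classical
  have h := PR_card (B := Unit) p 1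
  rw [Fintype.card_unit] at h
  have e : PR p (fun x : Unit → Bool => x () = true) =
      PR p (fun x : Unit → Bool => (univ.filter (fun b => x b = true)).card = 1) := by
    refine PR_congr fun x => ?_
    by_cases hx : x () = true
    · simp [hx]
    · simp [hx]
  rw [e, h]
  simp

section pair2
variable {n : ℕ} (u v : Fin n)

theorem add_dW_le (huv : u ≠ v) (χ : Pairs n → Bool) (b : Bool)
    (hχ : χ (jp u v huv (Sum.inr ())) = true) :
    dW u v huv χ b + 1 ≤ dg (gr χ) (if b then u else v) := by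
  classical
  set F : Finset (Wt u v) :=
    univ.filter (fun w => χ (jp u v huv (Sum.inl (b, w))) = true) with hF
  have hFc : dW u v huv χ b = F.card := rfl
  rw [hFc]
  unfold dg
  have hnot : (if b then v else u) ∉ F.image Subtype.val := by
    intro h
    obtain ⟨w, _, hw⟩ := Finset.mem_image.1 h
    cases b
    · exact w.2.1 hw
    · exact w.2.2 hw
  have hc : (insert (if b then v else u) (F.image Subtype.val) : Finset (Fin n)).card =
      F.card + 1 := by
    rw [Finset.card_insert_of_notMem hnot, Finset.card_image_of_injective _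
      Subtype.val_injective]
  rw [← hc, ← Set.ncard_coe_finset]
  refine Set.ncard_le_ncard ?_ (Set.toFinite _)
  intro w hw
  rw [Finset.mem_coe, Finset.mem_insert] at hw
  rcases hw with rfl | hw
  · have hadj : (gr χ).Adj u v := ⟨_, hχ⟩
    cases b
    · exact hadj.symm
    · exact hadj
  · obtain ⟨w', hw', rfl⟩ := Finset.mem_image.1 hw
    rw [hF, Finset.mem_filter] at hw'
    exact ⟨_, hw'.2⟩

/-- the shared edge and the other edges -/
theorem PR_shared (huv : u ≠ v) (p : ℝ) (R : (Bool × Wt u v → Bool) → Prop)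
    (S : (Unit → Bool) → Prop) :
    PR p (fun χ : Pairs n → Bool => R (fun a => χ (jp u v huv (Sum.inl a))) ∧
      S (fun a => χ (jp u v huv (Sum.inr a)))) = PR p R * PR p S := by
  have h := PR_comp p (jp u v huv) (jp_inj u v huv)
    (fun χ : (Bool × Wt u v) ⊕ Unit → Bool => R (fun a => χ (Sum.inl a)) ∧
      S (fun a => χ (Sum.inr a)))
  rw [← PR_sum, ← h]

theorem PR_unit' (p : ℝ) : PR p (fun x : Unit → Bool => ¬ x () = true) = 1 - p := by
  rw [PR_compl, PR_unit]

theorem PR_both' (huv : u ≠ v) {p : ℝ} (h0 : 0 ≤ p) (h1 : p ≤ 1) (T : ℕ) :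
    PR p (fun χ : Pairs n → Bool => T ≤ dg (gr χ) u ∧ T ≤ dg (gr χ) v) ≤
      p * BT (n - 2) (T - 1) p ^ 2 + (1 - p) * BT (n - 2) T p ^ 2 := by
  classical
  have hgen : ∀ t : ℕ, PR p (fun χ : Bool × Wt u v → Bool => ∀ i, t ≤ ct (fun w => χ (i, w))) =
      BT (n - 2) t p ^ 2 := by
    intro t
    rw [PR_blocks p (fun x : Wt u v → Bool => t ≤ ct x), PR_BT, card_Wt u v huv, Fintype.card_bool]
  rw [PR_split p _ (fun χ : Pairs n → Bool => χ (jp u v huv (Sum.inr ())) = true)]
  refine add_le_add ?_ ?_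
  · have h := PR_shared u v huv p
      (fun χ : Bool × Wt u v → Bool => ∀ i, (T - 1) ≤ ct (fun w => χ (i, w)))
      (fun x : Unit → Bool => x () = true)
    rw [hgen, PR_unit] at h
    rw [mul_comm, ← h]
    refine PR_mono h0 h1 (fun χ hχ => ⟨fun i => ?_, hχ.2⟩)
    have a1 := le_dW u v huv χ true
    have a2 := le_dW u v huv χ false
    simp only [if_true, Bool.false_eq_true, if_false] at a1 a2
    rw [if_pos hχ.2] at a1 a2
    cases i
    · have : T - 1 ≤ dW u v huv χ false := by
        have := hχ.1.2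
        omega
      exact this
    · have : T - 1 ≤ dW u v huv χ true := by
        have := hχ.1.1
        omega
      exact this
  · have h := PR_shared u v huv p
      (fun χ : Bool × Wt u v → Bool => ∀ i, T ≤ ct (fun w => χ (i, w)))
      (fun x : Unit → Bool => ¬ x () = true)
    rw [hgen, PR_unit'] at h
    rw [mul_comm, ← h]
    refine PR_mono h0 h1 (fun χ hχ => ⟨fun i => ?_, hχ.2⟩)
    have a1 := le_dW u v huv χ true
    have a2 := le_dW u v huv χ false
    simp only [if_true, Bool.false_eq_true, if_false] at a1 a2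
    rw [if_neg hχ.2] at a1 a2
    cases i
    · have : T ≤ dW u v huv χ false := by
        have := hχ.1.2
        omega
      exact this
    · have : T ≤ dW u v huv χ true := by
        have := hχ.1.1
        omega
      exact this

theorem PR_dg_ge' (huv : u ≠ v) {p : ℝ} (h0 : 0 ≤ p) (h1 : p ≤ 1) (T : ℕ) :
    p * BT (n - 2) (T - 1) p + (1 - p) * BT (n - 2) T p ≤
      PR p (fun χ : Pairs n → Bool => T ≤ dg (gr χ) v) := by
  classical
  have hgen : ∀ t : ℕ, PR p (fun χ : Bool × Wt u v → Bool => t ≤ ct (fun w => χ (false, w))) =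
      BT (n - 2) t p := by
    intro t
    rw [← card_Wt u v huv, ← PR_BT]
    exact PR_comp p (fun w : Wt u v => (false, w)) (fun a b h => (Prod.mk.inj h).2)
      (fun x : Wt u v → Bool => t ≤ ct x)
  rw [PR_split p _ (fun χ : Pairs n → Bool => χ (jp u v huv (Sum.inr ())) = true)]
  refine add_le_add ?_ ?_
  · have h := PR_shared u v huv p
      (fun χ : Bool × Wt u v → Bool => (T - 1) ≤ ct (fun w => χ (false, w)))
      (fun x : Unit → Bool => x () = true)
    rw [hgen, PR_unit] at h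
    rw [mul_comm, ← h]
    refine PR_mono h0 h1 (fun χ hχ => ⟨?_, hχ.2⟩)
    have a2 := add_dW_le u v huv χ false hχ.2
    simp only [Bool.false_eq_true, if_false] at a2
    have h3 : T - 1 ≤ dW u v huv χ false := hχ.1
    omega
  · have h := PR_shared u v huv p
      (fun χ : Bool × Wt u v → Bool => T ≤ ct (fun w => χ (false, w)))
      (fun x : Unit → Bool => ¬ x () = true)
    rw [hgen, PR_unit'] at h
    rw [mul_comm, ← h]
    refine PR_mono h0 h1 (fun χ hχ => ⟨?_, hχ.2⟩)
    have a2 := dW_le u v huv χ false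
    simp only [Bool.false_eq_true, if_false] at a2
    have h3 : T ≤ dW u v huv χ false := hχ.1
    omega

end pair2

end Pool.Agent.U531.SR
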