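import Pool.Agent.U531.SR.Det
import Pool.Agent.R143.HYF.Clique
import Pool.Agent.N410.LD.Tame

/-!
# (p,1)-total labelings of graphs with few large degrees: all values of p
-/

set_option autoImplicit false

namespace Pool.Agent.U531.SR

open Filter Topology

theorem tl_bip {V : Type} [Fintype V] (G : SimpleGraph V) (D p : ℕ) (hp : 1 ≤ p)
    (hD : ∀ v, (G.neighborSet v).ncard ≤ D) (hc : G.Colorable 2) : TL G p (D + p) := by
  classical
  obtain ⟨C⟩ := hc
  obtain ⟨f, hf1, hf2⟩ := Pool.Agent.N410.LD.ch_bip G D hD ⟨C⟩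
    (fun _ => Finset.Icc (p + 1) (p + D)) (fun _ => by rw [Nat.card_Icc]; omega)
  have hf3 : ∀ (e : Sym2 V) (h : e ∈ G.edgeSet), p + 1 ≤ f ⟨e, h⟩ ∧ f ⟨e, h⟩ ≤ p + D :=
    fun e h => Finset.mem_Icc.1 (hf1 ⟨e, h⟩)
  refine ⟨fun v => (C v).1, fun e => if h : e ∈ G.edgeSet then f ⟨e, h⟩ else 0, ?_, ?_, ?_, ?_, ?_⟩
  · intro v
    have h1 := (C v).2
    show (C v).1 ≤ D + p
    omega
  · intro e he
    simp only [dif_pos he]
    have := hf3 e he
    omega
  · intro u v huv h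
    exact C.valid huv (Fin.ext h)
  · intro u v w huv huw hvw
    have h1 : s(u, v) ∈ G.edgeSet := huv
    have h2 : s(u, w) ∈ G.edgeSet := huw
    simp only [dif_pos h1, dif_pos h2]
    exact hf2 _ _ ((Pool.Agent.TH559.LE.lg_iff G _ _).2 ⟨u, v, w, huv, huw, hvw, rfl, rfl⟩)
  · intro u v huv
    have h1 : s(u, v) ∈ G.edgeSet := huv
    simp only [dif_pos h1]
    have h2 := hf3 _ h1
    have h3 := (C u).2
    rw [le_abs]
    right
    omega

theorem log_le_mul (c : ℝ) (hc : 0 < c) : ∀ᶠ x : ℝ in atTop, Real.log x ≤ c * x := by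
  have h1 := Real.isLittleO_log_id_atTop.bound (c := c) hc
  filter_upwards [h1, eventually_ge_atTop 1] with x hx hx1
  have h2 : 0 ≤ Real.log x := Real.log_nonneg hx1
  rw [Real.norm_eq_abs, Real.norm_eq_abs, abs_of_nonneg h2] at hx
  simpa [abs_of_nonneg (by linarith : (0 : ℝ) ≤ x)] using hx

/-- few neighbours of large degree, small `p` -/
theorem tl_small (δ : ℝ) (hδ : 0 < δ) (b : ℕ) : ∃ c : ℝ, 0 < c ∧ ∃ D₁ : ℕ,
    ∀ (V : Type) [Fintype V] (G : SimpleGraph V) (D : ℕ), D₁ ≤ D →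
    (∀ v, (G.neighborSet v).ncard ≤ D) →
    (∀ v, {w : V | G.Adj v w ∧ (1 - δ) * D < (G.neighborSet w).ncard}.ncard ≤ b) →
    ∀ p : ℕ, 1 ≤ p → (p : ℝ) ≤ c * D → TL G p (D + 2 * p - 2) := by
  obtain ⟨c0, hc0, D₀, h⟩ := degree_part δ hδ
  have hb : (0 : ℝ) < b + 1 := by positivity
  have hb1 : (1 : ℝ) ≤ b + 1 := by
    have : (0 : ℝ) ≤ b := Nat.cast_nonneg _
    linarith
  set c : ℝ := c0 / (2 * (b + 1)) with hc
  have hcpos : 0 < c := by positivity
  have hcc : c * (2 * (b + 1)) = c0 := by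
    rw [hc]
    field_simp
  obtain ⟨D₁, hD₁⟩ := eventually_atTop.1
    (tendsto_natCast_atTop_atTop (R := ℝ).eventually (log_le_mul c hcpos))
  refine ⟨c, hcpos, max D₀ (max D₁ 1), ?_⟩
  intro V _ G D hD hdeg hfew p hp hpc
  simp only [max_le_iff] at hD
  obtain ⟨d0, d1, d2⟩ := hD
  have hDr : (1 : ℝ) ≤ D := by exact_mod_cast d2
  have hpr : (1 : ℝ) ≤ p := by exact_mod_cast hp
  have hlog0 : 0 ≤ Real.log D := Real.log_nonneg hDr
  have hlog := hD₁ D d1
  have hcD : 0 < c * D := by positivity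
  refine h p hp V G D d0 ?_ hdeg (fun v => ?_)
  · refine hpc.trans ?_
    rw [← hcc]
    have : c * D * 1 ≤ c * D * (2 * (b + 1)) :=
      mul_le_mul_of_nonneg_left (by linarith) hcD.le
    linarith
  · have h1 : ({w : V | G.Adj v w ∧ (1 - δ) * D < (G.neighborSet w).ncard}.ncard : ℝ) ≤ b := by
      exact_mod_cast hfew v
    refine h1.trans ?_
    rw [le_div_iff₀ (by linarith)]
    have h2 : (p : ℝ) + Real.log D ≤ 2 * (c * D) := by linarith
    calc (b : ℝ) * (p + Real.log D) ≤ (b + 1) * (2 * (c * D)) :=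
          mul_le_mul (by linarith) h2 (by linarith) (by linarith)
      _ = c * (2 * (b + 1)) * D := by ring
      _ = c0 * D := by rw [hcc]

/-- few neighbours of large degree and no large cliques, all `p` -/
theorem tl_all (δ : ℝ) (hδ : 0 < δ) (b r : ℕ) (hr : 1 ≤ r) : ∃ c : ℝ, 0 < c ∧ ∃ D₁ : ℕ,
    ∀ (V : Type) [Fintype V] (G : SimpleGraph V) (D : ℕ), D₁ ≤ D →
    (∀ v, (G.neighborSet v).ncard ≤ D) → G.CliqueFree (r + 2) →
    (∀ v, {w : V | G.Adj v w ∧ (1 - δ) * D < (G.neighborSet w).ncard}.ncard ≤ b) →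
    ∀ p : ℕ, 1 ≤ p → TL G p (D + 2 * p - 1) ∧ ((p : ℝ) ≤ c * D → TL G p (D + 2 * p - 2)) := by
  obtain ⟨c, hc, D₁, h1⟩ := tl_small δ hδ b
  obtain ⟨D₂, h2⟩ := Pool.Agent.R143.HYF.clique_main 1 one_pos
  have hr0 : (0 : ℝ) < r := by exact_mod_cast hr
  have hL : Tendsto (fun n : ℕ => Real.log (n : ℝ)) atTop atTop :=
    Real.tendsto_log_atTop.comp tendsto_natCast_atTop_atTop
  obtain ⟨D₃, h3⟩ := eventually_atTop.1
    ((hL.eventually (log_le_mul (1 / (400 * r)) (by positivity))).and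
      ((hL.eventually (log_le_mul (c / (2 * r)) (by positivity))).and
        (hL.eventually_ge_atTop 1)))
  refine ⟨c, hc, max D₁ (max D₂ (max D₃ 1)), ?_⟩
  intro V _ G D hD hdeg hfree hfew p hp
  simp only [max_le_iff] at hD
  obtain ⟨d1, d2, d3, d4⟩ := hD
  have hs := h1 V G D d1 hdeg hfew p hp
  refine ⟨?_, hs⟩
  rcases le_or_gt (p : ℝ) (c * D) with hpc | hpc
  · obtain ⟨fV, fE, a1, a2, a3, a4, a5⟩ := hs hpc
    exact ⟨fV, fE, fun v => (a1 v).trans (by omega), fun e he => (a2 e he).trans (by omega),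
      a3, a4, a5⟩
  · classical
    obtain ⟨e1, e2, e3⟩ := h3 D d3
    have hDr : (1 : ℝ) ≤ D := by exact_mod_cast d4
    refine h2 V G D p r d2 hr ?_ ?_ hfree ?_
    · rw [one_div, inv_mul_eq_div, le_div_iff₀ (by positivity)] at e1
      linarith
    · intro v
      have := hdeg v
      rwa [Set.ncard_eq_toFinset_card', ← SimpleGraph.neighborFinset_def,
        SimpleGraph.card_neighborFinset_eq_degree] at this
    · have hlog : 0 < Real.log D := by linarith
      refine le_trans ?_ hpc.le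
      have e4 : Real.log (Real.log D) / Real.log D ≤ c / (2 * r) := by
        rw [div_le_iff₀ hlog]
        exact e2
      calc (1 / 2 + 1) * (r : ℝ) * (D * Real.log (Real.log D) / Real.log D)
          = (3 / 2 * r * D) * (Real.log (Real.log D) / Real.log D) := by ring
        _ ≤ (3 / 2 * r * D) * (c / (2 * r)) := mul_le_mul_of_nonneg_left e4 (by positivity)
        _ = 3 / 4 * (c * D) := by
            field_simp
            ring
        _ ≤ c * D := by
            have : 0 < c * D := by positivity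
            linarith

end Pool.Agent.U531.SR
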