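import Pool.Agent.U531.SR.Tot
import Pool.Agent.U531.SR.Struct
import Pool.Agent.U531.SR.Forest
import Pool.Agent.U531.SR.Clique

/-!
# (p,1)-total labelings of sparse random graphs
-/

set_option autoImplicit false

namespace Pool.Agent.U531.SR

open Finset Filter Topology

theorem exists_delta (κ : ℝ) (hκ : 0 < κ) :
    ∃ δ : ℝ, 0 < δ ∧ δ < 1 ∧ κ * Ph 1 (1 / (1 - δ)) < 1 := by
  have h2 : 0 < κ + 2 := by linarith
  refine ⟨1 / (κ + 2), by positivity, by rw [div_lt_one h2]; linarith, ?_⟩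
  have h1 : 0 < κ + 1 := by linarith
  have e1 : (1 : ℝ) / (1 - 1 / (κ + 2)) = 1 + 1 / (κ + 1) := by
    have : (1 : ℝ) - 1 / (κ + 2) = (κ + 1) / (κ + 2) := by
      field_simp
      ring
    rw [this, one_div_div]
    field_simp
    ring
  rw [e1]
  set x : ℝ := 1 / (κ + 1) with hx
  have hx0 : 0 < x := by positivity
  have hlog : Real.log (1 + x) ≤ x := by
    have := Real.log_le_sub_one_of_pos (x := 1 + x) (by linarith)
    linarith
  have e2 : Ph 1 (1 + x) ≤ x ^ 2 := by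
    unfold Ph
    rw [div_one]
    nlinarith [mul_le_mul_of_nonneg_left hlog (by linarith : (0 : ℝ) ≤ 1 + x)]
  have e3 : κ * x ^ 2 < 1 := by
    have e4 : x * (κ + 1) = 1 := by
      rw [hx]
      field_simp
    nlinarith
  nlinarith

theorem PR_and_ge {E : Type} [Fintype E] [DecidableEq E] {p : ℝ} (h0 : 0 ≤ p) (h1 : p ≤ 1)
    (P Q : (E → Bool) → Prop) {x y : ℝ} (hP : 1 - x ≤ PR p P) (hQ : PR p (fun χ => ¬ Q χ) ≤ y) :
    1 - (x + y) ≤ PR p (fun χ => P χ ∧ Q χ) := by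
  have e1 : PR p P ≤ PR p (fun χ => P χ ∧ Q χ) + PR p (fun χ => ¬ Q χ) := by
    refine (PR_mono h0 h1 (fun χ h => ?_)).trans (PR_or_le h0 h1 _ _)
    by_cases hq : Q χ
    · exact Or.inl ⟨h, hq⟩
    · exact Or.inr hq
  linarith

/-- the property -/
def AllP {n : ℕ} (c : ℝ) (q : ℝ) (K : ℕ) (G : SimpleGraph (Fin n)) : Prop :=
  ∀ D, IsMax G D → (∀ p : ℕ, 1 ≤ p → TL G p (D + 2 * p - 1)) ∧
    (1 / Real.log n ≤ n * q → (K : ℝ) ≤ c * D ∧
      ∀ p : ℕ, 1 ≤ p → (p : ℝ) ≤ c * D → TL G p (D + 2 * p - 2))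

theorem tot_prob (κ : ℝ) (hκ : 0 < κ) : ∃ c : ℝ, 0 < c ∧ ∀ (ε : ℝ) (K : ℕ), 0 < ε →
    ∀ᶠ n : ℕ in atTop, ∀ q : ℝ, 0 ≤ q → q ≤ 1 → (n : ℝ) * q ≤ κ * Real.log n →
      1 - ε ≤ PR q (fun χ : Pairs n → Bool => AllP c q K (gr χ)) := by
  obtain ⟨δ, hδ, hδ1, hφ⟩ := exists_delta κ hκ
  obtain ⟨b, hb⟩ := structure_thm (1 - δ) κ (by linarith) (by linarith) hκ hφ
  obtain ⟨c, hc, D₁, htl⟩ := tl_all δ hδ b 2 (by norm_num)
  refine ⟨c, hc, fun ε K hε => ?_⟩
  obtain ⟨D₂, hD₂⟩ := exists_nat_ge ((K : ℝ) / c)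
  have h1 := hb 0 (max D₁ D₂) (ε / 2) (by linarith)
  have h2 : ∀ᶠ n : ℕ in atTop, max 2 (1 / ε) ≤ Real.log n := by
    exact ev_log (eventually_ge_atTop _)
  have h3 := ev_log (ev_pow (κ ^ 6 * (2 / ε)) 1 0 one_pos 6)
  filter_upwards [h1, h2, h3, eventually_ge_atTop 1] with n a1 a2 a3 hn1
  intro q hq0 hq1 hqk
  have hn : (1 : ℝ) ≤ n := by exact_mod_cast hn1
  have hs : 0 < Real.log n := lt_of_lt_of_le (by norm_num) ((le_max_left _ _).trans a2)
  rcases le_or_gt (1 / Real.log n) (n * q) with hcs | hcs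
  · have e1 := a1 q hcs hqk
    have e2 : PR q (fun χ : Pairs n → Bool => ¬ (gr χ).CliqueFree 4) ≤ ε / 2 := by
      refine (PR_clique hq0 hq1).trans ?_
      have e3 : (n : ℝ) ^ 4 * q ^ (Nat.choose 4 2) * n ^ 2 = (n * q) ^ 6 := by
        rw [show Nat.choose 4 2 = 6 by decide]
        ring
      have hnq : 0 ≤ (n : ℝ) * q := by positivity
      have e4 : ((n : ℝ) * q) ^ 6 ≤ (κ * Real.log n) ^ 6 := pow_le_pow_left₀ hnq hqk 6
      rw [one_mul, Real.exp_log (by linarith), add_zero] at a3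
      have e5 : (κ * Real.log n) ^ 6 * (2 / ε) ≤ n := by
        calc (κ * Real.log n) ^ 6 * (2 / ε) = κ ^ 6 * (2 / ε) * Real.log n ^ 6 := by ring
          _ ≤ (n : ℝ) := a3
      have e6 : (κ * Real.log n) ^ 6 ≤ n * (ε / 2) := by
        have : (κ * Real.log n) ^ 6 * (2 / ε) * (ε / 2) ≤ n * (ε / 2) :=
          mul_le_mul_of_nonneg_right e5 (by linarith)
        have e7 : (κ * Real.log n) ^ 6 * (2 / ε) * (ε / 2) = (κ * Real.log n) ^ 6 := by
          field_simp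
        linarith
      have e8 : (n : ℝ) * (ε / 2) ≤ ε / 2 * n ^ 2 := by
        have : (n : ℝ) * (ε / 2) ≤ n * (ε / 2) * n := le_mul_of_one_le_right (by positivity) hn
        calc (n : ℝ) * (ε / 2) ≤ n * (ε / 2) * n := this
          _ = ε / 2 * n ^ 2 := by ring
      have hn2 : (0 : ℝ) < (n : ℝ) ^ 2 := by positivity
      refine le_of_mul_le_mul_right ?_ hn2
      rw [e3]
      linarith
    have e3 := PR_and_ge hq0 hq1 _ _ e1 e2
    rw [add_halves] at e3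
    refine e3.trans (PR_mono hq0 hq1 (fun χ h D hD => ?_))
    obtain ⟨hS, hfree⟩ := h
    obtain ⟨hD1, hfew⟩ := hS D hD
    have hthis := htl (Fin n) (gr χ) D ((le_max_left _ _).trans hD1) hD.1 hfree (fun v => ?_)
    · refine ⟨fun p hp => (hthis p hp).1, fun _ => ⟨?_, fun p hp => (hthis p hp).2⟩⟩
      have hD2 : (D₂ : ℝ) ≤ D := by exact_mod_cast (le_max_right _ _).trans hD1
      have h4 := hD₂.trans hD2
      rw [div_le_iff₀ hc] at h4
      linarith
    · refine le_trans (Set.ncard_le_ncard ?_ (Set.toFinite _)) (hfew v)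
      rintro w ⟨w1, w2⟩
      refine ⟨w1, ?_⟩
      rw [Nat.cast_zero, add_zero]
      exact w2
  · have hc2 : (n : ℝ) * q ≤ 1 / 2 := by
      have : 1 / Real.log n ≤ 1 / 2 :=
        one_div_le_one_div_of_le (by norm_num) ((le_max_left _ _).trans a2)
      linarith
    have hac := PR_acyclic hq0 hq1 hc2
    have hcomp := PR_compl q (fun χ : Pairs n → Bool => ¬ (gr χ).IsAcyclic)
    have hε' : 1 / Real.log n ≤ ε := by
      have := (le_max_right _ _).trans a2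
      rw [div_le_iff₀ hε] at this
      rw [div_le_iff₀ hs]
      linarith
    have h3 : 1 - ε ≤ PR q (fun χ : Pairs n → Bool => ¬ ¬ (gr χ).IsAcyclic) := by
      rw [hcomp]
      linarith
    refine h3.trans (PR_mono hq0 hq1 (fun χ h D hD => ⟨fun p hp => ?_, fun h' => ?_⟩))
    · obtain ⟨fV, fE, b1, b2, b3, b4, b5⟩ :=
        tl_bip (gr χ) D p hp hD.1 (not_not.1 h).colorable_two
      exact ⟨fV, fE, fun v => (b1 v).trans (by omega), fun e he => (b2 e he).trans (by omega),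
        b3, b4, b5⟩
    · exact absurd h' (not_le.2 hcs)

end Pool.Agent.U531.SR
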