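import Pool.Agent.U531.SR.Dense
import Pool.Agent.U531.SR.TotProb

/-!
# (p,1)-total labelings of random graphs of all densities
-/

set_option autoImplicit false

namespace Pool.Agent.U531.SR

open Finset Filter Topology Pool.Agent.H162R2.Sparse

theorem tl_win {n : ℕ} (G : SimpleGraph (Fin n)) (P : ℝ) (hP : 0 ≤ P)
    (hL : 0 ≤ Real.log n) (hW : Win (3300 * (P + 1)) G) (D : ℕ) (hD : IsMax G D) (p : ℕ)
    (hp : 1 ≤ p) (hpP : (p : ℝ) ≤ P * (1 + Real.log n)) : TL G p (D + 2 * p - 2) := by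
  classical
  obtain ⟨b, hb1, hb2⟩ := hW D hD
  set L : ℝ := Real.log n with hLdef
  set M : ℝ := 3300 * (P + 1) with hM
  set s : ℝ := M * (b + 2) * (1 + L) with hs
  have hpr : (1 : ℝ) ≤ p := by exact_mod_cast hp
  have hb0 : (0 : ℝ) ≤ b := Nat.cast_nonneg _
  have hDpos : (0 : ℝ) < D := by
    refine lt_of_lt_of_le ?_ hb1
    rw [hs, hM]
    positivity
  have hDn : (D : ℝ) ≤ n := by
    obtain ⟨v, hv⟩ := hD.2
    have h1 : Pool.Agent.U531.SR.dg G v ≤ n := by
      unfold Pool.Agent.U531.SR.dg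
      refine (Set.ncard_le_card _).trans (le_of_eq ?_)
      rw [Nat.card_eq_fintype_card, Fintype.card_fin]
    rw [hv] at h1
    exact_mod_cast h1
  have hlogD : Real.log D ≤ L := Real.log_le_log hDpos hDn
  have hD1 : (1 : ℝ) ≤ D := by
    have : 0 < D := by exact_mod_cast hDpos
    exact_mod_cast this
  have hlogD0 : 0 ≤ Real.log D := Real.log_nonneg hD1
  have hkey : 3300 * ((p : ℝ) + Real.log D) ≤ M * (1 + L) := by
    rw [hM]
    nlinarith
  set T : Finset (Fin n) :=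
    univ.filter (fun w => (D : ℝ) < Pool.Agent.U531.SR.dg G w + s) with hT
  have hNT : ∀ v, (((nb G v).filter (fun w => w ∈ T)).card : ℝ) ≤ (b : ℝ) := by
    intro v
    have e1 : ((nb G v).filter (fun w => w ∈ T)).card =
        {w | G.Adj v w ∧ (D : ℝ) < Pool.Agent.U531.SR.dg G w + s}.ncard := by
      rw [← Set.ncard_coe_finset]
      congr 1
      ext w
      simp [mem_nb, hT]
    rw [e1]
    exact_mod_cast hb2 v
  refine main_part p hp (Fin n) G D T (2 * b) b ?_ ?_ hD.1 ?_ ?_ ?_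
  · refine le_trans ?_ hb1
    have e1 : 68 * (1 + Real.log D) ≤ M * (1 + L) := by
      have : (1 : ℝ) + Real.log D ≤ p + Real.log D := by linarith
      nlinarith
    have e2 : (b : ℝ) * (68 * (1 + Real.log D)) ≤ (b + 2) * (M * (1 + L)) :=
      mul_le_mul (by linarith) e1 (by positivity) (by positivity)
    rw [hs]
    nlinarith
  · refine le_trans ?_ hb1
    have e1 : 8 * (p : ℝ) ≤ M * (1 + L) := by nlinarith
    have e2 : (b : ℝ) * (8 * p) ≤ (b + 2) * (M * (1 + L)) :=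
      mul_le_mul (by linarith) e1 (by positivity) (by positivity)
    rw [hs]
    nlinarith
  · intro X
    refine le_trans (le_of_eq ?_) (Pool.Agent.H162R2.AG.A_dens G T b hNT X)
    rw [← Set.ncard_coe_finset]
    congr 2
    ext e
    simp only [Set.mem_ofPred_eq, Finset.coe_filter, mem_pr,
      Pool.Agent.H162R2.AG.A_meetX_adj]
    tauto
  · intro v _
    have h2 := hNT v
    have h3 : ((nb G v).filter (fun w => w ∈ T)).card ≤ b := by exact_mod_cast h2
    refine le_trans (le_of_eq ?_) h3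
    rw [← Set.ncard_coe_finset]
    congr 1
    ext w
    simp [mem_nb, and_comm]
  · intro v hv
    have h5 : (Pool.Agent.U531.SR.dg G v : ℝ) ≤ D - s := by
      by_contra hcon
      exact hv (by rw [hT, mem_filter]; exact ⟨mem_univ _, by linarith [not_le.1 hcon]⟩)
    have h6 : ({w : Fin n | w ∉ T ∧ G.Adj v w}.ncard : ℝ) ≤ Pool.Agent.U531.SR.dg G v := by
      have : {w : Fin n | w ∉ T ∧ G.Adj v w}.ncard ≤ (G.neighborSet v).ncard :=
        Set.ncard_le_ncard (fun w hw => hw.2) (Set.toFinite _)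
      exact_mod_cast this
    refine h6.trans (h5.trans ?_)
    have h7 : 3300 * ((b : ℝ) + 2) * (p + Real.log D) ≤ s := by
      have := mul_le_mul_of_nonneg_left hkey (by positivity : (0 : ℝ) ≤ (b : ℝ) + 2)
      rw [hs]
      nlinarith
    linarith

/-- the property -/
def AllQ {n : ℕ} (P : ℝ) (q : ℝ) (K : ℕ) (G : SimpleGraph (Fin n)) : Prop :=
  ∀ D, IsMax G D → (∀ p : ℕ, 1 ≤ p → (p : ℝ) ≤ P * Real.log n → TL G p (D + 2 * p - 1)) ∧
    (1 / Real.log n ≤ n * q → ∀ p : ℕ, 1 ≤ p → p ≤ K → TL G p (D + 2 * p - 2))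

theorem tot_prob_all (c P ε : ℝ) (K : ℕ) (hc : 0 < c) (hP : 1 ≤ P) (hε : 0 < ε) :
    ∀ᶠ n : ℕ in atTop, ∀ q : ℝ, 0 ≤ q → q ≤ 1 - c →
      1 - ε ≤ PR q (fun χ : Pairs n → Bool => AllQ P q K (gr χ)) := by
  obtain ⟨κ, hκ, h1⟩ := win_thm (min c 1) (3300 * (P + 1)) ε (lt_min hc one_pos)
    (min_le_right _ _) (by linarith) hε
  obtain ⟨c', hc', h2⟩ := tot_prob κ hκ
  have h3 := h2 ε K hε
  have h4 : ∀ᶠ n : ℕ in atTop, max 1 (K : ℝ) ≤ Real.log n := ev_log (eventually_ge_atTop _)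
  filter_upwards [h1, h3, h4] with n a1 a2 a3
  intro q hq0 hq1
  have hL1 : 1 ≤ Real.log n := (le_max_left _ _).trans a3
  have hLK : (K : ℝ) ≤ Real.log n := (le_max_right _ _).trans a3
  have hq11 : q ≤ 1 := by linarith
  rcases le_or_gt (n * q) (κ * Real.log n) with h | h
  · refine (a2 q hq0 hq11 h).trans (PR_mono hq0 hq11 (fun χ hχ D hD => ?_))
    obtain ⟨b1, b2⟩ := hχ D hD
    refine ⟨fun p hp _ => b1 p hp, fun h' p hp hpK => ?_⟩
    obtain ⟨b3, b4⟩ := b2 h'
    exact b4 p hp (le_trans (by exact_mod_cast hpK) b3)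
  · refine (a1 q h.le (hq1.trans (by linarith [min_le_left c 1]))).trans
      (PR_mono hq0 hq11 (fun χ hχ D hD => ?_))
    have hmain : ∀ p : ℕ, 1 ≤ p → (p : ℝ) ≤ P * Real.log n →
        TL (gr χ) p (D + 2 * p - 2) := by
      intro p hp hpP
      refine tl_win (gr χ) P (by linarith) (by linarith) hχ D hD p hp (hpP.trans ?_)
      nlinarith
    refine ⟨fun p hp hpP => ?_, fun _ p hp hpK => hmain p hp ?_⟩
    · obtain ⟨fV, fE, c1, c2, c3, c4, c5⟩ := hmain p hp hpP
      exact ⟨fV, fE, fun v => (c1 v).trans (by omega), fun e he => (c2 e he).trans (by omega),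
        c3, c4, c5⟩
    · have : (p : ℝ) ≤ K := by exact_mod_cast hpK
      nlinarith

end Pool.Agent.U531.SR
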