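import Pool.Agent.U531.SR.TotW
import Pool.Agent.U531.SR.HetCL

/-!
# Total colourings extending a distance-3 matching in random graphs with unequal edge probabilities
-/

set_option autoImplicit false

namespace Pool.Agent.U531.SR.TW

open Finset
open Pool.Agent.U531.SR

/-- the constants -/
theorem num_fact (K η M L b : ℝ) (hK : 1 ≤ K) (hη : 0 < η) (hη1 : η ≤ 1 / 2) (hL : 1 / 2 ≤ L)
    (hM : 256 * (K + 1) ^ 2 / η ^ 2 * L ≤ M) (hb : b ≤ M) :
    3 + K * (Real.sqrt (b * L) + L) ≤ η / 2 * M ∧ 12 ≤ η * M := by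
  have hL0 : 0 < L := by linarith
  have hM' : 256 * (K + 1) ^ 2 * L ≤ M * η ^ 2 := by
    have := mul_le_mul_of_nonneg_right hM (by positivity : 0 ≤ η ^ 2)
    have e : 256 * (K + 1) ^ 2 / η ^ 2 * L * η ^ 2 = 256 * (K + 1) ^ 2 * L := by
      field_simp
    linarith
  have hM0 : 0 < M := lt_of_lt_of_le (by positivity) hM
  have s1 : Real.sqrt (b * L) ≤ M * η / (16 * (K + 1)) := by
    apply Real.sqrt_le_iff.2
    refine ⟨by positivity, ?_⟩
    rw [div_pow, le_div_iff₀ (by positivity)]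
    have e1 : b * L * (16 * (K + 1)) ^ 2 = b * (256 * (K + 1) ^ 2 * L) := by ring
    rw [e1]
    calc b * (256 * (K + 1) ^ 2 * L) ≤ M * (M * η ^ 2) :=
          mul_le_mul hb hM' (by positivity) hM0.le
      _ = (M * η) ^ 2 := by ring
  have s2 : K * Real.sqrt (b * L) ≤ M * η / 16 := by
    calc K * Real.sqrt (b * L) ≤ (K + 1) * (M * η / (16 * (K + 1))) :=
          mul_le_mul (by linarith) s1 (Real.sqrt_nonneg _) (by linarith)
      _ = M * η / 16 := by
          field_simp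
  have hMη : M * η ^ 2 ≤ M * η * (1 / 2) := by
    have : M * η ^ 2 = M * η * η := by ring
    rw [this]
    exact mul_le_mul_of_nonneg_left hη1 (by positivity)
  have s3 : 256 * (K + 1) * ((K + 1) * L) ≤ M * η * (1 / 2) := by
    have : 256 * (K + 1) ^ 2 * L = 256 * (K + 1) * ((K + 1) * L) := by ring
    linarith
  have s4 : 512 * ((K + 1) * L) ≤ 256 * (K + 1) * ((K + 1) * L) :=
    mul_le_mul_of_nonneg_right (by linarith) (by positivity)
  have s5 : K * L ≤ M * η / 1024 := by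
    have : K * L ≤ (K + 1) * L := mul_le_mul_of_nonneg_right (by linarith) hL0.le
    linarith
  have s6 : (1 : ℝ) ≤ (K + 1) * L := by nlinarith
  have s7 : (3 : ℝ) ≤ M * η * (3 / 1024) := by linarith
  have hMη0 : 0 < M * η := by positivity
  refine ⟨?_, by linarith⟩
  rw [mul_add]
  linarith

theorem het_ext : ∃ C : ℝ, 0 < C ∧ ∀ η : ℝ, 0 < η → η ≤ 1 / 2 → ∀ n : ℕ, 2 ≤ n →
    ∀ q : Sym2 (Fin n) → ℝ, (∀ e, 0 ≤ q e ∧ q e ≤ 1) → ∀ (M β : ℝ) (W : Finset (Fin n)),
    C / η ^ 2 * Real.log n ≤ M → 0 ≤ β → β ≤ 1 / 2 →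
    (∃ v, M ≤ ∑ w ∈ univ.erase v, q s(v, w)) →
    (∀ v, v ∉ W → ∑ w ∈ univ.erase v, q s(v, w) ≤ (1 / 2 - η) * M ∧
      ∑ w ∈ W.erase v, q s(v, w) ≤ β * M) →
    (∀ v, v ∈ W → ∑ w ∈ W.erase v, q s(v, w) ≤ (1 - β - η) * M) →
    1 - 1 / n ≤ probQ q (fun G : SimpleGraph (Fin n) => AllL G) := by
  classical
  obtain ⟨K, hK, hcrit⟩ := crit
  refine ⟨256 * (K + 1) ^ 2, by positivity, ?_⟩
  intro η hη hη1 n hn q hq M β W hM hβ0 hβ hmax hout hin
  have hnr : (2 : ℝ) ≤ n := by exact_mod_cast hn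
  have hlog2 : (1 / 2 : ℝ) ≤ Real.log n := by
    have h1 : Real.log 2 ≤ Real.log n := Real.log_le_log (by norm_num) hnr
    have := Real.log_two_gt_d9
    linarith
  have hlog : 0 < Real.log n := by linarith
  have hM0 : 0 < M := lt_of_lt_of_le (by positivity) hM
  set h : ℝ := η / 4 with hh
  have hh0 : 0 < h := by positivity
  have hh1 : h ≤ 1 := by rw [hh]; linarith
  set p1 : ℝ := Real.exp (-(h ^ 2 * M / 4)) with hp1
  have hp1n : p1 ≤ 1 / (n : ℝ) ^ 4 := by
    have e1 : 4 * Real.log n ≤ h ^ 2 * M / 4 := by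
      have e2 : 256 * (K + 1) ^ 2 / η ^ 2 * Real.log n * η ^ 2 ≤ M * η ^ 2 :=
        mul_le_mul_of_nonneg_right hM (by positivity)
      have e3 : 256 * (K + 1) ^ 2 / η ^ 2 * Real.log n * η ^ 2 =
          256 * (K + 1) ^ 2 * Real.log n := by
        field_simp
      have e4 : 256 * 1 * Real.log n ≤ 256 * (K + 1) ^ 2 * Real.log n := by
        refine mul_le_mul_of_nonneg_right ?_ hlog.le
        nlinarith
      rw [hh]
      nlinarith
    calc p1 ≤ Real.exp (-(4 * Real.log n)) := Real.exp_le_exp.2 (by linarith)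
      _ = 1 / (n : ℝ) ^ 4 := by
          rw [Real.exp_neg, one_div]
          congr 1
          rw [show (4 : ℝ) * Real.log n = ((4 : ℕ) : ℝ) * Real.log n by norm_num,
            ← Real.log_pow, Real.exp_log (by positivity)]
  have hp10 : 0 ≤ p1 := (Real.exp_pos _).le
  set q' : Pairs n → ℝ := fun e => q e.1 with hq'
  have hqq : ∀ e, 0 ≤ q' e ∧ q' e ≤ 1 := fun e => hq e.1
  obtain ⟨v0, hv0⟩ := hmax
  set T1 : ℝ := (1 / 2 - η) * M + h * M with hT1
  set T2 : ℝ := β * M + h * M with hT2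
  set T3 : ℝ := (1 - β - η) * M + h * M with hT3
  set Bad : Fin n → (Pairs n → Bool) → Prop := fun v χ =>
    ((v ∉ W ∧ T1 ≤ cS (Sv v univ) χ) ∨ (v ∉ W ∧ T2 ≤ cS (Sv v W) χ)) ∨
      (v ∈ W ∧ T3 ≤ cS (Sv v W) χ) with hBad
  have hb1 : ∀ v : Fin n, PQ q' (Bad v) ≤ 3 * p1 := by
    intro v
    have a1 : PQ q' (fun χ => v ∉ W ∧ T1 ≤ cS (Sv v univ) χ) ≤ p1 := by
      refine PQ_and_const hqq _ _ _ hp10 (fun hv => ?_)
      refine upper_q hqq (Sv v univ) M _ h T1 hh0 hh1 ?_ ?_ (le_of_eq rfl)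
      · rw [sum_Sv]
        exact (hout v hv).1
      · nlinarith
    have a2 : PQ q' (fun χ => v ∉ W ∧ T2 ≤ cS (Sv v W) χ) ≤ p1 := by
      refine PQ_and_const hqq _ _ _ hp10 (fun hv => ?_)
      refine upper_q hqq (Sv v W) M _ h T2 hh0 hh1 ?_ ?_ (le_of_eq rfl)
      · rw [sum_Sv]
        exact (hout v hv).2
      · nlinarith
    have a3 : PQ q' (fun χ => v ∈ W ∧ T3 ≤ cS (Sv v W) χ) ≤ p1 := by
      refine PQ_and_const hqq _ _ _ hp10 (fun hv => ?_)
      refine upper_q hqq (Sv v W) M _ h T3 hh0 hh1 ?_ ?_ (le_of_eq rfl)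
      · rw [sum_Sv]
        exact hin v hv
      · nlinarith
    have b1 := PQ_or_le hqq (fun χ => (v ∉ W ∧ T1 ≤ cS (Sv v univ) χ) ∨
      (v ∉ W ∧ T2 ≤ cS (Sv v W) χ)) (fun χ => v ∈ W ∧ T3 ≤ cS (Sv v W) χ)
    have b2 := PQ_or_le hqq (fun χ => v ∉ W ∧ T1 ≤ cS (Sv v univ) χ)
      (fun χ => v ∉ W ∧ T2 ≤ cS (Sv v W) χ)
    have b3 : PQ q' (Bad v) ≤ (p1 + p1) + p1 :=
      b1.trans (add_le_add (b2.trans (add_le_add a1 a2)) a3)
    linarith
  have hb2 : PQ q' (fun χ => ∃ v ∈ (univ : Finset (Fin n)), Bad v χ) ≤ n * (3 * p1) := by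
    refine (PQ_exists_le hqq _ _).trans ((Finset.sum_le_sum fun v _ => hb1 v).trans ?_)
    rw [Finset.sum_const, Finset.card_univ, Fintype.card_fin, nsmul_eq_mul]
  have hb3 : PQ q' (fun χ => (cS (Sv v0 univ) χ : ℝ) ≤ (1 - h) * M) ≤ p1 := by
    refine lower_q hqq (Sv v0 univ) M h _ hh0 hh1 ?_ (le_refl _)
    rw [sum_Sv]
    exact hv0
  have hsum : PQ q' (fun χ => (∃ v ∈ (univ : Finset (Fin n)), Bad v χ) ∨
      (cS (Sv v0 univ) χ : ℝ) ≤ (1 - h) * M) ≤ 1 / n := by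
    refine (PQ_or_le hqq _ _).trans ((add_le_add hb2 hb3).trans ?_)
    have e1 : (n : ℝ) * (3 * p1) + p1 = (3 * n + 1) * p1 := by ring
    rw [e1]
    refine (mul_le_mul_of_nonneg_left hp1n (by positivity)).trans ?_
    rw [mul_one_div, div_le_div_iff₀ (by positivity) (by linarith)]
    have e2 : (3 * (n : ℝ) + 1) ≤ n ^ 3 := by
      have : (n : ℝ) ^ 3 = n * n * n := by ring
      nlinarith [mul_nonneg (sub_nonneg.2 hnr) (sub_nonneg.2 hnr)]
    nlinarith
  rw [probQ_eq, PQ_compl]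
  have hfin : PQ q' (fun χ => ¬ AllL (gr χ)) ≤ 1 / n := by
    refine (PQ_mono hqq fun χ hχ => ?_).trans hsum
    by_contra hcon
    rw [not_or] at hcon
    obtain ⟨c1, c2⟩ := hcon
    push Not at c1 c2
    apply hχ
    obtain ⟨D, hD⟩ := exists_isMax (by omega : 0 < n) (gr χ)
    have hdeg : ∀ v, cS (Sv v univ) χ = dg (gr χ) v := by
      intro v
      rw [cS_Sv]
      unfold dg
      congr 1
      ext w
      simp
    have hDM : (1 - h) * M < D := by
      rw [hdeg] at c2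
      have : (dg (gr χ) v0 : ℝ) ≤ D := by exact_mod_cast hD.1 v0
      linarith
    have hgood : ∀ v, (v ∉ W → (dg (gr χ) v : ℝ) < T1 ∧
        ({w | (gr χ).Adj v w ∧ w ∈ W}.ncard : ℝ) < T2) ∧
        (v ∈ W → ({w | (gr χ).Adj v w ∧ w ∈ W}.ncard : ℝ) < T3) := by
      intro v
      have hv := c1 v (Finset.mem_univ v)
      rw [hBad] at hv
      simp only [not_or, not_and, not_le] at hv
      obtain ⟨⟨d1, d2⟩, d3⟩ := hv
      rw [hdeg] at d1
      rw [cS_Sv] at d2 d3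
      exact ⟨fun h' => ⟨d1 h', d2 h'⟩, d3⟩
    have hhM : 0 < h * M := by positivity
    have hηM : η * M = 4 * (h * M) := by rw [hh]; ring
    have u1 : T1 = M / 2 - 3 * (h * M) := by rw [hT1]; linarith
    have u3 : T3 = M - β * M - 3 * (h * M) := by rw [hT3]; linarith
    have hη2 : η * M ≤ 1 / 2 * M := mul_le_mul_of_nonneg_right hη1 hM0.le
    have hβM : β * M ≤ 1 / 2 * M := mul_le_mul_of_nonneg_right hβ hM0.le
    have hβM0 : 0 ≤ β * M := by positivity
    have t1 : 0 ≤ T1 := by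
      rw [u1]
      linarith
    have t2 : 0 ≤ T2 := by
      rw [hT2]
      positivity
    have t3 : 0 ≤ T3 := by
      rw [u3]
      linarith
    have f1 := Nat.floor_le t1
    have f2 := Nat.floor_le t2
    have f3 := Nat.floor_le t3
    obtain ⟨hnum, h12'⟩ := num_fact K η M (Real.log n) (⌊T3⌋₊ : ℝ) hK hη hη1 hlog2 hM
      (by linarith)
    have h12 : 3 ≤ h * M := by linarith
    refine hcrit n (gr χ) W D ⌊T1⌋₊ ⌊T2⌋₊ ⌊T3⌋₊ hD
      (fun v hv => Nat.le_floor ((hgood v).1 hv).1.le)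
      (fun v hv => Nat.le_floor ((hgood v).1 hv).2.le)
      (fun v hv => Nat.le_floor ((hgood v).2 hv).le) ?_ ?_ ?_
    · have : (2 * ⌊T1⌋₊ : ℝ) ≤ D := by
        rw [u1] at *
        linarith
      exact_mod_cast this
    · have : (⌊T2⌋₊ + ⌊T3⌋₊ + 3 : ℝ) ≤ D := by
        linarith
      exact_mod_cast this
    · linarith
  linarith

/-- random graphs with given expected degrees -/
theorem cl_ext (C : ℝ) (hC : 0 < C) (hmain : ∀ η : ℝ, 0 < η → η ≤ 1 / 2 → ∀ n : ℕ, 2 ≤ n →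
    ∀ q : Sym2 (Fin n) → ℝ, (∀ e, 0 ≤ q e ∧ q e ≤ 1) → ∀ (M β : ℝ) (W : Finset (Fin n)),
    C / η ^ 2 * Real.log n ≤ M → 0 ≤ β → β ≤ 1 / 2 →
    (∃ v, M ≤ ∑ w ∈ univ.erase v, q s(v, w)) →
    (∀ v, v ∉ W → ∑ w ∈ univ.erase v, q s(v, w) ≤ (1 / 2 - η) * M ∧
      ∑ w ∈ W.erase v, q s(v, w) ≤ β * M) →
    (∀ v, v ∈ W → ∑ w ∈ W.erase v, q s(v, w) ≤ (1 - β - η) * M) →
    1 - 1 / n ≤ probQ q (fun G : SimpleGraph (Fin n) => AllL G))
    (η : ℝ) (hη : 0 < η) (n : ℕ) (hn : 2 ≤ n) (w : Fin n → ℝ)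
    (hw : ∀ i, 0 ≤ w i) (hww : ∀ i j, w i * w j ≤ ∑ k, w k) (m x φ : ℝ)
    (hm : ∀ i, w i ≤ m) (hm' : ∃ i, w i = m) (hmK : (8 * C + 100) / η ^ 2 * Real.log n ≤ m)
    (hx0 : 0 ≤ x) (hφ0 : 0 ≤ φ) (hx : x ≤ 1 / 2 - η) (hφ : (1 + x) * φ ≤ 1 - η)
    (hheavy : ∑ i ∈ univ.filter (fun i => x * m < w i), w i ≤ φ * ∑ k, w k) :
    1 - 1 / n ≤ probQ (qw w) (fun G : SimpleGraph (Fin n) => AllL G) := by
  classical
  have hη2 : η ≤ 1 / 2 := by linarith
  have hnr : (2 : ℝ) ≤ n := by exact_mod_cast hn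
  have hlog2 : (1 / 2 : ℝ) ≤ Real.log n := by
    have h1 : Real.log 2 ≤ Real.log n := Real.log_le_log (by norm_num) hnr
    have := Real.log_two_gt_d9
    linarith
  have hη22 : η ^ 2 ≤ η := by nlinarith
  have hm6 : 6 / η ≤ m := by
    refine le_trans ?_ hmK
    have e1 : 6 / η ≤ 100 / η ^ 2 * (1 / 2) := by
      rw [div_mul_eq_mul_div, div_le_div_iff₀ hη (by positivity)]
      nlinarith
    have e2 : 100 / η ^ 2 ≤ (8 * C + 100) / η ^ 2 :=
      div_le_div_of_nonneg_right (by linarith) (by positivity)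
    exact e1.trans (mul_le_mul e2 hlog2 (by norm_num) (by positivity))
  have hm0 : 0 < m := lt_of_lt_of_le (by positivity) hm6
  set S : ℝ := ∑ k, w k with hS
  obtain ⟨i0, hi0⟩ := hm'
  have hSm : m * m ≤ S := by
    have := hww i0 i0
    rwa [hi0] at this
  have hS0 : 0 < S := lt_of_lt_of_le (by positivity) hSm
  set δ : ℝ := η / 6 with hδ
  have hmS : m / S ≤ δ := by
    rw [div_le_iff₀ hS0]
    have e1 : 6 ≤ m * η := by
      rw [div_le_iff₀ hη] at hm6
      exact hm6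
    have e2 : m * 1 ≤ m * (δ * m) := by
      refine mul_le_mul_of_nonneg_left ?_ hm0.le
      rw [hδ]
      linarith
    have e3 : δ * (m * m) ≤ δ * S := mul_le_mul_of_nonneg_left hSm (by rw [hδ]; positivity)
    nlinarith
  set M : ℝ := m * (1 - m / S) with hM
  have hMm : (1 - δ) * m ≤ M := by
    rw [hM, mul_comm m]
    exact mul_le_mul_of_nonneg_right (by linarith) hm0.le
  have hM2 : m / 2 ≤ M := by
    refine le_trans ?_ hMm
    rw [hδ]
    nlinarith
  have hM0 : 0 < M := by linarith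
  set W : Finset (Fin n) := univ.filter (fun i => x * m < w i) with hW
  have hq01 : ∀ e, 0 ≤ qw w e ∧ qw w e ≤ 1 := by
    intro e
    induction e using Sym2.ind with
    | _ i j =>
      constructor
      · exact div_nonneg (mul_nonneg (hw i) (hw j)) hS0.le
      · exact (div_le_one hS0).2 (hww i j)
  have hsum : ∀ (v : Fin n) (A : Finset (Fin n)),
      ∑ u ∈ A.erase v, qw w s(v, u) ≤ w v * ((∑ u ∈ A, w u) / S) := by
    intro v A
    have e1 : ∀ u, qw w s(v, u) = w v * (w u / S) := by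
      intro u
      show w v * w u / ∑ k, w k = _
      rw [mul_div_assoc]
    rw [Finset.sum_congr rfl fun u _ => e1 u, ← Finset.mul_sum, Finset.sum_div]
    refine mul_le_mul_of_nonneg_left ?_ (hw v)
    exact Finset.sum_le_sum_of_subset_of_nonneg (Finset.erase_subset _ _)
      (fun u _ _ => div_nonneg (hw u) hS0.le)
  have hWS : (∑ u ∈ W, w u) / S ≤ φ := by
    rw [div_le_iff₀ hS0]
    exact hheavy
  have hall : ∀ v, ∑ u ∈ univ.erase v, qw w s(v, u) ≤ w v := by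
    intro v
    refine (hsum v univ).trans (le_of_eq ?_)
    rw [← hS, div_self hS0.ne', mul_one]
  have hinW : ∀ v, ∑ u ∈ W.erase v, qw w s(v, u) ≤ w v * φ := fun v =>
    (hsum v W).trans (mul_le_mul_of_nonneg_left hWS (hw v))
  set β : ℝ := x * φ * m / M with hβ
  have hβM : β * M = x * φ * m := by
    rw [hβ]
    field_simp
  have hxφ' : x * φ ≤ 1 / 3 := by
    have e1 : x * (x * φ) ≤ 1 / 2 * (x * φ) :=
      mul_le_mul_of_nonneg_right (by linarith) (by positivity)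
    have e2 : x * φ ≤ 1 / 2 * φ := mul_le_mul_of_nonneg_right (by linarith) hφ0
    have e3 : (1 + x) * φ = φ + x * φ := by ring
    linarith
  have hδ0 : 0 < δ := by rw [hδ]; positivity
  have hδ9 : δ ≤ 1 / 12 := by rw [hδ]; linarith
  refine hmain (η / 2) (by positivity) (by linarith) n hn (qw w) hq01 M β W ?_ ?_ ?_ ?_ ?_ ?_
  · have e1 : C / (η / 2) ^ 2 * Real.log n = 8 * C / η ^ 2 * Real.log n / 2 := by
      field_simp
      ring
    have e2 : 8 * C / η ^ 2 * Real.log n ≤ (8 * C + 100) / η ^ 2 * Real.log n := by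
      refine mul_le_mul_of_nonneg_right ?_ (by linarith)
      exact div_le_div_of_nonneg_right (by linarith) (by positivity)
    rw [e1]
    linarith
  · rw [hβ]
    positivity
  · rw [hβ, div_le_iff₀ hM0]
    have e1 : x * φ * m ≤ 1 / 3 * m := mul_le_mul_of_nonneg_right hxφ' hm0.le
    nlinarith
  · refine ⟨i0, ?_⟩
    have e1 : ∀ u, qw w s(i0, u) = w i0 * (w u / S) := by
      intro u
      show w i0 * w u / ∑ k, w k = _
      rw [mul_div_assoc]
    rw [Finset.sum_congr rfl fun u _ => e1 u, ← Finset.mul_sum, ← Finset.sum_div]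
    have e2 : ∑ u ∈ univ.erase i0, w u = S - m := by
      have := Finset.add_sum_erase univ w (Finset.mem_univ i0)
      rw [hi0] at this
      linarith
    rw [e2, hi0, hM]
    refine le_of_eq ?_
    field_simp
  · intro v hv
    have hvx : w v ≤ x * m := by
      by_contra hcon
      exact hv (Finset.mem_filter.2 ⟨Finset.mem_univ _, not_le.1 hcon⟩)
    constructor
    · refine (hall v).trans (hvx.trans ?_)
      have e3 : x * m ≤ (1 / 2 - η) * m := mul_le_mul_of_nonneg_right hx hm0.le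
      have e4 : (1 / 2 - η / 2) * ((1 - δ) * m) ≤ (1 / 2 - η / 2) * M :=
        mul_le_mul_of_nonneg_left hMm (by linarith)
      refine e3.trans (le_trans ?_ e4)
      have e5 : 1 / 2 - η ≤ (1 / 2 - η / 2) * (1 - δ) := by
        rw [hδ]
        nlinarith
      calc (1 / 2 - η) * m ≤ ((1 / 2 - η / 2) * (1 - δ)) * m :=
            mul_le_mul_of_nonneg_right e5 hm0.le
        _ = (1 / 2 - η / 2) * ((1 - δ) * m) := by ring
    · refine (hinW v).trans ?_
      rw [hβM]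
      calc w v * φ ≤ x * m * φ := mul_le_mul_of_nonneg_right hvx hφ0
        _ = x * φ * m := by ring
  · intro v _
    refine (hinW v).trans ?_
    have e1 : w v * φ ≤ m * φ := mul_le_mul_of_nonneg_right (hm v) hφ0
    refine e1.trans ?_
    have e0 : (1 - β - η / 2) * M = (1 - η / 2) * M - x * φ * m := by
      rw [← hβM]
      ring
    rw [e0]
    have e4 : (1 - η / 2) * ((1 - δ) * m) ≤ (1 - η / 2) * M :=
      mul_le_mul_of_nonneg_left hMm (by linarith)
    have e5 : 1 - η ≤ (1 - η / 2) * (1 - δ) := by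
      rw [hδ]
      nlinarith
    have e6 : (1 - η) * m ≤ (1 - η / 2) * ((1 - δ) * m) := by
      calc (1 - η) * m ≤ ((1 - η / 2) * (1 - δ)) * m := mul_le_mul_of_nonneg_right e5 hm0.le
        _ = (1 - η / 2) * ((1 - δ) * m) := by ring
    have e7 : (1 + x) * φ * m ≤ (1 - η) * m := mul_le_mul_of_nonneg_right hφ hm0.le
    have e8 : (1 + x) * φ * m = m * φ + x * φ * m := by ring
    linarith

end Pool.Agent.U531.SR.TW
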