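import Pool.Agent.U605.TL.Fin
import Pool.Agent.U531.SR.Het

/-!
# Total colourings extending a distance-3 matching: the criterion with lists

The definitions and the proofs up to `list_part` are those of the result `SmallDegreeNeighbours` of
helper605.
-/

set_option autoImplicit false
set_option linter.all false

namespace Pool.Agent.U531.SR.TW

open Finset Pool.Agent.U605.TL

/-- The colours `c` of the vertices and `d` of the edges form a total colouring of `G`: adjacent
vertices get different colours, distinct edges with a common end get different colours, and an edge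
gets a colour different from the colours of its ends. (Values of `d` at pairs that are not edges of
`G` play no role.) -/
structure IsTotalColoring {V : Type} (G : SimpleGraph V) (c : V → ℕ) (d : Sym2 V → ℕ) :
    Prop where
  vert : ∀ u v, G.Adj u v → c u ≠ c v
  edge : ∀ u v w, G.Adj u v → G.Adj u w → v ≠ w → d s(u, v) ≠ d s(u, w)
  inc : ∀ u v, G.Adj u v → d s(u, v) ≠ c u

/-- `H` (with vertex set `H.support`) is a distance-3 matching in `G`. -/
structure IsDistThreeMatching {V : Type} (G H : SimpleGraph V) : Prop where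
  le : H ≤ G
  matching : ∀ u v w, H.Adj u v → H.Adj u w → v = w
  dist : ∀ u ∈ H.support, ∀ v ∈ H.support, u ≠ v → ¬ H.Adj u v → 3 ≤ G.edist u v

/-- Whenever every vertex and every edge of `G` has a list of at least `k` colours, every total
colouring of `H` (with any colours) extends to a total colouring of `G` in which the vertices and
edges outside `H` get colours from their lists. -/
def ListExtends {V : Type} (G H : SimpleGraph V) (k : ℕ) : Prop :=
  ∀ (L : V → Finset ℕ) (M : Sym2 V → Finset ℕ), (∀ v, k ≤ (L v).card) →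
    (∀ e ∈ G.edgeSet, k ≤ (M e).card) →
    ∀ (c : V → ℕ) (d : Sym2 V → ℕ), IsTotalColoring H c d →
      ∃ (c' : V → ℕ) (d' : Sym2 V → ℕ), IsTotalColoring G c' d' ∧
        (∀ v ∈ H.support, c' v = c v) ∧ (∀ e ∈ H.edgeSet, d' e = d e) ∧
        (∀ v, v ∉ H.support → c' v ∈ L v) ∧
        ∀ e ∈ G.edgeSet, e ∉ H.edgeSet → d' e ∈ M e

/-- the degree of `v` -/
noncomputable def deg {V : Type} (G : SimpleGraph V) (v : V) : ℕ := (G.neighborSet v).ncard

/-- the number of neighbours of `v` in `W` -/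
noncomputable def degIn {V : Type} (G : SimpleGraph V) (W : Set V) (v : V) : ℕ :=
  {w | G.Adj v w ∧ w ∈ W}.ncard

/-- All degrees are less than `N`, the vertices outside `W` have degree less than `N / 2`, and for
adjacent vertices `x` outside and `y` in `W` the numbers of neighbours in `W` have sum at most
`N - 4`. -/
structure Small {V : Type} (G : SimpleGraph V) (W : Set V) (N : ℕ) : Prop where
  all : ∀ v, deg G v < N
  low : ∀ x, x ∉ W → 2 * deg G x < N
  cross : ∀ x y, G.Adj x y → x ∉ W → y ∈ W → degIn G W x + degIn G W y + 4 ≤ N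

theorem far_one {a b : ℕ} : far 1 a b ↔ b ≠ a := by
  unfold far
  omega

theorem dist_facts {V : Type} [Fintype V] {G H : SimpleGraph V} (hH : IsDistThreeMatching G H) :
    (∀ u v, G.Adj u v → (∃ x, H.Adj u x) → (∃ y, H.Adj v y) → H.Adj u v) ∧
    (∀ v, nin G (fun w => ∃ x, H.Adj w x) v ≤ 2) := by
  have hA : ∀ u v, G.Adj u v → (∃ x, H.Adj u x) → (∃ y, H.Adj v y) → H.Adj u v := by
    rintro u v huv ⟨x, hx⟩ ⟨y, hy⟩
    by_contra hn
    have h3 := hH.dist u ⟨x, hx⟩ v ⟨y, hy⟩ huv.ne hn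
    have h4 : G.edist u v ≤ 1 := by
      have := SimpleGraph.edist_le (SimpleGraph.Walk.cons huv SimpleGraph.Walk.nil)
      simpa using this
    have h5 : (3 : ℕ∞) ≤ 1 := h3.trans h4
    exact absurd h5 (by decide)
  refine ⟨hA, ?_⟩
  have hB : ∀ u v w, G.Adj w u → G.Adj w v → (∃ x, H.Adj u x) → (∃ y, H.Adj v y) → u ≠ v →
      H.Adj u v := by
    rintro u v w hwu hwv ⟨x, hx⟩ ⟨y, hy⟩ huv
    by_contra hn
    have h3 := hH.dist u ⟨x, hx⟩ v ⟨y, hy⟩ huv hn
    have h4 : G.edist u v ≤ 2 := by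
      have := SimpleGraph.edist_le (SimpleGraph.Walk.cons hwu.symm
        (SimpleGraph.Walk.cons hwv SimpleGraph.Walk.nil))
      simpa using this
    have h5 : (3 : ℕ∞) ≤ 2 := h3.trans h4
    exact absurd h5 (by decide)
  intro v
  unfold nin
  by_cases hex : ∃ w, G.Adj v w ∧ ∃ x, H.Adj w x
  · obtain ⟨w, hvw, x, hwx⟩ := hex
    refine le_trans (Set.ncard_le_ncard (t := {w, x}) ?_ (Set.toFinite _))
      ((Set.ncard_insert_le w {x}).trans (by simp))
    rintro z ⟨hvz, y, hzy⟩
    by_cases hzw : z = w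
    · exact Or.inl hzw
    · right
      have h1 := hB w z v hvw hvz ⟨x, hwx⟩ ⟨y, hzy⟩ (Ne.symm hzw)
      exact hH.matching w z x h1 hwx
  · have : {w | G.Adj v w ∧ ∃ x, H.Adj w x} = ∅ := by
      rw [Set.eq_empty_iff_forall_notMem]
      rintro w ⟨h1, h2⟩
      exact hex ⟨w, h1, h2⟩
    rw [this]
    simp

theorem nin_eq {V : Type} (G : SimpleGraph V) (W : Set V) (v : V) :
    nin G (fun w => w ∈ W) v = degIn G W v := rfl

theorem degIn_le {V : Type} [Fintype V] (G : SimpleGraph V) (W : Set V) (v : V) :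
    degIn G W v ≤ deg G v :=
  Set.ncard_le_ncard (fun w hw => hw.1) (Set.toFinite _)

/-- from the edges inside `W` -/
theorem base (V : Type) [Fintype V] (G H : SimpleGraph V) (W : Set V) (N : ℕ)
    (hH : IsDistThreeMatching G H) (hS : Small G W N) (L : V → Finset ℕ) (M : Sym2 V → Finset ℕ)
    (hL : ∀ v, N ≤ (L v).card) (hM : ∀ e ∈ G.edgeSet, N ≤ (M e).card)
    (key : ∀ Z : V → Finset ℕ, (∀ v, (Z v).card ≤ 2) →
      Pool.Agent.H162R2.Sparse.LC (ins G H (fun v => v ∈ W)) (fun u v => M s(u, v) \ (Z u ∪ Z v)))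
    (c : V → ℕ) (d : Sym2 V → ℕ) (hcd : IsTotalColoring H c d) :
    ∃ (c' : V → ℕ) (d' : Sym2 V → ℕ), IsTotalColoring G c' d' ∧
        (∀ v ∈ H.support, c' v = c v) ∧ (∀ e ∈ H.edgeSet, d' e = d e) ∧
        (∀ v, v ∉ H.support → c' v ∈ L v) ∧
        ∀ e ∈ G.edgeSet, e ∉ H.edgeSet → d' e ∈ M e := by
  obtain ⟨hDD, htwo⟩ := dist_facts hH
  obtain ⟨f, g, a1, a2, a3, a4, a5, a6, a7⟩ := fin (p := 1) (N := N) le_rfl G H hH.le hH.matching
    hDD htwo (fun v => v ∈ W) L M (fun v _ => hL v) (fun u v huv _ => hM _ huv)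
    (fun v => hS.all v) c d hcd.vert (fun u v huv => far_one.2 (hcd.inc u v huv))
    (by
      intro x hx
      have := hS.low x hx
      have e : Pool.Agent.TH559.LE.dg G x = deg G x := rfl
      rw [e]
      omega)
    (by
      intro x y hxy hx hy
      have h1 := hS.cross x y hxy hx hy
      have h3 := hS.all y
      have e : Pool.Agent.TH559.LE.dg G y = deg G y := rfl
      rw [nin_eq, nin_eq, e]
      omega)
    (fun Z hZ => key Z (fun v => by have := hZ v; omega))
  refine ⟨f, g, ⟨a1, a2, fun u v huv => far_one.1 (a3 u v huv)⟩, fun v hv => a4 v hv, ?_,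
    fun v hv => a6 v hv, ?_⟩
  · intro e
    induction e using Sym2.ind with
    | _ u v =>
      intro he
      exact a5 u v he
  · intro e
    induction e using Sym2.ind with
    | _ u v =>
      intro he hn
      exact a7 u v he hn

/-- lists -/
theorem list_part : ∃ K : ℝ, 1 ≤ K ∧ ∀ ε : ℝ, 0 < ε → ∃ n₀ : ℕ, ∀ (V : Type) [Fintype V]
    (G H : SimpleGraph V) (W : Set V) (N d : ℕ), IsDistThreeMatching G H → Small G W N →
    (∀ y ∈ W, degIn G W y ≤ d) →
    ((d : ℝ) + 4 + K * (Real.sqrt (d * Real.log (Fintype.card V)) +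
        Real.log (Fintype.card V)) ≤ N ∨
      n₀ ≤ Fintype.card V ∧
        (d : ℝ) + 4 + ε * Real.sqrt (Fintype.card V * Real.log (Fintype.card V)) ≤ N) →
    ListExtends G H N := by
  classical
  obtain ⟨K, hK, hSq⟩ := Pool.Agent.H892.LEC.col_S
  refine ⟨K, hK, fun ε hε => ?_⟩
  obtain ⟨n₀, hDn⟩ := Pool.Agent.H892.LEC.col_D ε hε
  refine ⟨n₀, ?_⟩
  intro V _ G H W N d hH hS hd hN L M hL hM c e hce
  refine base V G H W N hH hS L M hL hM ?_ c e hce
  intro Z hZ
  have hdeg := ins_deg G H (fun v => v ∈ W) d hd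
  have hsym : ∀ x y : V, M s(x, y) \ (Z x ∪ Z y) = M s(y, x) \ (Z y ∪ Z x) := by
    intro x y
    rw [Sym2.eq_swap, Finset.union_comm]
  have hcard : ∀ x y : V, (ins G H (fun v => v ∈ W)).Adj x y →
      (N : ℝ) ≤ ((M s(x, y) \ (Z x ∪ Z y)).card : ℝ) + 4 := by
    intro x y hxy
    have h1 := hM s(x, y) hxy.1
    have h2 := Finset.le_card_sdiff (Z x ∪ Z y) (M s(x, y))
    have h3 := Finset.card_union_le (Z x) (Z y)
    have h4 := hZ x
    have h5 := hZ y
    have h6 : N ≤ (M s(x, y) \ (Z x ∪ Z y)).card + 4 := by omega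
    exact_mod_cast h6
  rcases hN with hN | ⟨hn, hN⟩
  · refine hSq V (ins G H (fun v => v ∈ W)) d hdeg _ hsym (fun x y hxy => ?_)
    have h7 := hcard x y hxy
    linarith
  · refine hDn V (ins G H (fun v => v ∈ W)) d hn hdeg _ hsym (fun x y hxy => ?_)
    have h7 := hcard x y hxy
    linarith


/-- all total colourings of all distance-3 matchings extend, from lists of `Δ + 1` colours -/
def AllL {n : ℕ} (G : SimpleGraph (Fin n)) : Prop :=
  ∀ H : SimpleGraph (Fin n), IsDistThreeMatching G H →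
    ∀ N : ℕ, (∀ v, (G.neighborSet v).ncard + 1 ≤ N) → ListExtends G H N

theorem crit : ∃ K : ℝ, 1 ≤ K ∧ ∀ (n : ℕ) (G : SimpleGraph (Fin n)) (W : Finset (Fin n))
    (D k b0 b1 : ℕ), Pool.Agent.U531.SR.IsMax G D →
    (∀ v, v ∉ W → Pool.Agent.U531.SR.dg G v ≤ k) →
    (∀ v, v ∉ W → {w | G.Adj v w ∧ w ∈ W}.ncard ≤ b0) →
    (∀ v, v ∈ W → {w | G.Adj v w ∧ w ∈ W}.ncard ≤ b1) →
    2 * k ≤ D → b0 + b1 + 3 ≤ D →
    (b1 : ℝ) + 3 + K * (Real.sqrt (b1 * Real.log n) + Real.log n) ≤ D → AllL G := by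
  classical
  obtain ⟨K, hK, h⟩ := list_part
  obtain ⟨n₀, h1⟩ := h 1 one_pos
  refine ⟨K, hK, ?_⟩
  intro n G W D k b0 b1 hD hk h2 h3 e1 e2 e3 H hH N hN
  obtain ⟨v0, hv0⟩ := hD.2
  have hDN : D + 1 ≤ N := by
    have := hN v0
    have e : Pool.Agent.U531.SR.dg G v0 = (G.neighborSet v0).ncard := rfl
    omega
  refine h1 (Fin n) G H (W : Set (Fin n)) N b1 hH ⟨?_, ?_, ?_⟩ ?_ (Or.inl ?_)
  · intro v
    have := hD.1 v
    have e : Pool.Agent.U531.SR.dg G v = deg G v := rfl
    omega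
  · intro x hx
    have := hk x (fun h => hx h)
    have e : Pool.Agent.U531.SR.dg G x = deg G x := rfl
    omega
  · intro x y _ hx hy
    have a1 := h2 x (fun h => hx h)
    have a2 := h3 y hy
    have a3 : degIn G (W : Set (Fin n)) x = {w | G.Adj x w ∧ w ∈ W}.ncard := rfl
    have a4 : degIn G (W : Set (Fin n)) y = {w | G.Adj y w ∧ w ∈ W}.ncard := rfl
    omega
  · intro y hy
    exact h3 y hy
  · rw [Fintype.card_fin]
    have : ((D : ℝ) + 1) ≤ N := by exact_mod_cast hDN
    linarith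

end Pool.Agent.U531.SR.TW
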