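import Pool.Agent.U531.SR.Tail2

/-!
# The largest degrees of a random graph that is not sparse
-/

set_option autoImplicit false

namespace Pool.Agent.U531.SR

open Finset

/-- Markov's inequality -/
theorem markov {E V : Type} [Fintype E] [DecidableEq E] [Fintype V] {p : ℝ} (h0 : 0 ≤ p)
    (h1 : p ≤ 1) (A : V → (E → Bool) → Prop) (b : ℕ) :
    PR p (fun χ => b < {v | A v χ}.ncard) * (b + 1) ≤ ∑ v, PR p (A v) := by
  classical
  simp_rw [PR_eq]
  rw [Finset.sum_comm, Finset.sum_mul]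
  refine Finset.sum_le_sum fun χ _ => ?_
  have e1 : ∑ v, (if A v χ then wt p χ else 0) = wt p χ * ({v | A v χ}.ncard : ℝ) := by
    rw [← Finset.sum_filter, Finset.sum_const, nsmul_eq_mul, mul_comm]
    congr 2
    rw [← Set.ncard_coe_finset]
    congr 1
    ext v
    simp
  rw [e1]
  have hw := wt_nonneg h0 h1 χ
  split_ifs with h
  · refine mul_le_mul_of_nonneg_left ?_ hw
    exact_mod_cast h
  · rw [zero_mul]
    positivity

theorem PR_le_one {E : Type} [Fintype E] [DecidableEq E] {p : ℝ} (h0 : 0 ≤ p) (h1 : p ≤ 1)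
    (P : (E → Bool) → Prop) : PR p P ≤ 1 := by
  have e := PR_compl p P
  have h := PR_nonneg h0 h1 (fun χ => ¬ P χ)
  linarith

/-- large degrees exist: second moment -/
theorem PR_max2 {n : ℕ} (hn : 2 ≤ n) {p : ℝ} (h0 : 0 ≤ p) (h1 : p ≤ 1) (T : ℕ)
    (hb : 0 < BT (n - 2) T p) :
    PR p (fun χ : Pairs n → Bool => ∀ v, dg (gr χ) v < T) ≤
      1 / (n * BT (n - 2) T p) +
        ((BT (n - 2) (T - 1) p - BT (n - 2) T p) / BT (n - 2) T p) ^ 2 := by
  classical
  set a : ℝ := BT (n - 2) (T - 1) p with ha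
  set b : ℝ := BT (n - 2) T p with hbd
  have hab : b ≤ a := BT_anti h0 h1 _ (Nat.sub_le _ _)
  have hn0 : (0 : ℝ) < n := by exact_mod_cast (by omega : 0 < n)
  set m : ℝ := p * a + (1 - p) * b with hm
  have hbm : b ≤ m := by
    rw [hm]
    nlinarith
  set A : Fin n → (Pairs n → Bool) → Prop := fun v χ => T ≤ dg (gr χ) v with hA
  set S : ℝ := ∑ v, PR p (A v) with hS
  have hother : ∀ v : Fin n, ∃ u : Fin n, u ≠ v := by
    intro v
    by_contra hcon
    push Not at hcon
    have h1 := hcon ⟨0, by omega⟩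
    have h2 := hcon ⟨1, by omega⟩
    rw [← h2] at h1
    simp at h1
  have hSm : n * m ≤ S := by
    have : ∀ v : Fin n, m ≤ PR p (A v) := by
      intro v
      obtain ⟨u, hu⟩ := hother v
      exact PR_dg_ge' u v hu h0 h1 T
    calc (n : ℝ) * m = ∑ _v : Fin n, m := by
          rw [Finset.sum_const, Finset.card_univ, Fintype.card_fin, nsmul_eq_mul]
      _ ≤ S := Finset.sum_le_sum fun v _ => this v
  set W : ℝ := p * a ^ 2 + (1 - p) * b ^ 2 with hW
  have hW0 : 0 ≤ W := by
    have : 0 ≤ 1 - p := by linarith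
    positivity
  have hpair : ∑ u, ∑ v, PR p (fun χ => A u χ ∧ A v χ) ≤ S + n ^ 2 * W := by
    have h2 : ∀ u v, PR p (fun χ => A u χ ∧ A v χ) ≤ (if u = v then PR p (A v) else 0) + W := by
      intro u v
      by_cases huv : u = v
      · rw [if_pos huv]
        have : PR p (fun χ => A u χ ∧ A v χ) ≤ PR p (A v) := PR_mono h0 h1 fun χ h => h.2
        linarith
      · rw [if_neg huv, zero_add]
        exact PR_both' u v huv h0 h1 T
    refine (Finset.sum_le_sum fun u _ => Finset.sum_le_sum fun v _ => h2 u v).trans (le_of_eq ?_)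
    simp_rw [Finset.sum_add_distrib]
    rw [Finset.sum_const, Finset.sum_const, Finset.card_univ, Fintype.card_fin, nsmul_eq_mul,
      nsmul_eq_mul]
    congr 1
    · rw [Finset.sum_comm]
      refine Finset.sum_congr rfl fun v _ => ?_
      rw [Finset.sum_ite_eq' Finset.univ v (fun _ => PR p (A v)), if_pos (Finset.mem_univ v)]
    · ring
  have hsm := second_moment h0 h1 A
  set P : ℝ := PR p (fun χ : Pairs n → Bool => ∃ v, A v χ) with hP
  have hP0 : 0 ≤ P := PR_nonneg h0 h1 _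
  have hP1 : P ≤ 1 := PR_le_one h0 h1 _
  have hSpos : 0 < S := lt_of_lt_of_le (mul_pos hn0 (lt_of_lt_of_le hb hbm)) hSm
  have hSb : n * b ≤ S := le_trans (mul_le_mul_of_nonneg_left hbm hn0.le) hSm
  set r : ℝ := (a - b) / b with hr
  have hrb : a - b = r * b := by
    rw [hr]
    field_simp
  have hWm : W ≤ m ^ 2 + (r * b) ^ 2 := by
    rw [← hrb, hW, hm]
    nlinarith [mul_nonneg h0 (by linarith : (0 : ℝ) ≤ 1 - p), sq_nonneg (a - b),
      mul_nonneg (mul_nonneg h0 (by linarith : (0 : ℝ) ≤ 1 - p)) (sq_nonneg (a - b)),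
      mul_nonneg h0 (sq_nonneg (a - b))]
  have hkey : S ^ 2 ≤ P * (S + S ^ 2 + r ^ 2 * S ^ 2) := by
    refine hsm.trans (mul_le_mul_of_nonneg_left (hpair.trans ?_) hP0)
    have e1 : (n : ℝ) ^ 2 * W ≤ (n * m) ^ 2 + r ^ 2 * (n * b) ^ 2 := by
      have := mul_le_mul_of_nonneg_left hWm (sq_nonneg (n : ℝ))
      calc (n : ℝ) ^ 2 * W ≤ n ^ 2 * (m ^ 2 + (r * b) ^ 2) := this
        _ = (n * m) ^ 2 + r ^ 2 * (n * b) ^ 2 := by ring
    have e2 : ((n : ℝ) * m) ^ 2 ≤ S ^ 2 :=
      pow_le_pow_left₀ (by have := lt_of_lt_of_le hb hbm; positivity) hSm 2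
    have e3 : ((n : ℝ) * b) ^ 2 ≤ S ^ 2 := pow_le_pow_left₀ (by positivity) hSb 2
    have e4 := mul_le_mul_of_nonneg_left e3 (sq_nonneg r)
    linarith
  have hfin : 1 - P ≤ 1 / S + r ^ 2 := by
    have h3 : S * (1 - P) ≤ 1 + r ^ 2 * S := by
      have h4 : S * (S * (1 - P)) ≤ S * (1 + r ^ 2 * S) := by
        have h5 : P * (S + r ^ 2 * S ^ 2) ≤ 1 * (S + r ^ 2 * S ^ 2) :=
          mul_le_mul_of_nonneg_right hP1 (by positivity)
        nlinarith
      exact le_of_mul_le_mul_left h4 hSpos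
    refine le_of_mul_le_mul_left ?_ hSpos
    refine h3.trans (le_of_eq ?_)
    field_simp
  have hcompl : PR p (fun χ : Pairs n → Bool => ∀ v, dg (gr χ) v < T) = 1 - P := by
    rw [hP, ← PR_compl]
    refine PR_congr fun χ => ?_
    simp only [hA]
    push Not
    rfl
  rw [hcompl]
  refine hfin.trans (add_le_add_left ?_ _)
  exact one_div_le_one_div_of_le (by positivity) hSb

/-- the data of a random graph `G(n, p)` with `n p` large compared with `L = log n` -/
structure Dat (n : ℕ) (p c K μ L R : ℝ) : Prop where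
  hc : 0 < c
  hc1 : c ≤ 1
  hp : 0 < p
  hp1 : p ≤ 1 - c
  hK : 64 ≤ K
  hμ : μ = n * p
  hn : Real.exp L = n
  hL : 1 ≤ L
  hR : 1 ≤ R
  hRR : R ^ 2 = μ * L
  hKR : K * R ≤ c * μ
  hcn : 4 ≤ c * n

variable {n : ℕ} {p c K μ L R : ℝ}

theorem Dat.ratio (h : Dat n p c K μ L R) (s t : ℕ) (hs : (s : ℝ) ≤ R) :
    BT (n - 2) t p ≤ (1 + 32 * R / (c * μ)) ^ s * BT (n - 2) (t + s) p + Real.exp (-(6 * L)) := by
  obtain ⟨hc, hc1, hp, hp1, hK, hμ, hn, hL, hR, hRR, hKR, hcn⟩ := h
  have hn4 : (4 : ℝ) ≤ n := by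
    have h0 : (0 : ℝ) ≤ n := Nat.cast_nonneg _
    nlinarith
  have hn2 : 2 ≤ n := by
    have : (2 : ℝ) ≤ n := by linarith
    exact_mod_cast this
  have hμ0 : 0 < μ := by
    rw [hμ]
    have : (0 : ℝ) < n := by linarith
    positivity
  have hR0 : 0 < R := by linarith
  have hKR' : 64 * R ≤ c * μ := le_trans (mul_le_mul_of_nonneg_right hK hR0.le) hKR
  have hcμ : c * μ ≤ μ := by
    have := mul_le_mul_of_nonneg_right hc1 hμ0.le
    linarith
  have hμn : μ ≤ n - c * n := by
    rw [hμ]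
    have : (n : ℝ) * p ≤ n * (1 - c) := mul_le_mul_of_nonneg_left hp1 (by linarith)
    linarith
  set M : ℕ := ⌊μ + 6 * R⌋₊ with hM
  have hM1 : (M : ℝ) ≤ μ + 6 * R := Nat.floor_le (by positivity)
  have hM2 : μ + 6 * R < M + 1 := Nat.lt_floor_add_one _
  have hcμn : c * μ ≤ c * n := by
    have hpp : p ≤ 1 := by linarith
    have : μ ≤ n := by
      rw [hμ]
      have := mul_le_mul_of_nonneg_left hpp (by linarith : (0 : ℝ) ≤ n)
      linarith
    exact mul_le_mul_of_nonneg_left this hc.le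
  have hMN : M + 1 ≤ n - 2 := by
    have e1 : ((M + 3 : ℕ) : ℝ) ≤ n := by
      push_cast
      linarith
    have e2 : M + 3 ≤ n := by exact_mod_cast e1
    omega
  have hsM : s ≤ M + 2 := by
    have e1 : (s : ℝ) ≤ ((M + 2 : ℕ) : ℝ) := by
      push_cast
      linarith
    exact_mod_cast e1
  have hN : ((n - 2 : ℕ) : ℝ) = (n : ℝ) - 2 := by
    rw [Nat.cast_sub hn2]
    norm_num
  have hp10 : p ≤ 1 := by linarith
  set θ : ℝ := 32 * R / (c * μ) with hθ
  have hθ0 : 0 ≤ θ := by positivity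
  have hθc : θ * (c * μ) = 32 * R := by
    rw [hθ]
    field_simp
  have hθ1 : θ ≤ 1 / 2 := by
    rw [hθ, div_le_iff₀ (by positivity)]
    linarith
  have hratio : ((M : ℝ) + 1) * (1 - p) ≤ (1 + θ) * ((((n - 2 : ℕ) : ℝ) - M) * p) := by
    rw [hN]
    have hq : c ≤ 1 - p := by linarith
    set q : ℝ := 1 - p with hq'
    have hpq : p = 1 - q := by rw [hq']; ring
    -- (n - 2 - M) p >= μ q - (6 R + 2)
    have e1 : μ * q - (6 * R + 2) * p ≤ ((n : ℝ) - 2 - M) * p := by
      have e2 : ((n : ℝ) - 2 - (μ + 6 * R)) * p ≤ ((n : ℝ) - 2 - M) * p :=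
        mul_le_mul_of_nonneg_right (by linarith) hp.le
      refine le_trans (le_of_eq ?_) e2
      rw [hq']
      have : (n : ℝ) * p = μ := hμ.symm
      linear_combination (-1 : ℝ) * this
    have e3 : μ * q - (6 * R + 2) ≤ ((n : ℝ) - 2 - M) * p := by
      refine le_trans ?_ e1
      have : (6 * R + 2) * p ≤ (6 * R + 2) * 1 := mul_le_mul_of_nonneg_left hp10 (by positivity)
      linarith
    have e4 : ((M : ℝ) + 1) * q ≤ (μ + 6 * R + 1) * q :=
      mul_le_mul_of_nonneg_right (by linarith) (by linarith)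
    refine e4.trans (le_trans ?_ (mul_le_mul_of_nonneg_left e3 (by linarith)))
    -- (μ + 6R + 1) q <= (1 + θ)(μ q - (6R+2))
    have hq1 : q ≤ 1 := by linarith
    have e5 : 32 * R ≤ θ * (μ * q) := by
      rw [← hθc]
      have : c * μ ≤ μ * q := by
        rw [mul_comm]
        exact mul_le_mul_of_nonneg_left hq hμ0.le
      exact mul_le_mul_of_nonneg_left this hθ0
    have e6 : (6 * R + 1) * q ≤ 6 * R + 1 := by
      have := mul_le_mul_of_nonneg_left hq1 (by positivity : (0 : ℝ) ≤ 6 * R + 1)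
      linarith
    have e7 : θ * (6 * R + 2) ≤ 1 / 2 * (6 * R + 2) :=
      mul_le_mul_of_nonneg_right hθ1 (by positivity)
    nlinarith
  have hmain := BT_ratio (N := n - 2) (M := M) hp.le hp10 (by linarith : (0 : ℝ) ≤ 1 + θ) hMN
    hratio s t hsM
  refine hmain.trans (add_le_add_right ?_ _)
  have hch := BT_chernoff (N := n - 2) (t := M + 2 - s) (μ := μ) (y := 5 * R) hp.le hp10 hμ0
    (by
      rw [hN, hμ]
      have : 0 ≤ 2 * p := by positivity
      linarith) (by positivity) (by linarith)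
    (by
      rw [Nat.cast_sub hsM]
      push_cast
      linarith)
  refine hch.trans (Real.exp_le_exp.2 ?_)
  have e1 : (5 * R) ^ 2 / (4 * μ) = 25 / 4 * L := by
    rw [mul_pow, hRR]
    field_simp
    ring
  rw [e1]
  linarith

theorem Dat.ratio' (h : Dat n p c K μ L R) (s t : ℕ) (hs : (s : ℝ) ≤ c / 640 * R) :
    BT (n - 2) t p ≤ Real.exp (L / 20) * BT (n - 2) (t + s) p + Real.exp (-(6 * L)) := by
  have h' := h
  obtain ⟨hc, hc1, hp, hp1, hK, hμ, hn, hL, hR, hRR, hKR, hcn⟩ := h'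
  have hR0 : 0 < R := by linarith
  have hμ0 : 0 < μ := by
    by_contra hcon
    push Not at hcon
    nlinarith
  have hs' : (s : ℝ) ≤ R := by
    refine hs.trans ?_
    have : c / 640 * R ≤ 1 * R := mul_le_mul_of_nonneg_right (by linarith) hR0.le
    linarith
  refine (h.ratio s t hs').trans (add_le_add_left ?_ _)
  refine mul_le_mul_of_nonneg_right ?_ (BT_nonneg hp.le (by linarith) _ _)
  set θ : ℝ := 32 * R / (c * μ) with hθ
  have hθ0 : 0 ≤ θ := by positivity
  calc (1 + θ) ^ s ≤ (Real.exp θ) ^ s := by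
        apply pow_le_pow_left₀ (by linarith)
        have := Real.add_one_le_exp θ
        linarith
    _ = Real.exp (s * θ) := by rw [← Real.exp_nat_mul]
    _ ≤ Real.exp (L / 20) := by
        apply Real.exp_le_exp.2
        have e1 : (s : ℝ) * θ ≤ (c / 640 * R) * θ := mul_le_mul_of_nonneg_right hs hθ0
        refine e1.trans (le_of_eq ?_)
        rw [hθ]
        have e2 : c / 640 * R * (32 * R / (c * μ)) = R ^ 2 / (20 * μ) := by
          field_simp
          ring
        rw [e2, hRR]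
        field_simp

/-- the threshold -/
theorem Dat.exists_t (h : Dat n p c K μ L R) : ∃ t : ℕ,
    BT (n - 2) t p < Real.exp (-(19 / 20 * L)) ∧
    (∀ s : ℕ, (s : ℝ) ≤ c / 640 * R → s < t ∧
      BT (n - 2) (t - s) p ≤ 2 * Real.exp (-(9 / 10 * L))) ∧
    (1 ≤ t → Real.exp (-(19 / 20 * L)) ≤ BT (n - 2) (t - 1) p) := by
  classical
  have h' := h
  obtain ⟨hc, hc1, hp, hp1, hK, hμ, hn, hL, hR, hRR, hKR, hcn⟩ := h'
  have hp10 : p ≤ 1 := by linarith
  have hex : ∃ t : ℕ, BT (n - 2) t p < Real.exp (-(19 / 20 * L)) := by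
    refine ⟨n - 2 + 1, ?_⟩
    rw [BT_eq_sum, Finset.Ico_self, Finset.sum_empty]
    exact Real.exp_pos _
  set t := Nat.find hex with ht
  have ht1 : BT (n - 2) t p < Real.exp (-(19 / 20 * L)) := Nat.find_spec hex
  have ht2 : ∀ t' < t, Real.exp (-(19 / 20 * L)) ≤ BT (n - 2) t' p := by
    intro t' h'
    exact not_lt.1 (Nat.find_min hex h')
  have h6 : Real.exp (-(6 * L)) ≤ Real.exp (-(9 / 10 * L)) := Real.exp_le_exp.2 (by linarith)
  refine ⟨t, ht1, fun s hs => ?_, fun h1 => ht2 _ (by omega)⟩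
  have hst : s < t := by
    by_contra hcon
    push Not at hcon
    have e1 := h.ratio' s 0 hs
    rw [BT_zero, zero_add] at e1
    have e2 : BT (n - 2) s p ≤ Real.exp (-(19 / 20 * L)) :=
      (BT_anti hp.le hp10 _ hcon).trans ht1.le
    have e3 : Real.exp (L / 20) * BT (n - 2) s p ≤
        Real.exp (L / 20) * Real.exp (-(19 / 20 * L)) :=
      mul_le_mul_of_nonneg_left e2 (Real.exp_pos _).le
    rw [← Real.exp_add, show L / 20 + -(19 / 20 * L) = -(9 / 10 * L) by ring] at e3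
    have e4 : Real.exp (-(9 / 10 * L)) < 1 / 2 := by
      have e5 : Real.exp (-(9 / 10 * L)) ≤ Real.exp (-(9 / 10)) :=
        Real.exp_le_exp.2 (by linarith)
      refine lt_of_le_of_lt e5 ?_
      rw [Real.exp_neg, inv_lt_comm₀ (Real.exp_pos _) (by norm_num)]
      have := Real.sum_le_exp_of_nonneg (x := (9 / 10 : ℝ)) (by norm_num) 4
      norm_num [Finset.sum_range_succ, Nat.factorial] at this
      norm_num
      linarith
    linarith
  refine ⟨hst, ?_⟩
  have e1 := h.ratio' s (t - s) hs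
  rw [Nat.sub_add_cancel hst.le] at e1
  have e3 : Real.exp (L / 20) * BT (n - 2) t p ≤
      Real.exp (L / 20) * Real.exp (-(19 / 20 * L)) :=
    mul_le_mul_of_nonneg_left ht1.le (Real.exp_pos _).le
  rw [← Real.exp_add, show L / 20 + -(19 / 20 * L) = -(9 / 10 * L) by ring] at e3
  linarith

/-- the maximum degree is large -/
theorem Dat.max (h : Dat n p c K μ L R) (t : ℕ) (h2 : 2 ≤ t)
    (ht : Real.exp (-(19 / 20 * L)) ≤ BT (n - 2) (t - 1) p) :
    PR p (fun χ : Pairs n → Bool => ∀ v, dg (gr χ) v < t - 1) ≤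
      Real.exp (-(L / 20)) + (32 / K + Real.exp (-L)) ^ 2 := by
  have h' := h
  obtain ⟨hc, hc1, hp, hp1, hK, hμ, hn, hL, hR, hRR, hKR, hcn⟩ := h'
  have hp10 : p ≤ 1 := by linarith
  have hn4 : (4 : ℝ) ≤ n := by
    have h0 : (0 : ℝ) ≤ n := Nat.cast_nonneg _
    nlinarith
  have hn2 : 2 ≤ n := by
    have : (2 : ℝ) ≤ n := by linarith
    exact_mod_cast this
  have hb : 0 < BT (n - 2) (t - 1) p := lt_of_lt_of_le (Real.exp_pos _) ht
  refine (PR_max2 hn2 hp.le hp10 (t - 1) hb).trans (add_le_add ?_ ?_)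
  · have e1 : Real.exp (L / 20) ≤ n * BT (n - 2) (t - 1) p := by
      rw [← hn]
      calc Real.exp (L / 20) = Real.exp L * Real.exp (-(19 / 20 * L)) := by
            rw [← Real.exp_add]
            congr 1
            ring
        _ ≤ _ := mul_le_mul_of_nonneg_left ht (Real.exp_pos _).le
    rw [Real.exp_neg, ← one_div]
    exact one_div_le_one_div_of_le (Real.exp_pos _) e1
  · have hR0 : 0 < R := by linarith
    have hμ0 : 0 < μ := by
      by_contra hcon
      push Not at hcon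
      nlinarith
    have hab : BT (n - 2) (t - 1) p ≤ BT (n - 2) (t - 1 - 1) p :=
      BT_anti hp.le hp10 _ (Nat.sub_le _ _)
    apply pow_le_pow_left₀
    · exact div_nonneg (by linarith) hb.le
    · rw [div_le_iff₀ hb]
      have e1 := h.ratio 1 (t - 1 - 1) (by exact_mod_cast hR)
      rw [pow_one, Nat.sub_add_cancel (by omega : 1 ≤ t - 1)] at e1
      have hK0 : 0 < K := by linarith
      have e2 : 32 * R / (c * μ) ≤ 32 / K := by
        rw [div_le_div_iff₀ (by positivity) hK0]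
        nlinarith
      have e3 : 32 * R / (c * μ) * BT (n - 2) (t - 1) p ≤ 32 / K * BT (n - 2) (t - 1) p :=
        mul_le_mul_of_nonneg_right e2 hb.le
      have e4 : Real.exp (-(6 * L)) ≤ Real.exp (-L) * BT (n - 2) (t - 1) p := by
        calc Real.exp (-(6 * L)) ≤ Real.exp (-L) * Real.exp (-(19 / 20 * L)) := by
              rw [← Real.exp_add]
              apply Real.exp_le_exp.2
              linarith
          _ ≤ _ := mul_le_mul_of_nonneg_left ht (Real.exp_pos _).le
      nlinarith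

end Pool.Agent.U531.SR
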